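import Pool.Agent.Lib.MP_926cc3_nt.PP.Spec

/-!
# MP_926cc3_nt, project PP, module TOT: the modulus `Mz`
-/

set_option autoImplicit false

namespace Pool.Agent.Lib.MP_926cc3_nt.PP

open Pool.Agent.Lib.MP_926cc3_nt.RS Pool.Agent.Lib.MP_926cc3_nt.TH

namespace TOTM

/-- the primes in the product -/
def F (z p0 : ℕ) : Finset ℕ := (Finset.range z).filter (fun p => p.Prime ∧ p ≠ p0)

lemma mem_F {z p0 p : ℕ} : p ∈ F z p0 ↔ p < z ∧ p.Prime ∧ p ≠ p0 := by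
  unfold F
  rw [Finset.mem_filter, Finset.mem_range]

lemma Mz_eq (z p0 : ℕ) : Mz z p0 = ∏ p ∈ F z p0, p := rfl

lemma pos (z p0 : ℕ) : 0 < Mz z p0 := by
  rw [Mz_eq]
  exact Finset.prod_pos (fun p hp => (mem_F.1 hp).2.1.pos)

lemma primeFactors (z p0 : ℕ) : (Mz z p0).primeFactors = F z p0 := by
  rw [Mz_eq]
  exact Nat.primeFactors_prod (fun p hp => (mem_F.1 hp).2.1)

lemma le (z p0 : ℕ) : Mz z p0 ≤ 4 ^ z := by
  refine le_trans ?_ (primorial_le_four_pow z)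
  rw [Mz_eq]
  unfold primorial
  refine Finset.prod_le_prod_of_subset_of_one_le' ?_ ?_
  · intro p hp
    obtain ⟨h1, h2, -⟩ := mem_F.1 hp
    rw [Finset.mem_filter, Finset.mem_range]
    exact ⟨by omega, h2⟩
  · intro p hp _
    exact (Finset.mem_filter.1 hp).2.one_lt.le

lemma totient (z p0 : ℕ) : (Nat.totient (Mz z p0) : ℝ) / Mz z p0 =
    ∏ p ∈ F z p0, (1 - 1 / (p : ℝ)) := by
  have h1 := Nat.totient_eq_mul_prod_factors (Mz z p0)
  rw [primeFactors] at h1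
  have h2 : (Nat.totient (Mz z p0) : ℝ) = (Mz z p0 : ℝ) * ∏ p ∈ F z p0, (1 - (p : ℝ)⁻¹) := by
    have h4 := congrArg (fun x : ℚ => (x : ℝ)) h1
    push_cast at h4
    exact h4
  have h3 : (Mz z p0 : ℝ) ≠ 0 := by
    exact_mod_cast (pos z p0).ne'
  rw [h2, mul_div_cancel_left₀ _ h3]
  simp only [one_div]

lemma V_le (z p0 : ℕ) : V z ≤ ∏ p ∈ F z p0, (1 - 1 / (p : ℝ)) := by
  have hsub : F z p0 ⊆ (Finset.range z).filter Nat.Prime := by
    intro p hp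
    obtain ⟨h1, h2, -⟩ := mem_F.1 hp
    rw [Finset.mem_filter, Finset.mem_range]
    exact ⟨h1, h2⟩
  have hf : ∀ p ∈ (Finset.range z).filter Nat.Prime, 0 ≤ 1 - 1 / (p : ℝ) ∧ 1 - 1 / (p : ℝ) ≤ 1 := by
    intro p hp
    have hp1 : (1 : ℝ) ≤ p := by exact_mod_cast (Finset.mem_filter.1 hp).2.one_lt.le
    have h1 : 1 / (p : ℝ) ≤ 1 := by rw [div_le_one (by linarith)]; exact hp1
    have h2 : 0 ≤ 1 / (p : ℝ) := by positivity
    constructor <;> linarith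
  unfold V
  rw [← Finset.prod_sdiff hsub]
  refine mul_le_of_le_one_left (Finset.prod_nonneg (fun p hp => (hf p (hsub hp)).1)) ?_
  exact Finset.prod_le_one (fun p hp => (hf p (Finset.mem_sdiff.1 hp).1).1)
    (fun p hp => (hf p (Finset.mem_sdiff.1 hp).1).2)

end TOTM

theorem specTOT : SpecTOT := by
  intro z p0 _
  refine ⟨fun p hp => ?_, ?_, TOTM.le z p0, TOTM.pos z p0⟩
  · have h1 : p ∣ Mz z p0 ↔ p ∈ (Mz z p0).primeFactors := by
      rw [Nat.mem_primeFactors]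
      exact ⟨fun h => ⟨hp, h, (TOTM.pos z p0).ne'⟩, fun h => h.2.1⟩
    rw [h1, TOTM.primeFactors, TOTM.mem_F]
    exact ⟨fun h => ⟨h.1, h.2.2⟩, fun h => ⟨h.1, hp, h.2⟩⟩
  · rw [TOTM.totient]
    exact TOTM.V_le z p0

end Pool.Agent.Lib.MP_926cc3_nt.PP
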