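import Pool.Agent.Lib.MP_926cc3_nt.PP.Defs
import Pool.Agent.Lib.LP.Spec

/-!
# MP_926cc3_nt (Shanks), project PP: random displacement and random thinning of the TRUE primes

**Theorem.** (1) For every `A` there are `κ < 1` and `B` such that for every nondecreasing `h` with
`B log² n ≤ h n ≤ (log n)^A` for large `n` and `h (2 n) / h n → 1`, and `ξ n` independent, uniform on
`{0, …, h n - 1}`: almost surely `log p_R(g) ≤ κ √g` for all large `g`, `R = {p + ξ p : p prime}`.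
(2) If every prime is kept with probability `δ`, independently, almost surely
`log p_R(g) ≤ κ √(|log (1-δ)| g)` for all large `g`.

FORM.  Module `XXX` = file `PP/XXX.lean`, imports `PP.Spec` (and landed files), namespace
`Pool.Agent.Lib.MP_926cc3_nt.PP`, auxiliary lemmas in the namespace `XXXM` inside it, theorem
`specXXX (hypotheses in the order of USES) : SpecXXX`.  Every `SpecXXX` has its complete proof in the
docstring.  Notation: `V z = ∏_{p<z} (1 - 1/p)`, `r z n = 1` if `n` has no prime factor `< z` and `0`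
otherwise (`TH.r`), `firstElt`, `NoSmall` (RS/Defs.lean), `Mz z p0 = ∏ {p < z, p ≠ p0}` (PP/Defs.lean).
-/

set_option autoImplicit false

open Filter Topology MeasureTheory ProbabilityTheory

namespace Pool.Agent.Lib.MP_926cc3_nt.PP

open Pool.Agent.Lib.MP_926cc3_nt.RS Pool.Agent.Lib.MP_926cc3_nt.TH

universe u

/-! ## Part N: the interface -/

/-- **NIF** (40 lines). USES `LP.SpecLPZ`. PROOF. `θ = 1/51`; `M = Mz z p0` is literally the product in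
`SpecLPZ` (`rfl`); `n.Coprime M` gives the bound. -/
def SpecNIF : Prop := SpecN

/-! ## Part S: the sieve -/

/-- **TOT** (80 lines). PROOF. (1) `Mz` is a product of distinct primes: a prime dividing the product divides one of the
factors (`Prime.exists_mem_finset_dvd`), so it is equal to it. (2) `φ` is multiplicative
(`Nat.totient_prod`-type induction, the factors are pairwise coprime), `φ(M)/M = ∏_{p<z, p≠p0} (1 - 1/p) ≥ V z`, as the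
missing factor is `≤ 1`. (3) `M ≤ primorial (z-1) ≤ 4^(z-1)` (`Finset.prod_le_prod_of_subset_of_one_le'`,
`primorial_le_four_pow`). -/
def SpecTOT : Prop := ∀ z p0 : ℕ, 2 ≤ z →
  (∀ p : ℕ, p.Prime → (p ∣ Mz z p0 ↔ p < z ∧ p ≠ p0)) ∧
  V z ≤ (Nat.totient (Mz z p0) : ℝ) / Mz z p0 ∧ Mz z p0 ≤ 4 ^ z ∧ 0 < Mz z p0

/-- **MAT** (130 lines). Maier's matrix. The rows are the windows `(k M + a, k M + a + L]`, `K1 ≤ k < K1 + K`; as `L ≤ M` they are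
pairwise disjoint and contained in `(x, 2x]`.
PROOF. A prime `p` in one of the windows, `p = k M + n` with `a < n ≤ a + L`, is `≡ n mod M`. If `n` is not
coprime to `M`, a prime `q` divides `M` and `n`, so `q ∣ p`, `q = p > x`, against `q ≤ x`. So
`∑_k #{p ∈ window k} = ∑_{n ∈ (a,a+L]} #{k : k M + n prime} ≤ ∑_{n coprime} #{p ∈ (x,2x] : p ≡ n mod M}` (for fixed `n` the map
`k ↦ k M + n` is injective into the primes of `(x, 2x]` in the class) and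
`#{p ∈ (x,2x], p ≡ n} * log x ≤ ∑ log p ≤ Y`. -/
def SpecMAT : Prop := ∀ (x M a L K1 K : ℕ) (Y : ℝ), 2 ≤ x → 1 ≤ M → L ≤ M → x ≤ K1 * M + a →
  (K1 + K) * M + a ≤ 2 * x → (∀ q : ℕ, q.Prime → q ∣ M → q ≤ x) →
  (∀ n : ℕ, n.Coprime M →
    ∑ p ∈ (Finset.Ioc x (2 * x)).filter (fun p => p.Prime ∧ p ≡ n [MOD M]), Real.log p ≤ Y) →
  (∀ k ∈ Finset.Ico K1 (K1 + K), ∀ k' ∈ Finset.Ico K1 (K1 + K), k ≠ k' →
    Disjoint (Finset.Ioc (k * M + a) (k * M + a + L)) (Finset.Ioc (k' * M + a) (k' * M + a + L))) ∧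
  (∀ k ∈ Finset.Ico K1 (K1 + K), x ≤ k * M + a ∧ k * M + a + L ≤ 2 * x) ∧
  ∑ k ∈ Finset.Ico K1 (K1 + K),
    (((Finset.Ioc (k * M + a) (k * M + a + L)).filter Nat.Prime).card : ℝ) ≤
    (((Finset.Ioc a (a + L)).filter (fun n => n.Coprime M)).card : ℝ) * Y / Real.log x

/-- **MKV** (40 lines). Markov. PROOF. On the complement of the set `{f k ≤ t3}` the sum is `≥ t3` times its
cardinality, so it has at most `(t2/t3) |S|` elements. -/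
def SpecMKV : Prop := ∀ (S : Finset ℕ) (f : ℕ → ℝ) (t2 t3 : ℝ), (∀ k, 0 ≤ f k) → 0 < t3 →
  ∑ k ∈ S, f k ≤ t2 * S.card →
  (1 - t2 / t3) * S.card ≤ ((S.filter (fun k => f k ≤ t3)).card : ℝ)

/-- deficient windows of rough numbers, one prime `p0 > B` being allowed to divide them: windows of every length `L` with
`(log x)^a ≤ L ≤ (log x)^A` -/
def Rough (θ a A kap : ℝ) : Prop := ∃ (B T : ℕ), ∀ᶠ x : ℕ in atTop, ∃ z : ℕ, 2 ≤ z ∧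
  (z : ℝ) ≤ Real.log x ^ θ ∧ (∀ p0 : ℕ, p0.Prime → B < p0 →
    (∀ L : ℕ, Real.log x ^ a ≤ L → (L : ℝ) ≤ Real.log x ^ A → L ≤ Mz z p0 ∧
      ∃ c : ℕ, (c : ℝ) ≤ Real.log x ^ T ∧
        (((Finset.Ioc c (c + L)).filter (fun n => n.Coprime (Mz z p0))).card : ℝ) ≤
          kap * L * Nat.totient (Mz z p0) / Mz z p0))

/-- **RGH** (150 lines). USES `TH.SpecDEF`, SpecDRP, SpecPRL, SpecTOT. PROOF. May assume `A ≥ 2`, `θ ≤ 1/40` (the statement for a smaller `θ`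
implies it for a larger one as `log x ≥ 1`). `U = ⌈2 A / θ⌉`. `TH.SpecDEF` with `U` gives `kapD < 1`, `T`, `z0`; `kap = (1 + kapD)/2`.
SpecDRP gives `C`; `B` with `C / B ≤ (1 - kapD)/2`. For large `x` let `z = ⌊(log x)^θ⌋`: `z ≤ (log x)^θ`, and
`z ≥ (log x)^(θ/2)` (as `(log x)^θ - 1 ≥ (log x)^(θ/2)` for large `x`), `z ≥ max z0 2` and `z ≥` the number of SpecPRL for the exponent `U`.
`L ≥ log x` gives `z^40 ≤ (log x)^(40 θ) ≤ log x ≤ L`, and `L ≤ (log x)^A ≤ z^(2A/θ) ≤ z^U ≤ Mz z p0`.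
DEF: `c ≤ z^T ≤ (log x)^T` (`θ ≤ 1`) with `∑ r z n ≤ kapD V z L`. DRP: the number of the `n ∈ (c, c+L]` coprime to `Mz z p0` is
`≤ kapD V z L + C V z L/p0 ≤ kap V z L`, and `V z ≤ φ(M)/M` by TOT (2). (Needs `1 ≤ L`.) -/
def SpecRGH : Prop := ∀ θ A : ℝ, 0 < θ → ∃ kap : ℝ, 0 < kap ∧ kap < 1 ∧ Rough θ 1 A kap

/-- deficient windows of primes: for all large `x` and all lengths `(log x)^a ≤ L ≤ (log x)^A` there are
`x^(1-η)` disjoint windows of length `L` in `[x, 2x]` with at most `kap L / log x` primes -/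
def Defic (a A kap : ℝ) : Prop := ∀ η : ℝ, 0 < η → ∀ᶠ x : ℕ in atTop, ∀ L : ℕ,
  Real.log x ^ a ≤ L → (L : ℝ) ≤ Real.log x ^ A → ∃ I : Finset ℕ,
    (x : ℝ) ^ (1 - η) ≤ I.card ∧ (∀ s ∈ I, x ≤ s ∧ s + L ≤ 2 * x) ∧
    (∀ s ∈ I, ∀ s' ∈ I, s ≠ s' → Disjoint (Finset.Ioc s (s + L)) (Finset.Ioc s' (s' + L))) ∧
    ∀ s ∈ I, (((Finset.Ioc s (s + L)).filter Nat.Prime).card : ℝ) ≤ kap * L / Real.log x

/-- the upper bound for primes in progressions, with the exponent `θ` -/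
def NN (θ : ℝ) : Prop := ∀ ε : ℝ, 0 < ε → ∀ B : ℕ, ∃ x0 : ℕ,
  ∀ x z : ℕ, x0 ≤ x → 2 ≤ z → (z : ℝ) ≤ Real.log x ^ θ → ∃ p0 : ℕ, p0.Prime ∧ B < p0 ∧
    ∀ n : ℕ, n.Coprime (Mz z p0) →
      ∑ p ∈ (Finset.Ioc x (2 * x)).filter (fun p => p.Prime ∧ p ≡ n [MOD Mz z p0]), Real.log p ≤
        (1 + ε) * x / Nat.totient (Mz z p0)

/-- **SIZ** (60 lines). PROOF. `log` of the left side is `≤ (log x)^θ log 4 + O(log log x) = o(log x)`. -/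
def SpecSIZ : Prop := ∀ (θ A ε η : ℝ) (T : ℕ), 0 < θ → θ < 1 → 0 < ε → 0 < η →
  ∀ᶠ x : ℕ in atTop, ∀ z : ℕ, (z : ℝ) ≤ Real.log x ^ θ →
    2 * (4 : ℝ) ^ z + Real.log x ^ T + Real.log x ^ A ≤ ε * x ∧ (4 : ℝ) ^ z ≤ (x : ℝ) ^ η ∧ (z : ℝ) ≤ x

/-- **DWW** (150 lines). USES SpecTOT, SpecMAT, SpecMKV, SpecSIZ. PROOF. Let `kap1 < kap3 < kap`... Precisely: `t = kap'/kap > 1`. Choose
`ε > 0` with `kap (1 + ε)/(1 - ε) < kap'`. Let `x` be large, `z` from `Rough`, `p0` from `NN θ` (with `ε` and `B`), `M = Mz z p0`, `L` given,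
`c` from `Rough`. `K1 = x / M + 1`, `K = (2 x - c) / M - K1` (natural division): `K1 M + c ≥ x`, `(K1 + K) M + c ≤ 2x`,
`K ≥ (x - c)/M - 2 ≥ (1 - ε) x/M` by SpecSIZ (`2 M + c ≤ ε x`, `M ≤ 4^z`). SpecMAT with `Y = (1+ε) x/φ(M)`:
the sum over the windows is `≤ kap L (φ(M)/M) (1+ε) x / (φ(M) log x) = kap (1+ε) L x/(M log x) ≤ t2 K`,
`t2 = kap (1+ε)/(1-ε) L/log x`. SpecMKV with `t3 = kap' L / log x`: at least `(1 - t2/t3) K ≥ c0 x/M ≥ x^(1-η)` good `k`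
(`c0 = (1 - kap (1+ε)/((1-ε) kap')) (1-ε) > 0`; SpecSIZ with `η/2` and `x^(η/2) ≥ 1/c0`). `I` = the image of the good `k` under
`k ↦ k M + c` (injective). If `L = 0`: excluded by `(log x)^a ≤ L`. -/
def SpecDWW : Prop := ∀ θ a A kap kap' : ℝ, 0 < θ → θ < 1 → 0 < kap → kap < kap' → Rough θ a A kap → NN θ →
  Defic a A kap'

/-! ## Part P: probability -/

/-- **BC** (100 lines). USES `TH.SpecEMP`. PROOF. `q = x^(-β) ≤ 1`; EMP: the probability of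
`F x = {ω | ∀ s ∈ I x, ∃ n ∈ W x s, ω ∈ E x n}` is `≤ (1-q)^|I x| ≤ exp(-q |I x|) ≤ exp(-x^(β'-β))`, summable; Borel-Cantelli
(`ae_eventually_notMem`). See `TH.UPHM.runsH` (TH/UPH.lean) for all the steps (`PRBM.asym`, `tsum_ne_top`). -/
def SpecBC : Prop := ∀ (Ω : Type u) (_ : MeasurableSpace Ω) (μ : Measure Ω), IsProbabilityMeasure μ →
  ∀ (E : ℕ → ℕ → Set Ω), (∀ x n, MeasurableSet (E x n)) → (∀ x, iIndepSet (E x) μ) →
  ∀ (I : ℕ → Finset ℕ) (W : ℕ → ℕ → Finset ℕ) (β β' : ℝ), 0 ≤ β → β < β' →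
  (∀ᶠ x : ℕ in atTop, (∀ s ∈ I x, ∀ s' ∈ I x, s ≠ s' → Disjoint (W x s) (W x s')) ∧
    (x : ℝ) ^ β' ≤ (I x).card ∧ ∀ s ∈ I x, (x : ℝ) ^ (-β) ≤ ∏ n ∈ W x s, (1 - μ.real (E x n))) →
  ∀ᵐ ω ∂μ, ∀ᶠ x : ℕ in atTop, ∃ s ∈ I x, ∀ n ∈ W x s, ω ∉ E x n

/-- **DET** (110 lines). PROOF. As `TH.UPHM.upper'` and `TH.UPHM.upper` (TH/UPH.lean) or `T2.up_det` (T2/Up.lean), with
`T = √((g+2)/C)`, `x = ⌈exp T⌉`: `log (firstElt S g) ≤ T + log 6 ≤ κ √g` for large `g`, as `1/√C < κ`. -/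
def SpecDET : Prop := ∀ (S : Set ℕ) (C κ : ℝ), 0 < C → 1 / Real.sqrt C < κ →
  (∀ᶠ x : ℕ in atTop, ∃ n ∈ S, 2 * x ≤ n ∧ n ≤ 3 * x) →
  (∀ᶠ x : ℕ in atTop, ∃ a : ℕ, x ≤ a ∧ a ≤ 2 * x ∧
    ∀ n, a ≤ n → n < a + ⌊C * Real.log x ^ 2⌋₊ → n ∉ S) →
  ∀ᶠ g : ℕ in atTop,
    {p : ℕ | p ∈ S ∧ ∀ i : ℕ, 1 ≤ i → i ≤ g → (1 < p - i ∧ p - i ∉ S)}.Nonempty ∧
    Real.log (firstElt S g) ≤ κ * Real.sqrt g

/-- **PRM** (60 lines). PROOF. `Pool.Agent.Lib.PntAP` (`pi_ap_interval` or `theta_ap_interval` with `q = 1`, `δ = 1/4`, at `2 x`), and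
`x/(8 log x) ≥ √x` for large `x`. -/
def SpecPRM : Prop := ∀ᶠ x : ℕ in atTop,
  Real.sqrt x ≤ (((Finset.Ioc (2 * x) (2 * x + x / 2)).filter Nat.Prime).card : ℝ)

/-- **UNI** (60 lines). PROOF. (1) `μ.real {ξ n = j} = 0` for `j ≥ h n`, countable union over `j` and `n`. (2) If `h n = 0` all the
probabilities `μ.real {ξ n = j}` vanish, against `∑_j μ {ξ n = j} = 1` (so also `μ univ = 0`). (3) the set is the
union of the `{ξ n = j}` with `n + j ∈ (c, c + g]`, at most `g` values of `j`, each of probability `≤ 1/h n`. -/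
def SpecUNI : Prop := ∀ (Ω : Type u) (_ : MeasurableSpace Ω) (μ : Measure Ω), IsProbabilityMeasure μ →
  ∀ (h : ℕ → ℕ) (ξ : ℕ → Ω → ℕ), Uniform μ h ξ → (∀ᵐ ω ∂μ, ∀ n, ξ n ω < h n) ∧ (∀ n, 1 ≤ h n) ∧
    ∀ n c g : ℕ, μ.real {ω | n + ξ n ω ∈ Finset.Ioc c (c + g)} ≤ (g : ℝ) / h n

/-- **EXD** (80 lines). PROOF. Blocks `Ioc s (s+L)`, `s ∈ I`, pairwise disjoint. For `n` prime in the block of `s` (unique) let
`E n = ξ n ⁻¹' {j | n + j ∈ (s + H, s + L]}`, for the other `n` let `E n = ∅ = ξ n ⁻¹' ∅`. So `E n = ξ n ⁻¹' T n`, `T n` measurable;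
independence: `iIndepSet_iff_meas_biInter` and `iIndepFun.measure_inter_preimage_eq_mul`. -/
def SpecEXD : Prop := ∀ (Ω : Type u) (_ : MeasurableSpace Ω) (μ : Measure Ω), IsProbabilityMeasure μ →
  ∀ (ξ : ℕ → Ω → ℕ), (∀ n, Measurable (ξ n)) → iIndepFun ξ μ → ∀ (I : Finset ℕ) (H L : ℕ),
  (∀ s ∈ I, ∀ s' ∈ I, s ≠ s' → Disjoint (Finset.Ioc s (s + L)) (Finset.Ioc s' (s' + L))) →
  ∃ E : ℕ → Set Ω, (∀ n, MeasurableSet (E n)) ∧ iIndepSet E μ ∧ ∀ s ∈ I, ∀ n ∈ Finset.Ioc s (s + L),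
    E n = if n.Prime then {ω | n + ξ n ω ∈ Finset.Ioc (s + H) (s + L)} else ∅

/-- **DSN** (80 lines). The numerical lemma of DSP, `u = g/h(x)`, `g = ⌊C log² x⌋`, `L = h(2x) + g`. PROOF. `kap C < 1`; choose `B ≥ 1` large and `τ > 0` with
`kap C (1 + τ + C/B)/(1 - C/B) ≤ β := (1 + kap C)/2 < 1`, `C/B ≤ 1/2`. For large `x`: `h x ≥ B log² x`, so `u ≤ C/B`, and
`h(2x) ≤ (1+τ) h(x)`. `log (1-u) ≥ -u/(1-u)` (`Real.log_le_sub_one_of_pos` at `1/(1-u)`), so for `N ≤ kap L/log x`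
`(1-u)^N = exp(N log (1-u)) ≥ exp(-(kap L/log x) u/(1-u))` and `L u = g (h(2x) + g)/h(x) ≤ g (1 + τ + C/B) ≤ C log² x (1+τ+C/B)`.
Lengths: `(log x)^a ≤ log² x ≤ h x ≤ L` (`a < 2`, `B ≥ 1`), `L ≤ (log 2x)^A + C log² x ≤ (log x)^A'` for large `x`. -/
def SpecDSN : Prop := ∀ (a A A' kap C : ℝ), a < 2 → A < A' → 2 < A' → 0 < kap → 0 < C → kap * C < 1 →
  ∃ B β : ℝ, 0 < B ∧ 0 < β ∧ β < 1 ∧ ∀ h : ℕ → ℕ, (∀ n, 1 ≤ h n) → Monotone h →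
  (∀ᶠ n : ℕ in atTop, B * Real.log n ^ 2 ≤ h n) → (∀ᶠ n : ℕ in atTop, (h n : ℝ) ≤ Real.log n ^ A) →
  Tendsto (fun n : ℕ => (h (2 * n) : ℝ) / h n) atTop (𝓝 1) →
  ∀ᶠ x : ℕ in atTop, Real.log x ^ a ≤ ((h (2 * x) + ⌊C * Real.log x ^ 2⌋₊ : ℕ) : ℝ) ∧
    ((h (2 * x) + ⌊C * Real.log x ^ 2⌋₊ : ℕ) : ℝ) ≤ Real.log x ^ A' ∧
    (⌊C * Real.log x ^ 2⌋₊ : ℝ) / h x < 1 ∧
    ∀ N : ℕ, (N : ℝ) ≤ kap * ((h (2 * x) + ⌊C * Real.log x ^ 2⌋₊ : ℕ) : ℝ) / Real.log x →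
      (x : ℝ) ^ (-β) ≤ (1 - (⌊C * Real.log x ^ 2⌋₊ : ℝ) / h x) ^ N

/-- **DSP** (180 lines). USES SpecBC, SpecDET, SpecPRM, SpecUNI, SpecEXD, SpecDSN. PROOF. `1/κ² < C < 1/kap`; DSN gives `B`, `β < 1`. `β' = (1+β)/2`, `Defic` with
`η = 1 - β'`. For large `x`: `g = ⌊C log² x⌋`, `L = h(2x) + g`, `I x` from `Defic` (empty for the small `x`; `choose`), `E x` from EXD with
`H = h(2x)`, `W x s = Ioc s (s+L)`. For `s ∈ I x` and a prime `n ∈ W x s`, `x ≤ s < n`: `μ.real (E x n) ≤ g/h n ≤ g/h x` (UNI (3)); so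
`∏ (1 - μ.real (E x n)) ≥ (1 - g/h x)^N`, `N` = number of primes of the window `≤ kap L/log x`, `≥ x^(-β)` by DSN. BC: almost surely for all large `x` there is
`s ∈ I x` with no prime `p ∈ (s, s+L]` with `p + ξ p ∈ (s + h(2x), s + L]`. `a = s + h(2x) + 1`: `x ≤ a ≤ 2x` (if `g ≥ 1`), and if
`a ≤ n < a + g` and `n = p + ξ p ω`, then `p ≤ n ≤ s + L ≤ 2x`, `ξ p ω < h p ≤ h (2x)` (UNI (1)), `p > s`, `n ∈ (s+h(2x), s+L]`, a
contradiction. DET for `S = moved ξ ω`: by PRM there is a prime `p ∈ (2x, 2x + x/2]` for large `x` and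
`p + ξ p ω ≤ 2x + x/2 + h(3x) ≤ 3x` (`h(3x) ≤ (log 3x)^A ≤ x/2 - 1`). -/
def SpecDSP : Prop := ∀ (a A A' kap κ : ℝ), a < 2 → A < A' → 2 < A' → 0 < kap → 0 < κ → kap < κ ^ 2 →
  Defic a A' kap → ∃ B : ℝ, 0 < B ∧ ∀ h : ℕ → ℕ, Monotone h →
  (∀ᶠ n : ℕ in atTop, B * Real.log n ^ 2 ≤ h n) → (∀ᶠ n : ℕ in atTop, (h n : ℝ) ≤ Real.log n ^ A) →
  Tendsto (fun n : ℕ => (h (2 * n) : ℝ) / h n) atTop (𝓝 1) →
  ∀ (Ω : Type u) (_ : MeasurableSpace Ω) (μ : Measure Ω), IsProbabilityMeasure μ →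
  ∀ ξ : ℕ → Ω → ℕ, iIndepFun ξ μ → Uniform μ h ξ → ∀ᵐ ω ∂μ, ∀ᶠ g : ℕ in atTop,
    {p : ℕ | p ∈ moved ξ ω ∧ ∀ i : ℕ, 1 ≤ i → i ≤ g → (1 < p - i ∧ p - i ∉ moved ξ ω)}.Nonempty ∧
    Real.log (firstElt (moved ξ ω) g) ≤ κ * Real.sqrt g

/-- the primes that are kept -/
def kept {Ω : Type*} (K : ℕ → Set Ω) (ω : Ω) : Set ℕ := {p | p.Prime ∧ ω ∈ K p}

/-- **THD** (80 lines). USES `TH.SpecEMP`, SpecPRM. PROOF. For `x` large let `J` = the primes of `(2x, 2x + x/2]`, `|J| ≥ √x`. EMP with the events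
`(K n)ᶜ` (independent: `iIndepSet.compl` or by hand), index set `J`, `W p = {p}`, `q = δ`: the probability that no `p ∈ J` is kept is
`≤ (1-δ)^|J| ≤ exp(-δ √x)`, summable; Borel-Cantelli. -/
def SpecTHD : Prop := ∀ (Ω : Type u) (_ : MeasurableSpace Ω) (μ : Measure Ω), IsProbabilityMeasure μ →
  ∀ (K : ℕ → Set Ω) (δ : ℝ), 0 < δ → δ < 1 → (∀ n, MeasurableSet (K n)) → iIndepSet K μ →
  (∀ p : ℕ, p.Prime → μ.real (K p) = δ) →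
  ∀ᵐ ω ∂μ, ∀ᶠ x : ℕ in atTop, ∃ n ∈ kept K ω, 2 * x ≤ n ∧ n ≤ 3 * x

/-- **THN** (130 lines). USES SpecBC, SpecDET, SpecTHD. PROOF. `ℓ = -log (1-δ) > 0`, `1/(κ² ℓ) < C < 1/(kap ℓ)`, `β = kap C ℓ < 1`,
`β' = (1+β)/2`, `η = 1 - β'`. For large `x`, `L = ⌊C log² x⌋` satisfies `(log x)^a ≤ L ≤ (log x)^A` (`a < 2 < A`). `I x` from `Defic`,
`W x s` = the primes of `Ioc s (s+L)`, `E x n = K n` (independent), `∏ (1 - δ) = (1-δ)^N = exp(-ℓ N) ≥ exp(-ℓ kap C log x) = x^(-β)`.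
BC: almost surely for all large `x` some window has no kept prime; `a = s + 1`. DET with the constant `κ √ℓ`
(`1/√C < κ √ℓ`), `κ √ℓ √g = κ √(ℓ g)`. -/
def SpecTHN : Prop := ∀ (a A kap κ δ : ℝ), a < 2 → 2 < A → 0 < kap → 0 < κ → kap < κ ^ 2 → 0 < δ → δ < 1 →
  Defic a A kap →
  ∀ (Ω : Type u) (_ : MeasurableSpace Ω) (μ : Measure Ω), IsProbabilityMeasure μ →
  ∀ K : ℕ → Set Ω, (∀ n, MeasurableSet (K n)) → iIndepSet K μ →
  (∀ p : ℕ, p.Prime → μ.real (K p) = δ) → ∀ᵐ ω ∂μ, ∀ᶠ g : ℕ in atTop,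
    {p : ℕ | p ∈ kept K ω ∧ ∀ i : ℕ, 1 ≤ i → i ≤ g → (1 < p - i ∧ p - i ∉ kept K ω)}.Nonempty ∧
    Real.log (firstElt (kept K ω) g) ≤ κ * Real.sqrt (-Real.log (1 - δ) * g)

/-- **EXI** (70 lines). PROOF. `Measure.infinitePi` of the uniform measures on `{0, …, h n - 1}` (for instance the image of the uniform
measure on `Fin (h n)`, or `(1/h n) ∑_{j < h n} dirac j`), on `ℕ → ℕ`, `ξ n ω = ω n`; `iIndepFun_infinitePi`. Compare RS/Exist.lean. -/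
def SpecEXI : Prop := ∀ h : ℕ → ℕ, (∀ n, 1 ≤ h n) → ∃ (Ω : Type) (_ : MeasurableSpace Ω)
  (μ : Measure Ω) (ξ : ℕ → Ω → ℕ), IsProbabilityMeasure μ ∧ iIndepFun ξ μ ∧ Uniform μ h ξ

end Pool.Agent.Lib.MP_926cc3_nt.PP
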