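import Pool.Agent.Lib.MP_926cc3_nt.PP.Spec

/-!
# MP_926cc3_nt (Shanks), project PP, module PRL: the modulus is larger than any power of `z`
-/

set_option autoImplicit false

open Filter Topology MeasureTheory ProbabilityTheory

namespace Pool.Agent.Lib.MP_926cc3_nt.PP

open Pool.Agent.Lib.MP_926cc3_nt.RS Pool.Agent.Lib.MP_926cc3_nt.TH

namespace PRLM

theorem primorial_le (z p0 : ℕ) (hz : 1 ≤ z) : primorial (z - 1) ≤ z * Mz z p0 := by
  classical
  have h1 : primorial (z - 1) = ∏ p ∈ (Finset.range z).filter Nat.Prime, p := by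
    unfold primorial
    rw [Nat.sub_add_cancel hz]
  have h2 : (Finset.range z).filter (fun p => p.Prime ∧ p ≠ p0) =
      ((Finset.range z).filter Nat.Prime).erase p0 := by
    ext p
    simp only [Finset.mem_filter, Finset.mem_erase]
    tauto
  rw [h1, Mz, h2]
  by_cases hp : p0 ∈ (Finset.range z).filter Nat.Prime
  · rw [← Finset.mul_prod_erase _ _ hp]
    refine Nat.mul_le_mul_right _ ?_
    have := (Finset.mem_filter.1 hp).1
    exact (Finset.mem_range.1 this).le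
  · rw [Finset.erase_eq_of_notMem hp]
    exact Nat.le_mul_of_pos_left _ hz

end PRLM

open PRLM in
theorem specPRL : SpecPRL := by
  intro A
  refine ⟨(16 * (A + 4)) ^ 4, fun z p0 hz => ?_⟩
  have hz1 : 2 ≤ z := by
    have : 2 ≤ (16 * (A + 4)) ^ 4 := by
      calc 2 ≤ 16 * (A + 4) := by omega
        _ ≤ _ := Nat.le_self_pow (by norm_num) _
    omega
  obtain ⟨n, rfl⟩ : ∃ n, z = n + 1 := ⟨z - 1, by omega⟩
  have hn1 : 1 ≤ n := by omega
  set w : ℝ := ((n + 1 : ℕ) : ℝ) ^ (1 / 4 : ℝ) with hw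
  have hz0 : (0 : ℝ) ≤ ((n + 1 : ℕ) : ℝ) := Nat.cast_nonneg _
  have hw4 : w ^ 4 = ((n + 1 : ℕ) : ℝ) := by
    rw [hw, ← Real.rpow_natCast, ← Real.rpow_mul hz0]
    norm_num
  have hw0 : 0 ≤ w := Real.rpow_nonneg hz0 _
  have hwA : 16 * ((A : ℝ) + 4) ≤ w := by
    have h1 : (16 * ((A : ℝ) + 4)) ^ 4 ≤ w ^ 4 := by
      rw [hw4]
      exact_mod_cast hz
    exact le_of_pow_le_pow_left₀ (by norm_num) hw0 h1
  have hlog : Real.log ((n + 1 : ℕ) : ℝ) ≤ 4 * w := by
    have := Real.log_le_rpow_div hz0 (by norm_num : (0 : ℝ) < 1 / 4)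
    rw [← hw] at this
    linarith
  have hlog0 : 0 ≤ Real.log ((n + 1 : ℕ) : ℝ) := Real.log_natCast_nonneg _
  have hsqrt : √(n : ℝ) ≤ w ^ 2 := by
    have h1 : √((n + 1 : ℕ) : ℝ) = w ^ 2 := by
      rw [← hw4, show w ^ 4 = (w ^ 2) ^ 2 by ring, Real.sqrt_sq (by positivity)]
    rw [← h1]
    exact Real.sqrt_le_sqrt (by push_cast; linarith)
  have hlogn : Real.log (n : ℝ) ≤ Real.log ((n + 1 : ℕ) : ℝ) :=
    Real.log_le_log (by exact_mod_cast hn1) (by push_cast; linarith)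
  have hlogn0 : 0 ≤ Real.log (n : ℝ) := Real.log_natCast_nonneg _
  have hth := Chebyshev.theta_ge n
  rw [Chebyshev.theta_eq_log_primorial, Nat.floor_natCast] at hth
  have hp := primorial_le (n + 1) p0 (by omega)
  rw [Nat.add_sub_cancel] at hp
  have hM : 0 < Mz (n + 1) p0 :=
    Finset.prod_pos fun p hp => ((Finset.mem_filter.1 hp).2.1).pos
  have hlp : Real.log (primorial n) ≤
      Real.log ((n + 1 : ℕ) : ℝ) + Real.log (Mz (n + 1) p0 : ℝ) := by
    rw [← Real.log_mul (by positivity) (by positivity)]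
    refine Real.log_le_log ?_ ?_
    · exact_mod_cast primorial_pos n
    · exact_mod_cast hp
  have hl2 : (1 : ℝ) / 2 ≤ Real.log 2 := by linarith [Real.log_two_gt_d9]
  have h1 : 2 * √(n : ℝ) * Real.log n ≤ 2 * w ^ 2 * (4 * w) := by
    have h2 : Real.log (n : ℝ) ≤ 4 * w := hlogn.trans hlog
    exact mul_le_mul (by linarith) h2 hlogn0 (by positivity)
  have h2 : (A : ℝ) * Real.log ((n + 1 : ℕ) : ℝ) ≤ Real.log (Mz (n + 1) p0 : ℝ) := by
    have e1 : ((n + 1 : ℕ) : ℝ) = (n : ℝ) + 1 := by push_cast; ring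
    have e2 : Real.log ((n : ℝ) + 1) = Real.log ((n + 1 : ℕ) : ℝ) := by rw [e1]
    rw [e2] at hth
    have h3 : ((A : ℝ) + 2) * Real.log ((n + 1 : ℕ) : ℝ) ≤ ((A : ℝ) + 2) * (4 * w) :=
      mul_le_mul_of_nonneg_left hlog (by positivity)
    have hn : (n : ℝ) = w ^ 4 - 1 := by rw [hw4, e1]; ring
    have hwbig : 64 ≤ w := by
      have : (0 : ℝ) ≤ A := Nat.cast_nonneg _
      linarith
    have h4 : (n : ℝ) * (1 / 2) ≤ n * Real.log 2 :=
      mul_le_mul_of_nonneg_left hl2 (Nat.cast_nonneg _)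
    have h5 : ((A : ℝ) + 2) * (4 * w) ≤ w ^ 2 * (A + 2) * (4 * w) := by
      have : (1 : ℝ) ≤ w ^ 2 := by nlinarith
      have hA : (0 : ℝ) ≤ ((A : ℝ) + 2) * (4 * w) := by positivity
      nlinarith
    have h6 : w ^ 3 * (16 * ((A : ℝ) + 4)) ≤ w ^ 3 * w :=
      mul_le_mul_of_nonneg_left hwA (by positivity)
    have h7 : (1 : ℝ) ≤ w ^ 4 := by
      have : (1 : ℝ) ≤ w ^ 2 := by nlinarith
      nlinarith
    nlinarith
  have h3 : Real.log (((n + 1) ^ A : ℕ) : ℝ) ≤ Real.log (Mz (n + 1) p0 : ℝ) := by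
    rw [Nat.cast_pow, Real.log_pow]
    exact h2
  have h4 := (Real.log_le_log_iff (by positivity) (by positivity)).1 h3
  exact_mod_cast h4

end Pool.Agent.Lib.MP_926cc3_nt.PP
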