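import Pool.Agent.Lib.MP_926cc3_nt.PP.Spec

/-!
# MP_926cc3_nt, project PP, module BC: many independent windows, Borel-Cantelli
-/

set_option autoImplicit false

open Filter Topology MeasureTheory ProbabilityTheory

namespace Pool.Agent.Lib.MP_926cc3_nt.PP

open Pool.Agent.Lib.MP_926cc3_nt.RS Pool.Agent.Lib.MP_926cc3_nt.TH

universe u

namespace BCM

theorem asym {c : ℝ} (hc : 0 < c) :
    ∀ᶠ x : ℕ in atTop, Real.exp (-(x : ℝ) ^ c) ≤ (x : ℝ) ^ (-(2 : ℝ)) := by
  have h1 := (isLittleO_log_rpow_atTop hc).bound (show (0 : ℝ) < 1 / 2 by norm_num)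
  have h2 := tendsto_natCast_atTop_atTop.eventually h1
  filter_upwards [h2, eventually_ge_atTop 1] with x hx hx1
  have hx1' : (1 : ℝ) ≤ x := by exact_mod_cast hx1
  have hpos : (0 : ℝ) < x := by linarith
  rw [Real.norm_of_nonneg (Real.log_nonneg hx1'),
    Real.norm_of_nonneg (Real.rpow_nonneg hpos.le _)] at hx
  rw [Real.rpow_def_of_pos hpos (-(2 : ℝ))]
  apply Real.exp_le_exp.2
  linarith

theorem tsum_ne_top {Ω : Type u} [MeasurableSpace Ω] {μ : Measure Ω} [IsProbabilityMeasure μ]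
    {F : ℕ → Set Ω} (hF : ∀ᶠ x : ℕ in atTop, μ (F x) ≤ ENNReal.ofReal ((x : ℝ) ^ (-(2 : ℝ)))) :
    (∑' x : ℕ, μ (F x)) ≠ ⊤ := by
  obtain ⟨b, hb⟩ := eventually_atTop.1 hF
  have h1 : Summable (fun x : ℕ => (x : ℝ) ^ (-(2 : ℝ))) :=
    Real.summable_nat_rpow.2 (by norm_num)
  rw [← ENNReal.summable.sum_add_tsum_nat_add' (f := fun x => μ (F x)) (k := b)]
  apply ENNReal.add_ne_top.2
  constructor
  · exact (ENNReal.sum_lt_top.2 (fun i _ => measure_lt_top μ _)).ne
  · have h3 : Summable (fun x : ℕ => ((x + b : ℕ) : ℝ) ^ (-(2 : ℝ))) :=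
      (summable_nat_add_iff b).2 h1
    refine ne_top_of_le_ne_top h3.tsum_ofReal_ne_top (ENNReal.tsum_le_tsum (fun x => ?_))
    exact hb (x + b) (by omega)

end BCM

open BCM in
theorem specBC (hEMP : SpecEMP.{u}) : SpecBC.{u} := by
  intro Ω m0 μ hμ E hE hI I W β β' hβ hββ hev
  have := hμ
  set F : ℕ → Set Ω := fun x => {ω | ∀ s ∈ I x, ∃ n ∈ W x s, ω ∈ E x n} with hF
  have hc0 : 0 < β' - β := by linarith
  have hFm : ∀ᶠ x : ℕ in atTop, μ (F x) ≤ ENNReal.ofReal ((x : ℝ) ^ (-(2 : ℝ))) := by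
    filter_upwards [asym hc0, eventually_ge_atTop 1, hev] with x hx hx1 hxE
    obtain ⟨p2, p3, p4⟩ := hxE
    have hx1' : (1 : ℝ) ≤ x := by exact_mod_cast hx1
    have hpos : (0 : ℝ) < x := by linarith
    set q : ℝ := (x : ℝ) ^ (-β) with hq
    have hq0 : 0 ≤ q := Real.rpow_nonneg hpos.le _
    have hq1 : q ≤ 1 := Real.rpow_le_one_of_one_le_of_nonpos hx1' (by linarith)
    have h1 := hEMP Ω m0 μ hμ (E x) (hE x) (hI x) (I x) (W x) q p2 hq0 p4
    have h2 : (1 - q) ^ (I x).card ≤ Real.exp (-(x : ℝ) ^ (β' - β)) := by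
      calc (1 - q) ^ (I x).card ≤ (Real.exp (-q)) ^ (I x).card := by
            apply pow_le_pow_left₀ (by linarith)
            have := Real.add_one_le_exp (-q)
            linarith
        _ = Real.exp (-(q * (I x).card)) := by
            rw [← Real.exp_nat_mul]; congr 1; ring
        _ ≤ Real.exp (-(x : ℝ) ^ (β' - β)) := by
            apply Real.exp_le_exp.2
            have h3 : (x : ℝ) ^ (β' - β) = q * (x : ℝ) ^ β' := by
              rw [hq, ← Real.rpow_add hpos]; congr 1; ring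
            rw [h3]
            have := mul_le_mul_of_nonneg_left p3 hq0
            linarith
    rw [← ENNReal.ofReal_toReal (measure_ne_top μ (F x))]
    exact ENNReal.ofReal_le_ofReal (h1.trans (h2.trans hx))
  filter_upwards [ae_eventually_notMem (tsum_ne_top hFm)] with ω h1
  filter_upwards [h1] with x hxF
  by_contra hcon
  push Not at hcon
  exact hxF (fun s hs => hcon s hs)

end Pool.Agent.Lib.MP_926cc3_nt.PP
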