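import Pool.Agent.Lib.MP_926cc3_nt.PP.Defs

/-!
# PP, module DRP: dropping one prime from the sieve
-/

set_option autoImplicit false

open Filter Topology

namespace Pool.Agent.Lib.MP_926cc3_nt.PP

open Pool.Agent.Lib.MP_926cc3_nt.RS Pool.Agent.Lib.MP_926cc3_nt.TH

namespace DRPM

/-- the number of the integers in `(a, e]` which are coprime to `Mz z p0` -/
def R (z p0 a e : ℕ) : ℕ := ((Finset.Ioc a e).filter (fun n => n.Coprime (Mz z p0))).card

lemma coprime_iff {z p0 n : ℕ} : n.Coprime (Mz z p0) ↔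
    ∀ p : ℕ, p.Prime → p < z → p ≠ p0 → ¬ p ∣ n := by
  constructor
  · intro h p hp hz hp0 hpn
    have h1 : p ∣ Mz z p0 :=
      Finset.dvd_prod_of_mem (fun p : ℕ => p)
        (Finset.mem_filter.2 ⟨Finset.mem_range.2 hz, hp, hp0⟩)
    have h2 : p ∣ Nat.gcd n (Mz z p0) := Nat.dvd_gcd hpn h1
    rw [h] at h2
    exact hp.one_lt.ne' (Nat.dvd_one.1 h2)
  · intro h
    rw [Mz]
    apply Nat.Coprime.prod_right
    intro p hp
    rw [Finset.mem_filter, Finset.mem_range] at hp
    exact ((hp.2.1.coprime_iff_not_dvd).2 (h p hp.2.1 hp.1 hp.2.2)).symm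

lemma noSmall_iff {z n : ℕ} : NoSmall z n ↔ ∀ p : ℕ, p.Prime → p < z → ¬ p ∣ n := by
  constructor
  · intro h p hp hz hpn
    exact absurd (h p hp hpn) (by omega)
  · intro h p hp hpn
    by_contra hz
    exact h p hp (by omega) hpn

/-- one step -/
lemma step {z p0 : ℕ} (hp0 : p0.Prime) (a e : ℕ) :
    (R z p0 a e : ℝ) ≤ ∑ n ∈ Finset.Ioc a e, r z n + R z p0 (a / p0) (e / p0) := by
  classical
  have hp0' : 0 < p0 := hp0.pos
  have h1 : (Finset.Ioc a e).filter (fun n => n.Coprime (Mz z p0)) ⊆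
      (Finset.Ioc a e).filter (fun n => NoSmall z n) ∪
        ((Finset.Ioc (a / p0) (e / p0)).filter (fun n => n.Coprime (Mz z p0))).image
          (fun m => p0 * m) := by
    intro n hn
    rw [Finset.mem_filter, Finset.mem_Ioc] at hn
    rw [Finset.mem_union]
    by_cases hd : p0 ∣ n
    · right
      obtain ⟨m, rfl⟩ := hd
      rw [Finset.mem_image]
      refine ⟨m, Finset.mem_filter.2 ⟨Finset.mem_Ioc.2 ⟨?_, ?_⟩, ?_⟩, rfl⟩
      · exact (Nat.div_lt_iff_lt_mul hp0').2 (by rw [mul_comm]; exact hn.1.1)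
      · exact (Nat.le_div_iff_mul_le hp0').2 (by rw [mul_comm]; exact hn.1.2)
      · exact Nat.Coprime.coprime_mul_left hn.2
    · left
      refine Finset.mem_filter.2 ⟨Finset.mem_Ioc.2 hn.1, noSmall_iff.2 fun p hp hz hpn => ?_⟩
      by_cases h : p = p0
      · rw [h] at hpn
        exact hd hpn
      · exact (coprime_iff.1 hn.2) p hp hz h hpn
  have h2 : R z p0 a e ≤ ((Finset.Ioc a e).filter (fun n => NoSmall z n)).card +
      R z p0 (a / p0) (e / p0) := by
    refine (Finset.card_le_card h1).trans ((Finset.card_union_le _ _).trans ?_)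
    exact Nat.add_le_add_left Finset.card_image_le _
  have h3 : (((Finset.Ioc a e).filter (fun n => NoSmall z n)).card : ℝ) =
      ∑ n ∈ Finset.Ioc a e, r z n := by
    rw [Finset.card_filter]
    push_cast
    refine Finset.sum_congr rfl fun n _ => ?_
    unfold r Gra.r
    by_cases h : NoSmall z n
    · simp only [if_pos h]
    · simp only [if_neg h]
  rw [← h3]
  exact_mod_cast h2

lemma R_le (z p0 a e : ℕ) : R z p0 a e ≤ e - a := by
  refine (Finset.card_filter_le _ _).trans ?_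
  rw [Nat.card_Ioc]

/-- `J` steps -/
lemma steps {z p0 : ℕ} (hp0 : p0.Prime) (a e : ℕ) (J : ℕ) :
    (R z p0 a e : ℝ) ≤ ∑ j ∈ Finset.range J, ∑ n ∈ Finset.Ioc (a / p0 ^ j) (e / p0 ^ j), r z n +
      R z p0 (a / p0 ^ J) (e / p0 ^ J) := by
  induction J with
  | zero => simp
  | succ J ih =>
    have h := step (z := z) hp0 (a / p0 ^ J) (e / p0 ^ J)
    rw [Nat.div_div_eq_div_mul, Nat.div_div_eq_div_mul, ← pow_succ] at h
    rw [Finset.sum_range_succ]
    linarith

lemma div_sub_le (a L d : ℕ) (hd : 0 < d) : (((a + L) / d : ℕ) : ℝ) - ((a / d : ℕ) : ℝ) ≤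
    (L : ℝ) / d + 1 := by
  have hd' : (0 : ℝ) < d := by exact_mod_cast hd
  have h1 : (((a + L) / d : ℕ) : ℝ) ≤ ((a + L : ℕ) : ℝ) / d := Nat.cast_div_le
  have h2 : (a : ℝ) / d < ((a / d : ℕ) : ℝ) + 1 := by
    rw [div_lt_iff₀ hd']
    have := Nat.lt_div_mul_add (a := a) hd
    have h3 : a < (a / d + 1) * d := by
      rw [add_mul, one_mul]
      exact this
    exact_mod_cast h3
  have h3 : ((a + L : ℕ) : ℝ) / d = (a : ℝ) / d + L / d := by
    push_cast
    ring
  linarith

end DRPM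

open DRPM in
theorem specDRP : SpecDRP := by
  classical
  obtain ⟨C, hC, hint⟩ := Gra.interval
  refine ⟨2 * (1 + C) + 5 * (1 + 2 * C), by positivity, ?_⟩
  intro z p0 a L hz hp0 hL
  have hz2 : (2 : ℝ) ≤ z := by exact_mod_cast hz
  have hV : 0 < V z := Gra.V_pos z hz
  have hp00 : (0 : ℝ) < p0 := by exact_mod_cast hp0.pos
  have hp02 : (2 : ℝ) ≤ p0 := by exact_mod_cast hp0.two_le
  have hL0 : (0 : ℝ) ≤ L := Nat.cast_nonneg _
  show (R z p0 a (a + L) : ℝ) ≤ _
  by_cases hpz : z ≤ p0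
  · -- nothing is dropped
    have h1 : (R z p0 a (a + L) : ℝ) = ∑ n ∈ Finset.Ioc a (a + L), r z n := by
      unfold R
      rw [Finset.card_filter]
      push_cast
      refine Finset.sum_congr rfl fun n _ => ?_
      have h2 : n.Coprime (Mz z p0) ↔ NoSmall z n := by
        rw [coprime_iff, noSmall_iff]
        constructor
        · intro h p hp hz'
          exact h p hp hz' (by omega)
        · intro h p hp hz' _
          exact h p hp hz'
      unfold r Gra.r
      by_cases h : NoSmall z n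
      · rw [if_pos h, if_pos (h2.2 h)]
      · rw [if_neg h, if_neg (fun h' => h (h2.1 h'))]
    rw [h1]
    have : 0 ≤ (2 * (1 + C) + 5 * (1 + 2 * C)) * V z * L / p0 := by positivity
    linarith
  · have hpz' : (p0 : ℝ) ≤ z := by
      have : p0 ≤ z := by omega
      exact_mod_cast this
    -- the number of steps
    set J := Nat.clog 2 L + 1 with hJ
    have hJ1 : L ≤ 2 ^ J := (Nat.le_pow_clog (by norm_num) L).trans
      (Nat.pow_le_pow_right (by norm_num) (by omega))
    have hst := steps (z := z) hp0 a (a + L) J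
    have hlast : (R z p0 (a / p0 ^ J) ((a + L) / p0 ^ J) : ℝ) ≤ 2 := by
      have h1 : (R z p0 (a / p0 ^ J) ((a + L) / p0 ^ J) : ℝ) ≤
          (((a + L) / p0 ^ J - a / p0 ^ J : ℕ) : ℝ) := by
        exact_mod_cast R_le _ _ _ _
      have h2 : (((a + L) / p0 ^ J - a / p0 ^ J : ℕ) : ℝ) =
          (((a + L) / p0 ^ J : ℕ) : ℝ) - ((a / p0 ^ J : ℕ) : ℝ) :=
        Nat.cast_sub (Nat.div_le_div_right (Nat.le_add_right _ _))
      have h3 := div_sub_le a L (p0 ^ J) (pow_pos hp0.pos _)
      have h4 : (L : ℝ) / ((p0 ^ J : ℕ) : ℝ) ≤ 1 := by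
        rw [div_le_one (by exact_mod_cast pow_pos hp0.pos _)]
        have : L ≤ p0 ^ J := hJ1.trans (Nat.pow_le_pow_left hp0.two_le _)
        exact_mod_cast this
      rw [h2] at h1
      linarith
    -- the terms
    have hterm : ∀ j : ℕ, ∑ n ∈ Finset.Ioc (a / p0 ^ j) ((a + L) / p0 ^ j), r z n ≤
        (1 + C) * (L / (p0 : ℝ) ^ j) * V z + ((1 + C) + C * (z : ℝ) ^ 17) := by
      intro j
      have h1 := hint 0 z (a / p0 ^ j) ((a + L) / p0 ^ j) hz
        (Nat.div_le_div_right (Nat.le_add_right _ _))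
      have h2 := div_sub_le a L (p0 ^ j) (pow_pos hp0.pos _)
      have h3 : 0 ≤ (((a + L) / p0 ^ j : ℕ) : ℝ) - ((a / p0 ^ j : ℕ) : ℝ) := by
        have : a / p0 ^ j ≤ (a + L) / p0 ^ j := Nat.div_le_div_right (Nat.le_add_right _ _)
        have h4 : ((a / p0 ^ j : ℕ) : ℝ) ≤ (((a + L) / p0 ^ j : ℕ) : ℝ) := by exact_mod_cast this
        linarith
      rw [Nat.cast_zero, neg_zero, Real.exp_zero, mul_one] at h1
      have h5 := (abs_le.1 h1).2
      have h6 : V z ≤ 1 := by
        unfold V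
        apply Finset.prod_le_one
        · intro p hp
          have hp' : p.Prime := (Finset.mem_filter.1 hp).2
          have : (1 : ℝ) ≤ p := by exact_mod_cast hp'.one_lt.le
          rw [sub_nonneg, div_le_one (by linarith)]
          exact this
        · intro p hp
          have hp' : p.Prime := (Finset.mem_filter.1 hp).2
          have : (0 : ℝ) < p := by exact_mod_cast hp'.pos
          have : 0 ≤ 1 / (p : ℝ) := by positivity
          linarith
      push_cast at h2 h5 h3 ⊢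
      have h7 : ∑ n ∈ Finset.Ioc (a / p0 ^ j) ((a + L) / p0 ^ j), r z n ≤
          (1 + C) * ((((a + L) / p0 ^ j : ℕ) : ℝ) - ((a / p0 ^ j : ℕ) : ℝ)) * V z +
            C * (z : ℝ) ^ 17 := by
        have h8 : (z : ℝ) ^ (8 * 0 + 17) = (z : ℝ) ^ 17 := by norm_num
        rw [h8] at h5
        unfold r
        linarith
      have h8 : (1 + C) * ((((a + L) / p0 ^ j : ℕ) : ℝ) - ((a / p0 ^ j : ℕ) : ℝ)) * V z ≤
          (1 + C) * (L / (p0 : ℝ) ^ j + 1) * V z := by
        apply mul_le_mul_of_nonneg_right _ hV.le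
        apply mul_le_mul_of_nonneg_left _ (by positivity)
        exact h2
      have h9 : (1 + C) * (L / (p0 : ℝ) ^ j + 1) * V z ≤
          (1 + C) * (L / (p0 : ℝ) ^ j) * V z + (1 + C) := by
        have : (1 + C) * V z ≤ (1 + C) * 1 := mul_le_mul_of_nonneg_left h6 (by positivity)
        nlinarith
      linarith
    -- the geometric sum
    have hgeo : ∀ J : ℕ, ∑ j ∈ Finset.range J, 1 / (p0 : ℝ) ^ (j + 1) ≤ 2 / p0 := by
      intro J
      have h1 : ∀ J : ℕ, ∑ j ∈ Finset.range J, 1 / (p0 : ℝ) ^ (j + 1) ≤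
          2 / p0 - 2 * (1 / (p0 : ℝ) ^ (J + 1)) := by
        intro J
        induction J with
        | zero =>
          rw [Finset.range_zero, Finset.sum_empty, zero_add, pow_one, mul_one_div, sub_self]
        | succ J ih =>
          rw [Finset.sum_range_succ]
          have h2 : 2 * (1 / (p0 : ℝ) ^ (J + 1 + 1)) ≤ 1 / (p0 : ℝ) ^ (J + 1) := by
            rw [pow_succ (p0 : ℝ) (J + 1), mul_one_div, div_le_div_iff₀ (by positivity)
              (by positivity)]
            have h3 : 0 < (p0 : ℝ) ^ (J + 1) := by positivity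
            nlinarith
          linarith
      have h2 : 0 ≤ 1 / (p0 : ℝ) ^ (J + 1) := by positivity
      linarith [h1 J]
    obtain ⟨J', hJ'⟩ : ∃ J', J = J' + 1 := ⟨Nat.clog 2 L, hJ⟩
    have hsum : ∑ j ∈ Finset.range J, ∑ n ∈ Finset.Ioc (a / p0 ^ j) ((a + L) / p0 ^ j), r z n ≤
        ∑ n ∈ Finset.Ioc a (a + L), r z n + (1 + C) * L * V z * (2 / p0) +
          J' * ((1 + C) + C * (z : ℝ) ^ 17) := by
      rw [hJ', Finset.sum_range_succ', pow_zero, Nat.div_one, Nat.div_one]
      have h1 : ∑ j ∈ Finset.range J', ∑ n ∈ Finset.Ioc (a / p0 ^ (j + 1)) ((a + L) / p0 ^ (j + 1)),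
          r z n ≤ ∑ j ∈ Finset.range J', ((1 + C) * L * V z * (1 / (p0 : ℝ) ^ (j + 1)) +
            ((1 + C) + C * (z : ℝ) ^ 17)) := by
        apply Finset.sum_le_sum
        intro j _
        refine (hterm (j + 1)).trans (le_of_eq ?_)
        ring
      rw [Finset.sum_add_distrib, ← Finset.mul_sum, Finset.sum_const, Finset.card_range,
        nsmul_eq_mul] at h1
      have h2 : (1 + C) * L * V z * ∑ j ∈ Finset.range J', 1 / (p0 : ℝ) ^ (j + 1) ≤
          (1 + C) * L * V z * (2 / p0) :=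
        mul_le_mul_of_nonneg_left (hgeo J') (by positivity)
      linarith
    -- the error terms
    have hJL : (J' : ℝ) ≤ 2 * Real.sqrt L := by
      have h1 : J' = Nat.clog 2 L := by omega
      have hLpos : 0 < L := by
        have : (0 : ℝ) < L := lt_of_lt_of_le (by positivity) hL
        exact_mod_cast this
      have h2 : 2 ≤ L := by
        have h3 : (2 : ℝ) ≤ L := by
          refine le_trans ?_ hL
          calc (2 : ℝ) ≤ 2 ^ 40 := by norm_num
            _ ≤ (z : ℝ) ^ 40 := pow_le_pow_left₀ (by norm_num) hz2 40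
        exact_mod_cast h3
      -- 2 ^ (J' - 1) < L
      have h3 : 2 ^ (J' - 1) < L := by
        rw [h1]
        exact Nat.pow_pred_clog_lt_self (by norm_num) (by omega)
      have h4 : ∀ m : ℕ, (m + 1) ^ 2 ≤ 4 * 2 ^ m := by
        intro m
        induction m with
        | zero => norm_num
        | succ m ih =>
          rw [pow_succ 2 m]
          rcases Nat.lt_or_ge m 2 with hm | hm
          · interval_cases m <;> norm_num
          · have h5 : (m + 1 + 1) ^ 2 ≤ 2 * (m + 1) ^ 2 := by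
              have h6 := Nat.mul_le_mul hm hm
              nlinarith
            calc (m + 1 + 1) ^ 2 ≤ 2 * (m + 1) ^ 2 := h5
              _ ≤ 2 * (4 * 2 ^ m) := Nat.mul_le_mul_left 2 ih
              _ = 4 * (2 ^ m * 2) := by ring
      have h5 : J' ^ 2 ≤ 4 * L := by
        rcases Nat.eq_zero_or_pos J' with h0 | h0
        · rw [h0]; omega
        · have h6 := h4 (J' - 1)
          have h7 : J' - 1 + 1 = J' := by omega
          rw [h7] at h6
          omega
      have h8 : (J' : ℝ) ^ 2 ≤ (2 * Real.sqrt L) ^ 2 := by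
        rw [mul_pow, Real.sq_sqrt hL0]
        have : ((J' ^ 2 : ℕ) : ℝ) ≤ ((4 * L : ℕ) : ℝ) := by exact_mod_cast h5
        push_cast at this
        linarith
      exact le_of_sq_le_sq h8 (by positivity)
    have hz20 : (z : ℝ) ^ 20 ≤ Real.sqrt L := by
      apply Real.le_sqrt_of_sq_le
      calc ((z : ℝ) ^ 20) ^ 2 = (z : ℝ) ^ 40 := by ring
        _ ≤ (L : ℝ) := hL
    have hVL : (L : ℝ) / (z : ℝ) ^ 2 ≤ V z * L / p0 := by
      have h1 : 1 / (z : ℝ) ≤ V z := by
        have h2 := Gra.V_inv_le z hz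
        rw [inv_le_comm₀ hV (by linarith)] at h2
        rw [one_div]
        exact h2
      rw [div_le_div_iff₀ (by positivity) hp00]
      calc (L : ℝ) * p0 ≤ L * z := mul_le_mul_of_nonneg_left hpz' hL0
        _ = (1 / z * L) * (z : ℝ) ^ 2 := by field_simp
        _ ≤ (V z * L) * (z : ℝ) ^ 2 := by
          apply mul_le_mul_of_nonneg_right _ (by positivity)
          exact mul_le_mul_of_nonneg_right h1 hL0
    have herr : (J' : ℝ) * ((1 + C) + C * (z : ℝ) ^ 17) + 2 ≤
        (5 * (1 + 2 * C)) * (L / (z : ℝ) ^ 2) := by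
      have h1 : (1 : ℝ) ≤ z := by linarith
      have h2 : (1 + C) + C * (z : ℝ) ^ 17 ≤ (1 + 2 * C) * (z : ℝ) ^ 17 := by
        have : (1 : ℝ) ≤ (z : ℝ) ^ 17 := one_le_pow₀ h1
        nlinarith
      have h3 : (J' : ℝ) * ((1 + C) + C * (z : ℝ) ^ 17) ≤
          2 * Real.sqrt L * ((1 + 2 * C) * (z : ℝ) ^ 17) :=
        mul_le_mul hJL h2 (by positivity) (by positivity)
      have h4 : (z : ℝ) ^ 17 ≤ Real.sqrt L / (z : ℝ) ^ 3 := by
        rw [le_div_iff₀ (by positivity)]
        calc (z : ℝ) ^ 17 * (z : ℝ) ^ 3 = (z : ℝ) ^ 20 := by ring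
          _ ≤ _ := hz20
      have hss : Real.sqrt L * Real.sqrt L = L := Real.mul_self_sqrt hL0
      have h5 : 2 * Real.sqrt L * ((1 + 2 * C) * (z : ℝ) ^ 17) ≤
          2 * (1 + 2 * C) * (L / (z : ℝ) ^ 3) := by
        calc 2 * Real.sqrt L * ((1 + 2 * C) * (z : ℝ) ^ 17) ≤
              2 * Real.sqrt L * ((1 + 2 * C) * (Real.sqrt L / (z : ℝ) ^ 3)) := by
              apply mul_le_mul_of_nonneg_left _ (by positivity)
              exact mul_le_mul_of_nonneg_left h4 (by positivity)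
          _ = 2 * (1 + 2 * C) * ((Real.sqrt L * Real.sqrt L) / (z : ℝ) ^ 3) := by ring
          _ = _ := by rw [hss]
      have h6 : (L : ℝ) / (z : ℝ) ^ 3 ≤ L / (z : ℝ) ^ 2 :=
        div_le_div_of_nonneg_left hL0 (by positivity) (pow_le_pow_right₀ h1 (by norm_num))
      have h7 : (1 : ℝ) ≤ L / (z : ℝ) ^ 2 := by
        rw [one_le_div (by positivity)]
        exact (pow_le_pow_right₀ h1 (by norm_num)).trans hL
      have h8 : 0 ≤ 2 * (1 + 2 * C) := by positivity
      have h9 : 2 * (1 + 2 * C) * ((L : ℝ) / (z : ℝ) ^ 3) ≤ 2 * (1 + 2 * C) * (L / (z : ℝ) ^ 2) :=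
        mul_le_mul_of_nonneg_left h6 h8
      nlinarith
    have hfin : (5 * (1 + 2 * C)) * ((L : ℝ) / (z : ℝ) ^ 2) ≤
        (5 * (1 + 2 * C)) * (V z * L / p0) :=
      mul_le_mul_of_nonneg_left hVL (by positivity)
    have e1 : (2 * (1 + C) + 5 * (1 + 2 * C)) * V z * L / p0 =
        (1 + C) * L * V z * (2 / p0) + (5 * (1 + 2 * C)) * (V z * L / p0) := by
      field_simp
    rw [e1]
    linarith

end Pool.Agent.Lib.MP_926cc3_nt.PP
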