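import Pool.Agent.Lib.MP_926cc3_nt.PP.Spec

/-!
# MP_926cc3_nt, project PP: module DSN (the numerical lemma of DSP)
-/

set_option autoImplicit false

open Filter Topology MeasureTheory ProbabilityTheory

namespace Pool.Agent.Lib.MP_926cc3_nt.PP

namespace DSNM

theorem tlog : Tendsto (fun x : ℕ => Real.log x) atTop atTop :=
  Real.tendsto_log_atTop.comp tendsto_natCast_atTop_atTop

/-- the number `δ` -/
theorem exd {kap C β : ℝ} (hk : 0 < kap) (hC : 0 < C) (h : kap * C < β) :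
    ∃ δ : ℝ, 0 < δ ∧ δ ≤ 1 / 2 ∧ kap * C * (1 + 2 * δ) ≤ β * (1 - δ) := by
  have h0 : 0 < kap * C := mul_pos hk hC
  have hβ : 0 < β := h0.trans h
  refine ⟨min (1 / 2) ((β - kap * C) / (2 * (kap * C) + β)), ?_, min_le_left _ _, ?_⟩
  · refine lt_min (by norm_num) (div_pos (by linarith) (by linarith))
  · have h1 : min (1 / 2) ((β - kap * C) / (2 * (kap * C) + β)) ≤
      (β - kap * C) / (2 * (kap * C) + β) := min_le_right _ _
    set δ := min (1 / 2) ((β - kap * C) / (2 * (kap * C) + β))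
    rw [le_div_iff₀ (by linarith)] at h1
    nlinarith

/-- the power -/
theorem power {u δ kap L β C l x : ℝ} {N : ℕ} (hl : 0 < l) (hx : 0 < x) (hlx : l = Real.log x)
    (hu0 : 0 ≤ u) (hu : u ≤ δ) (hδ : δ ≤ 1 / 2) (hk : 0 < kap)
    (hLu : L * u ≤ (1 + 2 * δ) * (C * l ^ 2)) (hδβ : kap * C * (1 + 2 * δ) ≤ β * (1 - δ))
    (hN : (N : ℝ) ≤ kap * L / l) : x ^ (-β) ≤ (1 - u) ^ N := by
  have h1 : 0 < 1 - u := by linarith
  have h2 : -(u / (1 - δ)) ≤ Real.log (1 - u) := by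
    have e1 := Real.one_sub_inv_le_log_of_pos h1
    have e2 : 1 - (1 - u)⁻¹ = -(u / (1 - u)) := by
      field_simp
      ring
    rw [e2] at e1
    refine le_trans (neg_le_neg ?_) e1
    exact div_le_div_of_nonneg_left hu0 (by linarith) (by linarith)
  have h3 : (N : ℝ) * u ≤ kap * C * (1 + 2 * δ) * l := by
    calc (N : ℝ) * u ≤ kap * L / l * u := mul_le_mul_of_nonneg_right hN hu0
      _ = kap * (L * u) / l := by ring
      _ ≤ kap * ((1 + 2 * δ) * (C * l ^ 2)) / l :=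
        div_le_div_of_nonneg_right (mul_le_mul_of_nonneg_left hLu hk.le) hl.le
      _ = kap * C * (1 + 2 * δ) * l := by
        field_simp
  have h4 : (N : ℝ) * (u / (1 - δ)) ≤ β * l := by
    have e1 : 0 < 1 - δ := by linarith
    rw [← mul_div_assoc, div_le_iff₀ e1]
    calc (N : ℝ) * u ≤ kap * C * (1 + 2 * δ) * l := h3
      _ ≤ β * (1 - δ) * l := mul_le_mul_of_nonneg_right hδβ hl.le
      _ = β * l * (1 - δ) := by ring
  have h5 : -(β * l) ≤ N * Real.log (1 - u) := by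
    have := mul_le_mul_of_nonneg_left h2 (Nat.cast_nonneg (α := ℝ) N)
    linarith
  rw [Real.rpow_def_of_pos hx, ← hlx, ← Real.exp_log (pow_pos h1 N), Real.log_pow]
  refine Real.exp_le_exp.2 ?_
  linarith

end DSNM

open DSNM in
theorem specDSN : SpecDSN := by
  intro a A A' kap C ha hAA hA' hk hC hkC
  set β : ℝ := (1 + kap * C) / 2 with hβ
  have h0 : 0 < kap * C := mul_pos hk hC
  obtain ⟨δ, hδ0, hδ1, hδ⟩ := exd hk hC (β := β) (by rw [hβ]; linarith)
  set B : ℝ := max 1 (C / δ) with hB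
  have hB1 : 1 ≤ B := le_max_left _ _
  have hB2 : C ≤ B * δ := by
    have := le_max_right 1 (C / δ)
    rwa [div_le_iff₀ hδ0] at this
  refine ⟨B, β, by linarith, by rw [hβ]; linarith, by rw [hβ]; linarith, ?_⟩
  intro h h1 hmono hlow hup hratio
  set A1 : ℝ := max A 0 with hA1
  have hA1' : A1 < A' := max_lt hAA (by linarith)
  have hA10 : 0 ≤ A1 := le_max_right _ _
  have e1 : ∀ᶠ y : ℝ in atTop, 2 * 2 ^ A1 ≤ y ^ (A' - A1) :=
    (tendsto_rpow_atTop (by linarith)).eventually_ge_atTop _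
  have e2 : ∀ᶠ y : ℝ in atTop, 2 * C ≤ y ^ (A' - 2) :=
    (tendsto_rpow_atTop (by linarith)).eventually_ge_atTop _
  have e3 : ∀ᶠ y : ℝ in atTop, (1 : ℝ) ≤ y := eventually_ge_atTop _
  have e4 : ∀ᶠ n : ℕ in atTop, (h (2 * n) : ℝ) / h n ≤ 1 + δ := by
    have := hratio.eventually (ge_mem_nhds (show (1 : ℝ) < 1 + δ by linarith))
    exact this
  have t2 : Tendsto (fun n : ℕ => 2 * n) atTop atTop :=
    tendsto_id.const_mul_atTop' (by norm_num)
  filter_upwards [hlow, t2.eventually hup, e4, tlog.eventually e1, tlog.eventually e2,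
    tlog.eventually e3, eventually_ge_atTop 2] with x x1 x2 x3 x4 x5 x6 x7
  set l : ℝ := Real.log x with hl
  have hl0 : 0 < l := by linarith
  have hx0 : (0 : ℝ) < x := by
    have : (2 : ℝ) ≤ x := by exact_mod_cast x7
    linarith
  have hhx : (1 : ℝ) ≤ h x := by exact_mod_cast h1 x
  have hh2 : (h x : ℝ) ≤ h (2 * x) := by exact_mod_cast hmono (by omega)
  set g : ℕ := ⌊C * l ^ 2⌋₊ with hg
  have hgle : (g : ℝ) ≤ C * l ^ 2 := Nat.floor_le (by positivity)
  have hg0 : (0 : ℝ) ≤ g := Nat.cast_nonneg _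
  have hu : (g : ℝ) / h x ≤ δ := by
    rw [div_le_iff₀ (by linarith)]
    calc (g : ℝ) ≤ C * l ^ 2 := hgle
      _ ≤ B * δ * l ^ 2 := mul_le_mul_of_nonneg_right hB2 (by positivity)
      _ = δ * (B * l ^ 2) := by ring
      _ ≤ δ * h x := mul_le_mul_of_nonneg_left x1 hδ0.le
  refine ⟨?_, ?_, by linarith, ?_⟩
  · push_cast
    calc l ^ a ≤ l ^ (2 : ℝ) := Real.rpow_le_rpow_of_exponent_le x6 ha.le
      _ = l ^ 2 := Real.rpow_two l
      _ ≤ B * l ^ 2 := by nlinarith [sq_nonneg l]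
      _ ≤ h x := x1
      _ ≤ (h (2 * x) : ℝ) + g := by linarith
  · push_cast
    have k1 : Real.log ((2 * x : ℕ) : ℝ) ≤ 2 * l := by
      rw [Nat.cast_mul, Real.log_mul (by norm_num) hx0.ne', Nat.cast_ofNat]
      have := Real.log_le_log (by norm_num) (show (2 : ℝ) ≤ x by exact_mod_cast x7)
      linarith
    have k2 : 1 ≤ Real.log ((2 * x : ℕ) : ℝ) := by
      refine x6.trans (Real.log_le_log hx0 ?_)
      push_cast
      linarith
    have k3 : (h (2 * x) : ℝ) ≤ 2 ^ A1 * l ^ A1 := by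
      calc (h (2 * x) : ℝ) ≤ Real.log ((2 * x : ℕ) : ℝ) ^ A := x2
        _ ≤ Real.log ((2 * x : ℕ) : ℝ) ^ A1 :=
          Real.rpow_le_rpow_of_exponent_le k2 (le_max_left _ _)
        _ ≤ (2 * l) ^ A1 := Real.rpow_le_rpow (by linarith) k1 hA10
        _ = 2 ^ A1 * l ^ A1 := Real.mul_rpow (by norm_num) hl0.le
    have k4 : 2 * 2 ^ A1 * l ^ A1 ≤ l ^ A' := by
      calc 2 * 2 ^ A1 * l ^ A1 ≤ l ^ (A' - A1) * l ^ A1 :=
            mul_le_mul_of_nonneg_right x4 (by positivity)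
        _ = l ^ A' := by rw [← Real.rpow_add hl0, sub_add_cancel]
    have k5 : 2 * C * l ^ 2 ≤ l ^ A' := by
      calc 2 * C * l ^ 2 ≤ l ^ (A' - 2) * l ^ 2 :=
            mul_le_mul_of_nonneg_right x5 (by positivity)
        _ = l ^ A' := by
            rw [← Real.rpow_two, ← Real.rpow_add hl0, sub_add_cancel]
    nlinarith
  · intro N hN
    refine power (C := C) hl0 hx0 hl (by positivity) hu hδ1 hk ?_ hδ hN
    push_cast
    have k1 : ((h (2 * x) : ℝ) + g) / h x ≤ 1 + 2 * δ := by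
      rw [add_div]
      linarith
    calc ((h (2 * x) : ℝ) + g) * (g / h x) = ((h (2 * x) : ℝ) + g) / h x * g := by ring
      _ ≤ (1 + 2 * δ) * g := mul_le_mul_of_nonneg_right k1 hg0
      _ ≤ (1 + 2 * δ) * (C * l ^ 2) := mul_le_mul_of_nonneg_left hgle (by linarith)

end Pool.Agent.Lib.MP_926cc3_nt.PP
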