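import Pool.Agent.Lib.MP_926cc3_nt.PP.Spec

/-!
# MP_926cc3_nt, project PP: module DSP (random displacement of the primes)
-/

set_option autoImplicit false

open Filter Topology MeasureTheory ProbabilityTheory

namespace Pool.Agent.Lib.MP_926cc3_nt.PP

open Pool.Agent.Lib.MP_926cc3_nt.RS Pool.Agent.Lib.MP_926cc3_nt.TH

universe u

namespace DSPM

theorem tlog : Tendsto (fun x : ℕ => Real.log x) atTop atTop :=
  Real.tendsto_log_atTop.comp tendsto_natCast_atTop_atTop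

/-- the probability that a window is empty, from below -/
theorem prod_ge {W : Finset ℕ} {P : ℕ → ℝ} {u : ℝ} (hu : u ≤ 1)
    (hP : ∀ n ∈ W, P n ≤ if n.Prime then u else 0) :
    (1 - u) ^ (W.filter Nat.Prime).card ≤ ∏ n ∈ W, (1 - P n) := by
  have h1 : (1 - u) ^ (W.filter Nat.Prime).card = ∏ n ∈ W, (if n.Prime then 1 - u else 1) := by
    rw [Finset.prod_ite, Finset.prod_const, Finset.prod_const_one, mul_one]
  rw [h1]
  refine Finset.prod_le_prod (fun n _ => ?_) (fun n hn => ?_)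
  · split_ifs
    · linarith
    · exact zero_le_one
  · have := hP n hn
    split_ifs with hpr
    · rw [if_pos hpr] at this
      linarith
    · rw [if_neg hpr] at this
      linarith

/-- the properties of the index set of the windows -/
def Q (kap β' : ℝ) (L : ℕ) (x : ℕ) (I : Finset ℕ) : Prop :=
  (x : ℝ) ^ β' ≤ I.card ∧ (∀ s ∈ I, x ≤ s ∧ s + L ≤ 2 * x) ∧
    (∀ s ∈ I, ∀ s' ∈ I, s ≠ s' → Disjoint (Finset.Ioc s (s + L)) (Finset.Ioc s' (s' + L))) ∧
    ∀ s ∈ I, (((Finset.Ioc s (s + L)).filter Nat.Prime).card : ℝ) ≤ kap * L / Real.log x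

theorem exI (kap β' : ℝ) (L : ℕ → ℕ) : ∃ I : ℕ → Finset ℕ, ∀ x,
    (∀ s ∈ I x, ∀ s' ∈ I x, s ≠ s' →
      Disjoint (Finset.Ioc s (s + L x)) (Finset.Ioc s' (s' + L x))) ∧
    ((∃ J, Q kap β' (L x) x J) → Q kap β' (L x) x (I x)) := by
  classical
  have h : ∀ x, ∃ I : Finset ℕ, (∀ s ∈ I, ∀ s' ∈ I, s ≠ s' →
      Disjoint (Finset.Ioc s (s + L x)) (Finset.Ioc s' (s' + L x))) ∧
    ((∃ J, Q kap β' (L x) x J) → Q kap β' (L x) x I) := by
    intro x
    by_cases hx : ∃ J, Q kap β' (L x) x J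
    · obtain ⟨J, hJ⟩ := hx
      exact ⟨J, hJ.2.2.1, fun _ => hJ⟩
    · exact ⟨∅, by simp, fun h => absurd h hx⟩
  choose I hI using h
  exact ⟨I, hI⟩

end DSPM

open DSPM in
theorem specDSP (hBC : SpecBC.{u}) (hDET : SpecDET) (hPRM : SpecPRM) (hUNI : SpecUNI.{u})
    (hEXD : SpecEXD.{u}) (hDSN : SpecDSN) : SpecDSP.{u} := by
  intro a A A' kap κ ha hAA hA' hkap hκ hkκ hDef
  set C : ℝ := (1 / κ ^ 2 + 1 / kap) / 2 with hC
  have hk2 : 0 < κ ^ 2 := by positivity
  have hinv : 1 / κ ^ 2 < 1 / kap := one_div_lt_one_div_of_lt hkap hkκ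
  have hC1 : 1 / κ ^ 2 < C := by rw [hC]; linarith
  have hC2 : C < 1 / kap := by rw [hC]; linarith
  have hC0 : 0 < C := lt_trans (by positivity) hC1
  have hkC : kap * C < 1 := by
    rw [lt_div_iff₀ hkap] at hC2
    linarith
  have hCκ : 1 / Real.sqrt C < κ := by
    have h1 : 1 / κ < Real.sqrt C := by
      refine Real.lt_sqrt_of_sq_lt ?_
      rwa [one_div, inv_pow, ← one_div]
    have h2 : 0 < Real.sqrt C := Real.sqrt_pos.2 hC0
    rw [div_lt_iff₀ h2]
    rw [div_lt_iff₀ hκ] at h1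
    linarith
  obtain ⟨B, β, hB, hβ0, hβ1, hnum⟩ := hDSN a A A' kap C ha hAA hA' hkap hC0 hkC
  refine ⟨B, hB, ?_⟩
  intro h hmono hlow hup hratio Ω mΩ μ hμ ξ hind hunif
  obtain ⟨hU1, hU2, hU3⟩ := hUNI Ω mΩ μ hμ h ξ hunif
  have hnum' := hnum h hU2 hmono hlow hup hratio
  set β' : ℝ := (1 + β) / 2 with hβ'
  have hD := hDef (1 - β') (by rw [hβ']; linarith)
  have hββ : 1 - (1 - β') = β' := by ring
  rw [hββ] at hD
  let L : ℕ → ℕ := fun x => h (2 * x) + ⌊C * Real.log x ^ 2⌋₊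
  obtain ⟨I, hI⟩ := exI kap β' L
  have hE := fun x => hEXD Ω mΩ μ hμ ξ (fun n => (hunif n).1) hind (I x) (h (2 * x)) (L x)
    (hI x).1
  choose E hEm hEi hEW using hE
  -- the windows of a large `x`
  have hQ : ∀ᶠ x : ℕ in atTop, Q kap β' (L x) x (I x) := by
    filter_upwards [hD, hnum'] with x hx1 hx2
    exact (hI x).2 (hx1 (L x) hx2.1 hx2.2.1)
  have hbc := hBC Ω mΩ μ hμ E hEm hEi I (fun x s => Finset.Ioc s (s + L x)) β β' hβ0.le
    (by rw [hβ']; linarith) (by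
      filter_upwards [hQ, hnum', eventually_ge_atTop 1] with x hQx hnx hx1
      obtain ⟨q1, q2, q3, q4⟩ := hQx
      refine ⟨q3, q1, fun s hs => ?_⟩
      obtain ⟨-, -, n3, n4⟩ := hnx
      refine (n4 _ (q4 s hs)).trans ?_
      refine prod_ge n3.le (fun n hn => ?_)
      rw [hEW x s hs n hn]
      split_ifs with hpr
      · have h1 := hU3 n (s + h (2 * x)) ⌊C * Real.log x ^ 2⌋₊
        have h2 : s + h (2 * x) + ⌊C * Real.log x ^ 2⌋₊ = s + L x := by
          simp only [L]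
          ring
        rw [h2] at h1
        refine h1.trans ?_
        have h3 : (h x : ℝ) ≤ h n := by
          refine Nat.cast_le.2 (hmono ?_)
          have := (q2 s hs).1
          have := (Finset.mem_Ioc.1 hn).1
          omega
        have h4 : (1 : ℝ) ≤ h x := by exact_mod_cast hU2 x
        exact div_le_div_of_nonneg_left (Nat.cast_nonneg _) (by linarith) h3
      · rw [measureReal_empty])
  -- the elements of the set in `[2 x, 3 x]`
  have hsmall : ∀ᶠ x : ℕ in atTop, (h (3 * x) : ℝ) ≤ x / 2 := by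
    have t3 : Tendsto (fun n : ℕ => 3 * n) atTop atTop :=
      tendsto_id.const_mul_atTop' (by norm_num)
    have h1 := (isLittleO_log_rpow_rpow_atTop A (show (0 : ℝ) < 1 by norm_num)).bound
      (show (0 : ℝ) < 1 / 6 by norm_num)
    have h2 := (tendsto_natCast_atTop_atTop (R := ℝ)).eventually h1
    filter_upwards [t3.eventually hup, t3.eventually h2] with x hx1 hx2
    have h3 : ‖Real.log ((3 * x : ℕ) : ℝ) ^ A‖ ≤ 1 / 6 * ‖((3 * x : ℕ) : ℝ) ^ (1 : ℝ)‖ := hx2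
    rw [Real.rpow_one, Real.norm_of_nonneg (Nat.cast_nonneg _)] at h3
    calc (h (3 * x) : ℝ) ≤ Real.log ((3 * x : ℕ) : ℝ) ^ A := hx1
      _ ≤ ‖Real.log ((3 * x : ℕ) : ℝ) ^ A‖ := Real.le_norm_self _
      _ ≤ 1 / 6 * ((3 * x : ℕ) : ℝ) := h3
      _ = x / 2 := by
        push_cast
        ring
  have hg1 : ∀ᶠ x : ℕ in atTop, 1 ≤ ⌊C * Real.log x ^ 2⌋₊ := by
    have t1 : Tendsto (fun x : ℕ => C * Real.log x ^ 2) atTop atTop :=
      Tendsto.const_mul_atTop hC0 ((tendsto_pow_atTop (by norm_num)).comp tlog)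
    filter_upwards [t1.eventually_ge_atTop 1] with x hx
    exact (Nat.le_floor_iff (by linarith)).2 (by exact_mod_cast hx)
  filter_upwards [hbc, hU1] with ω hω hξ
  refine hDET (moved ξ ω) C κ hC0 hCκ ?_ ?_
  · filter_upwards [hPRM, hsmall, eventually_ge_atTop 1] with x hx1 hx2 hx3
    have hx4 : (1 : ℝ) ≤ x := by exact_mod_cast hx3
    have hpos : 0 < ((Finset.Ioc (2 * x) (2 * x + x / 2)).filter Nat.Prime).card := by
      have : (0 : ℝ) < ((Finset.Ioc (2 * x) (2 * x + x / 2)).filter Nat.Prime).card :=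
        lt_of_lt_of_le (Real.sqrt_pos.2 (by linarith)) hx1
      exact_mod_cast this
    obtain ⟨p, hp⟩ := Finset.card_pos.1 hpos
    rw [Finset.mem_filter, Finset.mem_Ioc] at hp
    obtain ⟨⟨hp1, hp2⟩, hp3⟩ := hp
    refine ⟨p + ξ p ω, ⟨p, hp3, rfl⟩, by omega, ?_⟩
    have h1 : h p ≤ h (3 * x) := hmono (by omega)
    have h2 := hξ p
    have h3 : ((x / 2 : ℕ) : ℝ) + h (3 * x) ≤ x := by
      have := Nat.cast_div_le (α := ℝ) (m := x) (n := 2)
      push_cast at this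
      linarith
    have h4 : x / 2 + h (3 * x) ≤ x := by exact_mod_cast h3
    omega
  · filter_upwards [hω, hQ, hg1] with x hx1 hx2 hx3
    obtain ⟨s, hs, hsn⟩ := hx1
    obtain ⟨q1, q2, q3, q4⟩ := hx2
    obtain ⟨r1, r2⟩ := q2 s hs
    have hL : L x = h (2 * x) + ⌊C * Real.log x ^ 2⌋₊ := rfl
    refine ⟨s + h (2 * x) + 1, by omega, by omega, fun n hn1 hn2 hn => ?_⟩
    obtain ⟨p, hp, rfl⟩ := hn
    have h1 : h p ≤ h (2 * x) := hmono (by omega)
    have h2 := hξ p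
    have hpW : p ∈ Finset.Ioc s (s + L x) := by
      rw [Finset.mem_Ioc]
      omega
    have h3 := hsn p hpW
    rw [hEW x s hs p hpW, if_pos hp] at h3
    refine h3 ?_
    rw [Set.mem_ofPred_eq, Finset.mem_Ioc]
    omega

end Pool.Agent.Lib.MP_926cc3_nt.PP
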