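import Pool.Agent.Lib.MP_926cc3_nt.PP.Spec

/-!
# MP_926cc3_nt, project PP: module DWW (deficient windows of primes)
-/

set_option autoImplicit false

open Filter Topology MeasureTheory ProbabilityTheory

namespace Pool.Agent.Lib.MP_926cc3_nt.PP

open Pool.Agent.Lib.MP_926cc3_nt.RS Pool.Agent.Lib.MP_926cc3_nt.TH

namespace DWWM

/-- the number of rows -/
theorem rows {x M c : ℕ} {ε : ℝ} (hM : 1 ≤ M) (hε1 : ε ≤ 1)
    (h : 2 * (M : ℝ) + c ≤ ε * x) :
    x ≤ (x / M + 1) * M + c ∧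
    ((x / M + 1) + ((2 * x - c) / M - (x / M + 1))) * M + c ≤ 2 * x ∧
    (1 - ε) * x / M ≤ (((2 * x - c) / M - (x / M + 1) : ℕ) : ℝ) := by
  have hMr : (0 : ℝ) < M := by exact_mod_cast hM
  have hx0 : (0 : ℝ) ≤ x := Nat.cast_nonneg x
  have h1 : 2 * M + c ≤ x := by
    have : (2 * (M : ℝ) + c) ≤ x := h.trans (by nlinarith)
    exact_mod_cast this
  have h2 : x < (x / M + 1) * M := by
    have := Nat.lt_div_mul_add (a := x) hM
    rw [add_mul, one_mul]; exact this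
  have h3 : x / M * M ≤ x := Nat.div_mul_le_self x M
  have h4 : (2 * x - c) / M * M ≤ 2 * x - c := Nat.div_mul_le_self _ M
  have h5 : x / M + 1 ≤ (2 * x - c) / M := by
    rw [Nat.le_div_iff_mul_le hM, add_mul, one_mul]
    omega
  refine ⟨by omega, ?_, ?_⟩
  · rw [Nat.add_sub_cancel' h5]
    omega
  · rw [Nat.cast_sub h5, Nat.cast_add, Nat.cast_one, div_le_iff₀ hMr]
    have h6 : 2 * x - c < (2 * x - c) / M * M + M := Nat.lt_div_mul_add hM
    have h7 : 2 * x < (2 * x - c) / M * M + M + c := by omega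
    have h8 : (2 * (x : ℝ)) < (((2 * x - c) / M : ℕ) : ℝ) * M + M + c := by exact_mod_cast h7
    have h9 : ((x / M : ℕ) : ℝ) * M ≤ x := by exact_mod_cast h3
    nlinarith

end DWWM

theorem specDWW (hTOT : SpecTOT) (hMAT : SpecMAT) (hMKV : SpecMKV) (hSIZ : SpecSIZ) : SpecDWW := by
  intro θ a A kap kap' hθ0 hθ1 hkap hkk hR hN
  have hkap' : 0 < kap' := hkap.trans hkk
  set ε : ℝ := (kap' - kap) / (2 * (kap + kap')) with hε
  have hε0 : 0 < ε := by rw [hε]; apply div_pos <;> linarith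
  have hεh : ε * (2 * (kap + kap')) = kap' - kap := by
    rw [hε]; field_simp
  have hε1 : ε < 1 / 2 := by
    rw [hε, div_lt_iff₀ (by linarith)]; linarith
  set c0 : ℝ := (1 - ε) - kap * (1 + ε) / kap' with hc0
  have hc0p : 0 < c0 := by
    rw [hc0, sub_pos, div_lt_iff₀ hkap']
    nlinarith
  obtain ⟨Bb, T, hR⟩ := hR
  obtain ⟨x0, hN⟩ := hN ε hε0 Bb
  intro η hη
  have hlim : ∀ᶠ x : ℕ in atTop, 1 / c0 ≤ (x : ℝ) ^ (η / 2) :=
    ((tendsto_rpow_atTop (by linarith : 0 < η / 2)).comp tendsto_natCast_atTop_atTop).eventually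
      (eventually_ge_atTop _)
  filter_upwards [hR, hSIZ θ A ε (η / 2) T hθ0 hθ1 hε0 (by linarith), hlim,
    eventually_ge_atTop x0, eventually_ge_atTop 3] with x hRx hSx hlx hx0 hx3
  intro L hL1 hL2
  obtain ⟨z, hz2, hzθ, hRz⟩ := hRx
  obtain ⟨hS1, hS2, hS3⟩ := hSx z hzθ
  obtain ⟨p0, hp0, hBp0, hcop⟩ := hN x z hx0 hz2 hzθ
  obtain ⟨hLM, c, hcT, hcount⟩ := hRz p0 hp0 hBp0 L hL1 hL2
  obtain ⟨hT1, hT2, hT3, hT4⟩ := hTOT z p0 hz2
  set M : ℕ := Mz z p0 with hM
  have hMr : (0 : ℝ) < M := by exact_mod_cast hT4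
  have hxr : (3 : ℝ) ≤ x := by exact_mod_cast hx3
  have hlog : 0 < Real.log x := Real.log_pos (by linarith)
  have hLr : (0 : ℝ) < L := lt_of_lt_of_le (Real.rpow_pos_of_pos hlog a) hL1
  have hMz4 : (M : ℝ) ≤ (4 : ℝ) ^ z := by exact_mod_cast hT3
  have hlogA : 0 ≤ Real.log x ^ A := (Real.rpow_pos_of_pos hlog A).le
  have hMc : 2 * (M : ℝ) + c ≤ ε * x := by linarith
  obtain ⟨hr1, hr2, hr3⟩ := DWWM.rows (x := x) (c := c) hT4 (by linarith) hMc
  set K1 : ℕ := x / M + 1 with hK1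
  set K : ℕ := (2 * x - c) / M - K1 with hK
  obtain ⟨hd, hin, hsum⟩ := hMAT x M c L K1 K ((1 + ε) * x / Nat.totient M) (by omega) hT4 hLM hr1
    hr2 (fun q hq hqM => by
      have h1 := ((hT1 q hq).1 hqM).1
      have h2 : z ≤ x := by exact_mod_cast hS3
      omega) hcop
  set f : ℕ → ℝ := fun k =>
    (((Finset.Ioc (k * M + c) (k * M + c + L)).filter Nat.Prime).card : ℝ) with hf
  have hφ : (0 : ℝ) < Nat.totient M := by exact_mod_cast Nat.totient_pos.2 hT4
  -- the sum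
  have hsum2 : ∑ k ∈ Finset.Ico K1 (K1 + K), f k ≤
      kap * (1 + ε) * L * x / (M * Real.log x) := by
    refine hsum.trans ?_
    calc _ ≤ (kap * L * Nat.totient M / M) * ((1 + ε) * x / Nat.totient M) / Real.log x := by
          gcongr
      _ = kap * (1 + ε) * L * x / (M * Real.log x) := by
          field_simp
  set t2 : ℝ := kap * (1 + ε) / (1 - ε) * L / Real.log x with ht2
  set t3 : ℝ := kap' * L / Real.log x with ht3
  have h1ε : 0 < 1 - ε := by linarith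
  have ht3p : 0 < t3 := by positivity
  have ht2p : 0 < t2 := by rw [ht2]; positivity
  have hcardS : ((Finset.Ico K1 (K1 + K)).card : ℝ) = K := by simp
  have hsum3 : ∑ k ∈ Finset.Ico K1 (K1 + K), f k ≤ t2 * (Finset.Ico K1 (K1 + K)).card := by
    rw [hcardS]
    refine hsum2.trans ?_
    calc kap * (1 + ε) * L * x / (M * Real.log x) = t2 * ((1 - ε) * x / M) := by
          rw [ht2]; field_simp
      _ ≤ t2 * K := mul_le_mul_of_nonneg_left hr3 ht2p.le
  have hgood := hMKV (Finset.Ico K1 (K1 + K)) f t2 t3 (fun k => Nat.cast_nonneg _) ht3p hsum3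
  rw [hcardS] at hgood
  set S : Finset ℕ := (Finset.Ico K1 (K1 + K)).filter (fun k => f k ≤ t3) with hS
  have hratio : t2 / t3 = kap * (1 + ε) / ((1 - ε) * kap') := by
    rw [ht2, ht3]; field_simp
  have hinj : Function.Injective fun k : ℕ => k * M + c := by
    intro k k' hkk'
    simp only [Nat.add_right_cancel_iff] at hkk'
    exact Nat.eq_of_mul_eq_mul_right hT4 hkk'
  refine ⟨S.image fun k => k * M + c, ?_, ?_, ?_, ?_⟩
  · rw [Finset.card_image_of_injective _ hinj]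
    refine le_trans ?_ hgood
    rw [hratio]
    have hpos : 0 < 1 - kap * (1 + ε) / ((1 - ε) * kap') := by
      rw [sub_pos, div_lt_one (by positivity)]
      nlinarith
    have h1 : c0 * x / M ≤ (1 - kap * (1 + ε) / ((1 - ε) * kap')) * K := by
      calc c0 * x / M = (1 - kap * (1 + ε) / ((1 - ε) * kap')) * ((1 - ε) * x / M) := by
            rw [hc0]; field_simp
        _ ≤ _ := mul_le_mul_of_nonneg_left hr3 hpos.le
    refine le_trans ?_ h1
    rw [le_div_iff₀ hMr]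
    have h2 : (M : ℝ) ≤ (x : ℝ) ^ (η / 2) := hMz4.trans hS2
    have hx0' : (0 : ℝ) < x := by linarith
    have h3 : 1 ≤ c0 * (x : ℝ) ^ (η / 2) := by
      rw [div_le_iff₀ hc0p] at hlx
      linarith
    calc (x : ℝ) ^ (1 - η) * M ≤ (x : ℝ) ^ (1 - η) * (x : ℝ) ^ (η / 2) :=
          mul_le_mul_of_nonneg_left h2 (Real.rpow_nonneg hx0'.le _)
      _ = (x : ℝ) ^ (1 - η / 2) := by
          rw [← Real.rpow_add hx0']; congr 1; ring
      _ ≤ (x : ℝ) ^ (1 - η / 2) * (c0 * (x : ℝ) ^ (η / 2)) :=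
          le_mul_of_one_le_right (Real.rpow_nonneg hx0'.le _) h3
      _ = c0 * ((x : ℝ) ^ (1 - η / 2) * (x : ℝ) ^ (η / 2)) := by ring
      _ = c0 * x := by
          rw [← Real.rpow_add hx0', sub_add_cancel, Real.rpow_one]
  · intro s hs
    obtain ⟨k, hk, rfl⟩ := Finset.mem_image.1 hs
    exact hin k (Finset.mem_filter.1 hk).1
  · intro s hs s' hs' hne
    obtain ⟨k, hk, rfl⟩ := Finset.mem_image.1 hs
    obtain ⟨k', hk', rfl⟩ := Finset.mem_image.1 hs'
    refine hd k (Finset.mem_filter.1 hk).1 k' (Finset.mem_filter.1 hk').1 ?_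
    rintro rfl
    exact hne rfl
  · intro s hs
    obtain ⟨k, hk, rfl⟩ := Finset.mem_image.1 hs
    exact (Finset.mem_filter.1 hk).2

end Pool.Agent.Lib.MP_926cc3_nt.PP
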