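import Pool.Agent.Lib.MP_926cc3_nt.PP.Spec

set_option autoImplicit false

open Filter Topology MeasureTheory ProbabilityTheory

namespace Pool.Agent.Lib.MP_926cc3_nt.PP

universe u

theorem specEXD : SpecEXD.{u} := by
  intro Ω _ μ _ ξ hξ hind I H L hdis
  let T : ℕ → Set ℕ := fun n => {j | n.Prime ∧ ∃ s ∈ I, n ∈ Finset.Ioc s (s + L) ∧
    n + j ∈ Finset.Ioc (s + H) (s + L)}
  have hT : ∀ n, MeasurableSet (T n) := fun n => MeasurableSet.of_discrete
  refine ⟨fun n => ξ n ⁻¹' T n, fun n => hξ n (hT n), ?_, ?_⟩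
  · rw [iIndepSet_iff_meas_biInter (fun n => hξ n (hT n))]
    intro S
    exact hind.measure_inter_preimage_eq_mul S (fun n _ => hT n)
  · intro s hs n hn
    ext ω
    by_cases hp : n.Prime
    · rw [if_pos hp]
      show ξ n ω ∈ T n ↔ n + ξ n ω ∈ Finset.Ioc (s + H) (s + L)
      constructor
      · rintro ⟨_, s', hs', hn', hj⟩
        by_cases hss : s = s'
        · rw [hss]; exact hj
        · exact absurd hn' (Finset.disjoint_left.mp (hdis s hs s' hs' hss) hn)
      · intro hj
        exact ⟨hp, s, hs, hn, hj⟩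
    · rw [if_neg hp]
      show ξ n ω ∈ T n ↔ ω ∈ (∅ : Set Ω)
      constructor
      · rintro ⟨h, _⟩
        exact absurd h hp
      · intro h
        exact absurd h (Set.notMem_empty ω)

end Pool.Agent.Lib.MP_926cc3_nt.PP
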