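import Pool.Agent.Lib.MP_926cc3_nt.PP.Spec

/-!
# MP_926cc3_nt, project PP, module EXI: existence of independent uniform displacements
-/

set_option autoImplicit false

open MeasureTheory ProbabilityTheory

namespace Pool.Agent.Lib.MP_926cc3_nt.PP

open Pool.Agent.Lib.MP_926cc3_nt.RS Pool.Agent.Lib.MP_926cc3_nt.TH

namespace EXIM

lemma range_nonempty {n : ℕ} (h : 1 ≤ n) : (Finset.range n).Nonempty :=
  ⟨0, Finset.mem_range.2 h⟩

/-- the uniform measure on `{0, …, n - 1}` -/
noncomputable def nu (n : ℕ) (h : 1 ≤ n) : Measure ℕ :=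
  (PMF.uniformOfFinset (Finset.range n) (range_nonempty h)).toMeasure

instance (n : ℕ) (h : 1 ≤ n) : IsProbabilityMeasure (nu n h) := by
  unfold nu
  infer_instance

lemma nu_real (n : ℕ) (h : 1 ≤ n) (j : ℕ) :
    (nu n h).real {j} = if j < n then 1 / (n : ℝ) else 0 := by
  unfold nu
  rw [Measure.real, PMF.toMeasure_apply_singleton _ _ (measurableSet_singleton j),
    PMF.uniformOfFinset_apply]
  by_cases hj : j < n
  · rw [if_pos (Finset.mem_range.2 hj), if_pos hj, Finset.card_range, ENNReal.toReal_inv,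
      ENNReal.toReal_natCast, one_div]
  · rw [if_neg (fun h2 => hj (Finset.mem_range.1 h2)), if_neg hj, ENNReal.toReal_zero]

end EXIM

theorem specEXI : SpecEXI := by
  intro h hh
  refine ⟨ℕ → ℕ, inferInstance, Measure.infinitePi (fun n => EXIM.nu (h n) (hh n)),
    fun n ω => ω n, inferInstance, ?_, ?_⟩
  · have h1 := iIndepFun_infinitePi (P := fun n => EXIM.nu (h n) (hh n)) (X := fun _ ω => ω)
      (fun _ => measurable_id)
    exact h1
  · intro n
    refine ⟨measurable_pi_apply n, fun j => ?_⟩
    have h2 : (Measure.infinitePi (fun n => EXIM.nu (h n) (hh n))).map (fun ω => ω n) =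
        EXIM.nu (h n) (hh n) := Measure.infinitePi_map_eval _ n
    have h3 : (Measure.infinitePi (fun n => EXIM.nu (h n) (hh n))) {ω | ω n = j} =
        EXIM.nu (h n) (hh n) {j} := by
      rw [← h2, Measure.map_apply (measurable_pi_apply n) (measurableSet_singleton j)]
      rfl
    rw [Measure.real, h3]
    exact EXIM.nu_real (h n) (hh n) j

end Pool.Agent.Lib.MP_926cc3_nt.PP
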