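import Pool.Agent.Lib.MP_926cc3_nt.PP.Spec

/-!
# MP_926cc3_nt (Shanks), project PP, module MAT (helper30): Maier's matrix
-/

set_option autoImplicit false

open Filter Topology MeasureTheory ProbabilityTheory

namespace Pool.Agent.Lib.MP_926cc3_nt.PP

namespace MATM

theorem card_window (k M a L : ℕ) :
    (((Finset.Ioc (k * M + a) (k * M + a + L)).filter Nat.Prime).card : ℝ) =
      ∑ n ∈ Finset.Ioc a (a + L), if (k * M + n).Prime then (1 : ℝ) else 0 := by
  rw [Finset.sum_boole]
  have h : (Finset.Ioc (k * M + a) (k * M + a + L)).filter Nat.Prime =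
      ((Finset.Ioc a (a + L)).filter (fun n => (k * M + n).Prime)).image (fun n => k * M + n) := by
    ext p
    simp only [Finset.mem_filter, Finset.mem_Ioc, Finset.mem_image]
    constructor
    · rintro ⟨⟨h1, h2⟩, h3⟩
      refine ⟨p - k * M, ⟨⟨by omega, by omega⟩, ?_⟩, by omega⟩
      have : k * M + (p - k * M) = p := by omega
      rw [this]
      exact h3
    · rintro ⟨n, ⟨⟨h1, h2⟩, h3⟩, rfl⟩
      exact ⟨⟨by omega, by omega⟩, h3⟩
  rw [h, Finset.card_image_of_injective]
  intro m n hmn
  simpa using hmn

end MATM

theorem specMAT : SpecMAT := by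
  intro x M a L K1 K Y hx hM hL hK1 hK2 hq hY
  have hlo : ∀ k ∈ Finset.Ico K1 (K1 + K), x ≤ k * M + a := by
    intro k hk
    rw [Finset.mem_Ico] at hk
    have : K1 * M ≤ k * M := Nat.mul_le_mul_right M hk.1
    omega
  have hup : ∀ k ∈ Finset.Ico K1 (K1 + K), k * M + a + M ≤ 2 * x := by
    intro k hk
    rw [Finset.mem_Ico] at hk
    have : (k + 1) * M ≤ (K1 + K) * M := Nat.mul_le_mul_right M hk.2
    have h2 : (k + 1) * M = k * M + M := by ring
    omega
  have hlogx : 0 < Real.log x := Real.log_pos (by exact_mod_cast (by omega : 1 < x))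
  refine ⟨?_, fun k hk => ⟨hlo k hk, by have := hup k hk; omega⟩, ?_⟩
  · intro k _ k' _ hne
    rw [Finset.disjoint_left]
    intro y hy hy'
    rw [Finset.mem_Ioc] at hy hy'
    rcases Nat.lt_or_gt_of_ne hne with h | h
    · have h1 : (k + 1) * M ≤ k' * M := Nat.mul_le_mul_right M h
      have h2 : (k + 1) * M = k * M + M := by ring
      omega
    · have h1 : (k' + 1) * M ≤ k * M := Nat.mul_le_mul_right M h
      have h2 : (k' + 1) * M = k' * M + M := by ring
      omega
  · simp_rw [MATM.card_window]
    rw [Finset.sum_comm]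
    have key : ∀ n ∈ Finset.Ioc a (a + L), (∑ k ∈ Finset.Ico K1 (K1 + K),
        if (k * M + n).Prime then (1 : ℝ) else 0) ≤
          if n.Coprime M then Y / Real.log x else 0 := by
      intro n hn
      rw [Finset.mem_Ioc] at hn
      have hgt : ∀ k ∈ Finset.Ico K1 (K1 + K), x < k * M + n := by
        intro k hk
        have := hlo k hk
        omega
      have hle : ∀ k ∈ Finset.Ico K1 (K1 + K), k * M + n ≤ 2 * x := by
        intro k hk
        have := hup k hk
        omega
      by_cases hc : n.Coprime M
      · rw [if_pos hc, Finset.sum_boole, le_div_iff₀ hlogx]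
        refine le_trans ?_ (hY n hc)
        have hinj : Function.Injective (fun k => k * M + n) := by
          intro k k' hkk
          have h1 : k * M = k' * M := by simpa using hkk
          exact Nat.eq_of_mul_eq_mul_right (by omega) h1
        have h1 : (((Finset.Ico K1 (K1 + K)).filter (fun k => (k * M + n).Prime)).card : ℝ) *
            Real.log x ≤ ∑ k ∈ (Finset.Ico K1 (K1 + K)).filter (fun k => (k * M + n).Prime),
              Real.log ((k * M + n : ℕ) : ℝ) := by
          rw [← nsmul_eq_mul]
          apply Finset.card_nsmul_le_sum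
          intro k hk
          rw [Finset.mem_filter] at hk
          have h2 := hgt k hk.1
          apply Real.log_le_log (by exact_mod_cast (by omega : 0 < x))
          exact_mod_cast h2.le
        refine le_trans h1 ?_
        rw [← Finset.sum_image (f := fun p : ℕ => Real.log (p : ℝ)) (g := fun k => k * M + n)
          (fun k _ k' _ h => hinj h)]
        apply Finset.sum_le_sum_of_subset_of_nonneg
        · intro p hp
          rw [Finset.mem_image] at hp
          obtain ⟨k, hk, rfl⟩ := hp
          rw [Finset.mem_filter] at hk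
          rw [Finset.mem_filter, Finset.mem_Ioc]
          refine ⟨⟨hgt k hk.1, hle k hk.1⟩, hk.2, ?_⟩
          have : k * M + n ≡ 0 + n [MOD M] :=
            Nat.ModEq.add_right n (Nat.modEq_zero_iff_dvd.mpr (Dvd.intro_left k rfl))
          rwa [zero_add] at this
        · intro p _ _
          exact Real.log_natCast_nonneg p
      · rw [if_neg hc]
        apply le_of_eq
        apply Finset.sum_eq_zero
        intro k hk
        rw [if_neg]
        intro hp
        obtain ⟨q, hqp, hqn, hqM⟩ := Nat.Prime.not_coprime_iff_dvd.mp hc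
        have hqd : q ∣ k * M + n := dvd_add (Dvd.dvd.mul_left hqM k) hqn
        have hqe : q = k * M + n := (Nat.prime_dvd_prime_iff_eq hqp hp).mp hqd
        have h1 := hq q hqp hqM
        have h2 := hgt k hk
        omega
    refine le_trans (Finset.sum_le_sum key) ?_
    rw [← Finset.sum_filter, Finset.sum_const, nsmul_eq_mul, mul_div_assoc]

end Pool.Agent.Lib.MP_926cc3_nt.PP
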