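import Pool.Agent.Lib.MP_926cc3_nt.PP.Spec

/-!
# PP, module NIF: the interface with the library Lib/LP
-/

set_option autoImplicit false

namespace Pool.Agent.Lib.MP_926cc3_nt.PP

theorem specNIF (h : Pool.Agent.Lib.LP.SpecLPZ) : SpecNIF := by
  refine ⟨1 / 51, by norm_num, by norm_num, fun ε hε B => ?_⟩
  obtain ⟨x0, hx0⟩ := h ε hε B
  refine ⟨x0, fun x z hx hz hzx => ?_⟩
  obtain ⟨p0, hp0, hB, hM⟩ := hx0 x z hx hz hzx
  exact ⟨p0, hp0, hB, fun n hn => hM (Mz z p0) rfl n hn⟩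

/-- the same with the exponent made explicit -/
theorem specNN (h : Pool.Agent.Lib.LP.SpecLPZ) : NN (1 / 51) := by
  intro ε hε B
  obtain ⟨x0, hx0⟩ := h ε hε B
  refine ⟨x0, fun x z hx hz hzx => ?_⟩
  obtain ⟨p0, hp0, hB, hM⟩ := hx0 x z hx hz hzx
  exact ⟨p0, hp0, hB, fun n hn => hM (Mz z p0) rfl n hn⟩

end Pool.Agent.Lib.MP_926cc3_nt.PP
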