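import Pool.Agent.Lib.MP_926cc3_nt.PP.Spec
import Pool.Agent.Lib.PntAP.Main

/-!
# MP_926cc3_nt, project PP: module PRM (many primes just above `2 x`)
-/

set_option autoImplicit false

open Filter Topology MeasureTheory ProbabilityTheory

namespace Pool.Agent.Lib.MP_926cc3_nt.PP

namespace PRMM

open Pool.Agent.Lib.PntAP

theorem floor_eq (x : ℕ) : ⌊(1 + 1 / 4 : ℝ) * (2 * x : ℝ)⌋₊ = 2 * x + x / 2 := by
  have h : (1 + 1 / 4 : ℝ) * (2 * x : ℝ) = ((5 * x : ℕ) : ℝ) / ((2 : ℕ) : ℝ) := by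
    push_cast; ring
  rw [h, Nat.floor_div_eq_div]
  omega

theorem pi_sub (x : ℕ) : piAP (0 : ZMod 1) ((1 + 1 / 4 : ℝ) * (2 * x : ℝ)) -
    piAP (0 : ZMod 1) (2 * x : ℝ) =
    (((Finset.Ioc (2 * x) (2 * x + x / 2)).filter Nat.Prime).card : ℝ) := by
  have h2 : ⌊(2 * x : ℝ)⌋₊ = 2 * x := by
    rw [show (2 * x : ℝ) = ((2 * x : ℕ) : ℝ) by push_cast; ring, Nat.floor_natCast]
  rw [piAP, piAP, floor_eq, h2, sub_eq_iff_eq_add, ← Nat.cast_add,
    ← Finset.card_union_of_disjoint]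
  · congr 2
    ext p
    simp only [Finset.mem_filter, Finset.mem_Icc, Finset.mem_union, Finset.mem_Ioc]
    constructor
    · rintro ⟨⟨h3, h4⟩, h5, _⟩
      by_cases h6 : p ≤ 2 * x
      · exact Or.inr ⟨⟨h3, h6⟩, h5, Subsingleton.elim _ _⟩
      · exact Or.inl ⟨⟨by omega, h4⟩, h5⟩
    · rintro (⟨⟨h3, h4⟩, h5⟩ | ⟨⟨h3, h4⟩, h5, _⟩)
      · exact ⟨⟨by omega, h4⟩, h5, Subsingleton.elim _ _⟩
      · exact ⟨⟨h3, by omega⟩, h5, Subsingleton.elim _ _⟩
  · rw [Finset.disjoint_left]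
    intro p h3 h4
    simp only [Finset.mem_filter, Finset.mem_Icc, Finset.mem_Ioc] at h3 h4
    omega

end PRMM

theorem specPRM : SpecPRM := by
  have h0 := Pool.Agent.Lib.PntAP.pi_ap_interval (q := 1) (a := 0)
    (isUnit_of_subsingleton _) (δ := 1 / 4) (by norm_num)
  have ht : Tendsto (fun x : ℕ => (2 * x : ℝ)) atTop atTop :=
    (tendsto_natCast_atTop_atTop).const_mul_atTop two_pos
  have h1 := h0.comp ht
  rw [Nat.totient_one, Nat.cast_one, div_one] at h1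
  have h2 : ∀ᶠ x : ℕ in atTop, (1 / 8 : ℝ) < (((Finset.Ioc (2 * x) (2 * x + x / 2)).filter
      Nat.Prime).card : ℝ) * Real.log (2 * x) / (2 * x) := by
    have h3 := h1.eventually (lt_mem_nhds (show (1 / 8 : ℝ) < 1 / 4 by norm_num))
    filter_upwards [h3] with x hx
    simp only [Function.comp_apply] at hx
    rwa [PRMM.pi_sub] at hx
  have h4 : ∀ᶠ x : ℕ in atTop, 8 * Real.log (2 * x) ≤ Real.sqrt (2 * x) := by
    have h5 : ∀ᶠ y : ℝ in atTop, ‖Real.log y‖ ≤ (1 / 8) * ‖y ^ (1 / 2 : ℝ)‖ :=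
      (isLittleO_log_rpow_atTop (by norm_num : (0 : ℝ) < 1 / 2)).def (by norm_num)
    filter_upwards [ht.eventually h5, ht.eventually (eventually_ge_atTop 1)] with x hx hx1
    rw [Real.norm_of_nonneg (Real.log_nonneg hx1), Real.norm_of_nonneg (by positivity),
      ← Real.sqrt_eq_rpow] at hx
    linarith
  filter_upwards [h2, h4, eventually_ge_atTop 1] with x hx1 hx2 hx3
  have hx : (1 : ℝ) ≤ x := by exact_mod_cast hx3
  have hl : 0 < Real.log (2 * x) := Real.log_pos (by linarith)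
  rw [lt_div_iff₀ (by linarith)] at hx1
  set N : ℝ := (((Finset.Ioc (2 * x) (2 * x + x / 2)).filter Nat.Prime).card : ℝ)
  have hs : Real.sqrt (2 * x) ≤ 2 * Real.sqrt x := by
    rw [show (2 : ℝ) * Real.sqrt x = Real.sqrt (4 * x) by
      rw [Real.sqrt_mul (by norm_num), show (4 : ℝ) = 2 ^ 2 by norm_num, Real.sqrt_sq (by norm_num)]]
    exact Real.sqrt_le_sqrt (by linarith)
  have hss : Real.sqrt x * Real.sqrt x = x := Real.mul_self_sqrt (by linarith)
  have hsx : 0 ≤ Real.sqrt x := Real.sqrt_nonneg _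
  -- `√x * log (2x) ≤ x/4 < N log (2x)`
  have h6 : Real.sqrt x * Real.log (2 * x) ≤ N * Real.log (2 * x) := by
    have h7 : Real.sqrt x * (4 * Real.log (2 * x)) ≤ Real.sqrt x * Real.sqrt x :=
      mul_le_mul_of_nonneg_left (by linarith) hsx
    nlinarith
  exact le_of_mul_le_mul_right h6 hl

end Pool.Agent.Lib.MP_926cc3_nt.PP
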