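import Pool.Agent.Lib.MP_926cc3_nt.PP.Spec2

/-!
# PP, module RGG: Granville's constant for the lengths `(log x)^(2+o(1))`
-/

set_option autoImplicit false

open Filter Topology

namespace Pool.Agent.Lib.MP_926cc3_nt.PP

open Pool.Agent.Lib.MP_926cc3_nt.RS Pool.Agent.Lib.MP_926cc3_nt.TH

namespace RGGM

lemma tlog : Tendsto (fun x : ℕ => Real.log (x : ℝ)) atTop atTop :=
  Real.tendsto_log_atTop.comp tendsto_natCast_atTop_atTop

lemma tpow {r : ℝ} (hr : 0 < r) : Tendsto (fun x : ℕ => Real.log (x : ℝ) ^ r) atTop atTop :=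
  (tendsto_rpow_atTop hr).comp tlog

end RGGM

open RGGM in
theorem specRGG (hGRV : Pool.Agent.Lib.LargeAP.SpecGRV) (hPRL : SpecPRL) : SpecRGG := by
  intro kap hkap
  set ε : ℝ := kap - Real.exp Real.eulerMascheroniConstant / 2 with hε
  have hε0 : 0 < ε := by rw [hε]; linarith
  obtain ⟨δ0, hδ0, P, z0, hG⟩ := hGRV ε hε0
  obtain ⟨z1, hz1⟩ := hPRL 3
  set δ : ℝ := min δ0 1 with hδ
  have hδp : 0 < δ := lt_min hδ0 one_pos
  have hδ1 : δ ≤ 1 := min_le_right _ _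
  have hδδ : δ ≤ δ0 := min_le_left _ _
  set θ : ℝ := (2 + δ / 2) / (2 + δ) with hθ
  have h2δ : 0 < 2 + δ := by linarith
  have hθ0 : 0 < θ := by positivity
  have hθ1 : θ < 1 := by
    rw [hθ, div_lt_one h2δ]
    linarith
  have hθδ : θ * (2 + δ) = 2 + δ / 2 := by
    rw [hθ, div_mul_cancel₀ _ h2δ.ne']
  refine ⟨θ, 2 * θ, 2 + δ / 4, hθ0, hθ1, by linarith, by linarith, ?_⟩
  refine ⟨P, 0, ?_⟩
  filter_upwards [(tpow hθ0).eventually_ge_atTop ((max z0 (max z1 2) : ℕ) + 1 : ℝ),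
    tlog.eventually_ge_atTop 1, (tpow (show 0 < δ / 4 by positivity)).eventually_ge_atTop
      ((2 : ℝ) ^ (2 + δ))] with x hx hx1 hx2
  set l : ℝ := Real.log (x : ℝ) with hl
  have hl0 : 0 < l := by linarith
  set z : ℕ := ⌊l ^ θ⌋₊ with hz
  have hlθ : 0 ≤ l ^ θ := Real.rpow_nonneg hl0.le _
  have hzle : (z : ℝ) ≤ l ^ θ := Nat.floor_le hlθ
  have hzlt : l ^ θ < (z : ℝ) + 1 := Nat.lt_floor_add_one _
  have hzmax : max z0 (max z1 2) ≤ z := by
    have h1 : ((max z0 (max z1 2) : ℕ) : ℝ) < (z : ℝ) := by linarith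
    exact_mod_cast h1.le
  have hz0 : z0 ≤ z := (le_max_left _ _).trans hzmax
  have hz1' : z1 ≤ z := ((le_max_left _ _).trans (le_max_right _ _)).trans hzmax
  have hz2 : 2 ≤ z := ((le_max_right _ _).trans (le_max_right _ _)).trans hzmax
  have hz2' : (2 : ℝ) ≤ z := by exact_mod_cast hz2
  have hhalf : l ^ θ / 2 ≤ z := by linarith
  refine ⟨z, hz2, hzle, fun p0 hp0 hPp0 L hL1 hL2 => ?_⟩
  -- the lower bound for L
  have hzL : z ^ 2 ≤ L := by
    have h1 : ((z : ℝ)) ^ 2 ≤ l ^ (2 * θ) := by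
      calc (z : ℝ) ^ 2 ≤ (l ^ θ) ^ 2 := pow_le_pow_left₀ (by positivity) hzle 2
        _ = l ^ (2 * θ) := by
          rw [← Real.rpow_natCast, ← Real.rpow_mul hl0.le]
          congr 1
          push_cast
          ring
    have h2 : ((z ^ 2 : ℕ) : ℝ) ≤ (L : ℝ) := by
      push_cast
      exact h1.trans hL1
    exact_mod_cast h2
  -- the upper bound
  have hLz : (L : ℝ) ≤ (z : ℝ) ^ (2 + δ) := by
    calc (L : ℝ) ≤ l ^ (2 + δ / 4) := hL2
      _ = l ^ (2 + δ / 2) / l ^ (δ / 4) := by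
        rw [← Real.rpow_sub hl0]
        congr 1
        ring
      _ ≤ l ^ (2 + δ / 2) / (2 : ℝ) ^ (2 + δ) := by
        apply div_le_div_of_nonneg_left (Real.rpow_nonneg hl0.le _) (by positivity) hx2
      _ = (l ^ θ / 2) ^ (2 + δ) := by
        rw [Real.div_rpow hlθ (by norm_num), ← Real.rpow_mul hl0.le, hθδ]
      _ ≤ (z : ℝ) ^ (2 + δ) := by
        apply Real.rpow_le_rpow (by positivity) hhalf h2δ.le
  have hz1r : (1 : ℝ) ≤ z := by linarith
  have hLz0 : (L : ℝ) ≤ (z : ℝ) ^ (2 + δ0) := hLz.trans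
    (Real.rpow_le_rpow_of_exponent_le hz1r (by linarith))
  refine ⟨?_, 0, ?_, ?_⟩
  · have h1 : (L : ℝ) ≤ ((z ^ 3 : ℕ) : ℝ) := by
      refine hLz.trans ?_
      calc (z : ℝ) ^ (2 + δ) ≤ (z : ℝ) ^ ((3 : ℕ) : ℝ) := by
            apply Real.rpow_le_rpow_of_exponent_le hz1r
            push_cast
            linarith
        _ = ((z ^ 3 : ℕ) : ℝ) := by
            rw [Real.rpow_natCast]
            push_cast
            rfl
    have h2 : L ≤ z ^ 3 := by exact_mod_cast h1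
    exact h2.trans (hz1 z p0 hz1')
  · simp
  · have h1 := hG z L p0 hz0 hp0 hPp0 hzL hLz0 (Mz z p0) rfl
    have h2 : Finset.Ioc 0 (0 + L) = Finset.Icc 1 L := by
      ext n
      rw [Finset.mem_Ioc, Finset.mem_Icc]
      omega
    rw [h2]
    have h3 : Real.exp Real.eulerMascheroniConstant / 2 + ε = kap := by rw [hε]; ring
    rw [h3] at h1
    rw [mul_div_assoc]
    exact h1

end Pool.Agent.Lib.MP_926cc3_nt.PP
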