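import Pool.Agent.Lib.MP_926cc3_nt.PP.Spec

set_option autoImplicit false

open Filter Topology

namespace Pool.Agent.Lib.MP_926cc3_nt.PP

open Pool.Agent.Lib.MP_926cc3_nt.RS Pool.Agent.Lib.MP_926cc3_nt.TH

theorem specRGH (hDEF : TH.SpecDEF) (hDRP : SpecDRP) (hPRL : SpecPRL) (hTOT : SpecTOT) :
    SpecRGH := by
  intro θ A hθ
  set θ' : ℝ := min θ (1 / 40) with hθ'
  have hθ0 : 0 < θ' := lt_min hθ (by norm_num)
  have hθ40 : θ' ≤ 1 / 40 := min_le_right _ _
  have hθle : θ' ≤ θ := min_le_left _ _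
  set A' : ℝ := max A 2 with hA'
  have hA2 : 2 ≤ A' := le_max_right _ _
  have hAle : A ≤ A' := le_max_left _ _
  set U : ℕ := ⌈2 * A' / θ'⌉₊ with hU
  have hUr : 2 * A' / θ' ≤ U := Nat.le_ceil _
  obtain ⟨kapD, hk0, hk1, T, z0, hD⟩ := hDEF U
  obtain ⟨C, hC0, hC⟩ := hDRP
  obtain ⟨z1, hz1⟩ := hPRL U
  refine ⟨(1 + kapD) / 2, by linarith, by linarith, ⌈2 * C / (1 - kapD)⌉₊ + 1, T, ?_⟩
  have hlog : Tendsto (fun x : ℕ => Real.log (x : ℝ)) atTop atTop :=
    Real.tendsto_log_atTop.comp tendsto_natCast_atTop_atTop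
  have hpow : Tendsto (fun x : ℕ => Real.log (x : ℝ) ^ (θ' / 2)) atTop atTop :=
    (tendsto_rpow_atTop (by positivity)).comp hlog
  have e1 : ∀ᶠ x : ℕ in atTop, ((z0 + z1 + 2 : ℕ) : ℝ) ≤ Real.log (x : ℝ) ^ (θ' / 2) :=
    hpow.eventually (eventually_ge_atTop _)
  have e2 : ∀ᶠ x : ℕ in atTop, 1 ≤ Real.log (x : ℝ) := hlog.eventually (eventually_ge_atTop _)
  filter_upwards [e1, e2] with x hx1 hl1
  set l : ℝ := Real.log (x : ℝ) with hl
  have hl0 : 0 < l := by linarith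
  set y : ℝ := l ^ (θ' / 2) with hy
  have hyz : (z0 : ℝ) + z1 + 2 ≤ y := by
    have := hx1
    push_cast at this
    exact this
  have hz0r : (0 : ℝ) ≤ z0 := by positivity
  have hz1r : (0 : ℝ) ≤ z1 := by positivity
  have hy2 : 2 ≤ y := by linarith
  have hyy : l ^ θ' = y * y := by
    rw [hy, ← Real.rpow_add hl0]
    congr 1
    ring
  set z : ℕ := ⌊l ^ θ'⌋₊ with hz
  have hzle : (z : ℝ) ≤ l ^ θ' := Nat.floor_le (by positivity)
  have hzy : y ≤ z := by
    have h1 : l ^ θ' < z + 1 := Nat.lt_floor_add_one _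
    rw [hyy] at h1
    nlinarith
  have hz2 : 2 ≤ z := by
    have : (2 : ℝ) ≤ z := hy2.trans hzy
    exact_mod_cast this
  have hz0z : z0 ≤ z := by
    have : (z0 : ℝ) ≤ z := by linarith
    exact_mod_cast this
  have hz1z : z1 ≤ z := by
    have : (z1 : ℝ) ≤ z := by linarith
    exact_mod_cast this
  have hz1' : (1 : ℝ) ≤ z := by linarith
  have hll : l ^ θ' ≤ l := by
    calc l ^ θ' ≤ l ^ (1 : ℝ) := Real.rpow_le_rpow_of_exponent_le hl1 (by linarith)
      _ = l := Real.rpow_one l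
  refine ⟨z, hz2, hzle.trans (Real.rpow_le_rpow_of_exponent_le hl1 hθle), ?_⟩
  intro p0 hp0 hBp L hL1 hLA
  rw [Real.rpow_one] at hL1
  have hL0 : (1 : ℝ) ≤ L := hl1.trans hL1
  have hL1' : 1 ≤ L := by exact_mod_cast hL0
  have hLzU : (L : ℝ) ≤ (z : ℝ) ^ U := by
    have h1 : l ^ A ≤ l ^ A' := Real.rpow_le_rpow_of_exponent_le hl1 hAle
    have h2 : l ^ A' = y ^ (2 * A' / θ') := by
      rw [hy, ← Real.rpow_mul hl0.le]
      congr 1
      field_simp
    have h3 : y ^ (2 * A' / θ') ≤ (z : ℝ) ^ (2 * A' / θ') :=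
      Real.rpow_le_rpow (by linarith) hzy (by positivity)
    have h4 : (z : ℝ) ^ (2 * A' / θ') ≤ (z : ℝ) ^ ((U : ℕ) : ℝ) :=
      Real.rpow_le_rpow_of_exponent_le hz1' hUr
    rw [Real.rpow_natCast] at h4
    linarith
  have hLzU' : L ≤ z ^ U := by exact_mod_cast hLzU
  have hM : z ^ U ≤ Mz z p0 := hz1 z p0 hz1z
  refine ⟨hLzU'.trans hM, ?_⟩
  obtain ⟨c, hc, hsum⟩ := hD z hz0z L hL1' hLzU'
  refine ⟨c, ?_, ?_⟩
  · have h1 : (c : ℝ) ≤ (z : ℝ) ^ T := by exact_mod_cast hc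
    exact h1.trans (pow_le_pow_left₀ (by positivity) (hzle.trans hll) T)
  · have h40 : (z : ℝ) ^ 40 ≤ L := by
      have h1 : (z : ℝ) ^ 40 ≤ (l ^ θ') ^ 40 := pow_le_pow_left₀ (by positivity) hzle 40
      have h2 : (l ^ θ') ^ 40 = l ^ (θ' * 40) := by
        rw [Real.rpow_mul hl0.le, ← Real.rpow_natCast]
        norm_num
      have h3 : l ^ (θ' * 40) ≤ l ^ (1 : ℝ) :=
        Real.rpow_le_rpow_of_exponent_le hl1 (by linarith)
      rw [Real.rpow_one] at h3
      linarith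
    have hdrp := hC z p0 c L hz2 hp0 h40
    obtain ⟨-, hV, -, hMpos⟩ := hTOT z p0 hz2
    have hV0 : 0 < V z := by
      unfold V
      refine Finset.prod_pos (fun p hp => ?_)
      have hpp := (Finset.mem_filter.1 hp).2
      have : (1 : ℝ) < p := by exact_mod_cast hpp.one_lt
      have : 1 / (p : ℝ) < 1 := by
        rw [div_lt_one (by linarith)]
        exact this
      linarith
    have hp0r : 2 * C / (1 - kapD) ≤ p0 := by
      have h1 : 2 * C / (1 - kapD) ≤ ⌈2 * C / (1 - kapD)⌉₊ := Nat.le_ceil _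
      have h2 : ((⌈2 * C / (1 - kapD)⌉₊ + 1 : ℕ) : ℝ) ≤ p0 := by exact_mod_cast hBp.le
      push_cast at h2
      linarith
    have hp0pos : (0 : ℝ) < p0 := by exact_mod_cast hp0.pos
    have hCp : C / p0 ≤ (1 - kapD) / 2 := by
      rw [div_le_iff₀ hp0pos]
      rw [div_le_iff₀ (by linarith)] at hp0r
      linarith
    have h5 : C * V z * L / p0 ≤ (1 - kapD) / 2 * (V z * L) := by
      have : C * V z * L / p0 = C / p0 * (V z * L) := by ring
      rw [this]
      exact mul_le_mul_of_nonneg_right hCp (by positivity)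
    have h6 : (((Finset.Ioc c (c + L)).filter (fun n => n.Coprime (Mz z p0))).card : ℝ) ≤
        (1 + kapD) / 2 * L * V z := by
      have : (1 + kapD) / 2 * L * V z = kapD * V z * L + (1 - kapD) / 2 * (V z * L) := by ring
      rw [this]
      linarith
    refine h6.trans ?_
    have h7 : (1 + kapD) / 2 * L * V z ≤
        (1 + kapD) / 2 * L * ((Nat.totient (Mz z p0) : ℝ) / Mz z p0) :=
      mul_le_mul_of_nonneg_left hV (by positivity)
    refine h7.trans (le_of_eq ?_)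
    ring

end Pool.Agent.Lib.MP_926cc3_nt.PP
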