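import Pool.Agent.Lib.MP_926cc3_nt.PP.Spec

set_option autoImplicit false

open Filter Topology

namespace Pool.Agent.Lib.MP_926cc3_nt.PP

namespace SIZM

/-- powers of the logarithm are small -/
theorem logpow (A c : ℝ) (hc : 0 < c) : ∀ᶠ x : ℕ in atTop, Real.log x ^ A ≤ c * x := by
  have h1 : (fun x : ℝ => Real.log x ^ A) =o[atTop] fun x : ℝ => x ^ (1 : ℝ) :=
    isLittleO_log_rpow_rpow_atTop A one_pos
  have h2 := (h1.bound hc)
  have h3 : ∀ᶠ x : ℕ in atTop, ‖Real.log (x : ℝ) ^ A‖ ≤ c * ‖(x : ℝ) ^ (1 : ℝ)‖ :=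
    tendsto_natCast_atTop_atTop.eventually h2
  filter_upwards [h3, eventually_ge_atTop 1] with x hx h1x
  have hx0 : (0 : ℝ) ≤ x := by positivity
  rw [Real.rpow_one, Real.norm_of_nonneg hx0] at hx
  exact (Real.le_norm_self _).trans hx

theorem logpow' (θ c : ℝ) (hθ : θ < 1) (hc : 0 < c) :
    ∀ᶠ x : ℕ in atTop, Real.log x ^ θ ≤ c * Real.log x := by
  have h0 : Tendsto (fun x : ℕ => Real.log (x : ℝ)) atTop atTop :=
    Real.tendsto_log_atTop.comp tendsto_natCast_atTop_atTop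
  have h1 : Tendsto (fun y : ℝ => y ^ (-(1 - θ))) atTop (𝓝 0) :=
    tendsto_rpow_neg_atTop (by linarith)
  have h2 : ∀ᶠ y : ℝ in atTop, y ^ (-(1 - θ)) < c := h1.eventually (gt_mem_nhds hc)
  have h3 : ∀ᶠ y : ℝ in atTop, y ^ θ ≤ c * y := by
    filter_upwards [h2, eventually_gt_atTop 0] with y hy hy0
    have : y ^ θ = y ^ (-(1 - θ)) * y := by
      rw [← Real.rpow_add_one hy0.ne']
      congr 1
      ring
    rw [this]
    exact mul_le_mul_of_nonneg_right hy.le hy0.le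
  exact h0.eventually h3

end SIZM

theorem specSIZ : SpecSIZ := by
  intro θ A ε η T hθ hθ1 hε hη
  -- `4^z ≤ exp(c log x) = x^c` with `c = min (1/2) η`
  set c : ℝ := min (1 / 2) η with hc
  have hc0 : 0 < c := lt_min (by norm_num) hη
  have hl4 : 0 < Real.log 4 := Real.log_pos (by norm_num)
  have h1 := SIZM.logpow' θ (c / Real.log 4) hθ1 (div_pos hc0 hl4)
  have h2 := SIZM.logpow (T : ℝ) (ε / 3) (by positivity)
  have h3 := SIZM.logpow A (ε / 3) (by positivity)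
  have h4 := SIZM.logpow 1 1 one_pos
  have h5 := SIZM.logpow' θ 1 hθ1 one_pos
  -- `2 x^(1/2) ≤ ε/3 x`
  have h6 : ∀ᶠ x : ℕ in atTop, 2 * (x : ℝ) ^ ((1 : ℝ) / 2) ≤ ε / 3 * x := by
    have g1 : Tendsto (fun y : ℝ => y ^ (-(1 / 2 : ℝ))) atTop (𝓝 0) :=
      tendsto_rpow_neg_atTop (by norm_num)
    have g2 : ∀ᶠ y : ℝ in atTop, y ^ (-(1 / 2 : ℝ)) < ε / 6 := g1.eventually (gt_mem_nhds (by positivity))
    have g3 : ∀ᶠ y : ℝ in atTop, 2 * y ^ ((1 : ℝ) / 2) ≤ ε / 3 * y := by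
      filter_upwards [g2, eventually_gt_atTop 0] with y hy hy0
      have : y ^ ((1 : ℝ) / 2) = y ^ (-(1 / 2 : ℝ)) * y := by
        rw [← Real.rpow_add_one hy0.ne']
        congr 1
        norm_num
      rw [this]
      have := mul_le_mul_of_nonneg_right hy.le hy0.le
      linarith
    exact tendsto_natCast_atTop_atTop.eventually g3
  filter_upwards [h1, h2, h3, h4, h5, h6, eventually_ge_atTop 3] with x g1 g2 g3 g4 g5 g6 gx z hz
  have hx0 : (0 : ℝ) < x := by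
    have : 0 < x := by omega
    exact_mod_cast this
  have hx1 : (1 : ℝ) ≤ x := by
    have : 1 ≤ x := by omega
    exact_mod_cast this
  have h4z : (4 : ℝ) ^ z ≤ (x : ℝ) ^ c := by
    have e1 : (4 : ℝ) ^ z = Real.exp (z * Real.log 4) := by
      rw [mul_comm, Real.exp_mul, Real.exp_log (by norm_num), Real.rpow_natCast]
    have e2 : (x : ℝ) ^ c = Real.exp (c * Real.log x) := by
      rw [mul_comm, Real.exp_mul, Real.exp_log hx0]
    rw [e1, e2]
    apply Real.exp_le_exp.2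
    have e3 : (z : ℝ) ≤ c / Real.log 4 * Real.log x := hz.trans g1
    calc (z : ℝ) * Real.log 4 ≤ (c / Real.log 4 * Real.log x) * Real.log 4 :=
          mul_le_mul_of_nonneg_right e3 hl4.le
      _ = c * Real.log x := by field_simp
  have h4a : (4 : ℝ) ^ z ≤ (x : ℝ) ^ ((1 : ℝ) / 2) :=
    h4z.trans (Real.rpow_le_rpow_of_exponent_le hx1 (min_le_left _ _))
  have h4b : (4 : ℝ) ^ z ≤ (x : ℝ) ^ η :=
    h4z.trans (Real.rpow_le_rpow_of_exponent_le hx1 (min_le_right _ _))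
  refine ⟨?_, h4b, ?_⟩
  · rw [Real.rpow_natCast] at g2
    linarith
  · rw [Real.rpow_one] at g4
    linarith

end Pool.Agent.Lib.MP_926cc3_nt.PP
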