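import Pool.Agent.Lib.MP_926cc3_nt.PP.Spec

/-!
# MP_926cc3_nt, project PP, module THD (helper82): a kept prime in every long interval
-/

set_option autoImplicit false

open Filter Topology MeasureTheory ProbabilityTheory

namespace Pool.Agent.Lib.MP_926cc3_nt.PP

open Pool.Agent.Lib.MP_926cc3_nt.RS Pool.Agent.Lib.MP_926cc3_nt.TH

universe u

namespace THDM

theorem indep_compl {Ω : Type u} [MeasurableSpace Ω] {μ : Measure Ω} {K : ℕ → Set Ω}
    (h : iIndepSet K μ) : iIndepSet (fun n => (K n)ᶜ) μ := by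
  rw [iIndepSet_iff] at h ⊢
  intro s f hf
  apply h s
  intro i hi
  have hle : MeasurableSpace.generateFrom {(K i)ᶜ} ≤ MeasurableSpace.generateFrom {K i} := by
    apply MeasurableSpace.generateFrom_le
    intro t ht
    rw [Set.mem_singleton_iff] at ht
    rw [ht]
    exact (MeasurableSpace.measurableSet_generateFrom (Set.mem_singleton (K i))).compl
  exact hle _ (hf i hi)

/-- the primes of `(2 x, 2 x + x / 2]`. -/
def J (x : ℕ) : Finset ℕ := (Finset.Ioc (2 * x) (2 * x + x / 2)).filter Nat.Prime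

theorem exp_summable (c : ℝ) (hc : 0 < c) : Summable fun x : ℕ => Real.exp (-c * Real.sqrt x) := by
  have h1 : Tendsto (fun x : ℕ => (c * Real.sqrt x) ^ 4 * Real.exp (-(c * Real.sqrt x))) atTop
      (𝓝 0) := by
    have h2 : Tendsto (fun x : ℕ => c * Real.sqrt x) atTop atTop :=
      Tendsto.const_mul_atTop hc (Real.tendsto_sqrt_atTop.comp tendsto_natCast_atTop_atTop)
    exact (Real.tendsto_pow_mul_exp_neg_atTop_nhds_zero 4).comp h2
  have h3 : ∀ᶠ x : ℕ in atTop, ‖Real.exp (-c * Real.sqrt x)‖ ≤ (c ^ 4)⁻¹ * (1 / (x : ℝ) ^ 2) := by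
    have h4 : ∀ᶠ x : ℕ in atTop, (c * Real.sqrt x) ^ 4 * Real.exp (-(c * Real.sqrt x)) < 1 :=
      h1.eventually (gt_mem_nhds one_pos)
    filter_upwards [h4, eventually_ge_atTop 1] with x hx hx1
    have hx0 : (0 : ℝ) < x := by exact_mod_cast hx1
    have e1 : (c * Real.sqrt x) ^ 4 = c ^ 4 * (x : ℝ) ^ 2 := by
      have : Real.sqrt x ^ 4 = (x : ℝ) ^ 2 := by
        have h5 := Real.sq_sqrt hx0.le
        calc Real.sqrt x ^ 4 = (Real.sqrt x ^ 2) ^ 2 := by ring
          _ = (x : ℝ) ^ 2 := by rw [h5]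
      rw [mul_pow, this]
    rw [e1] at hx
    rw [Real.norm_of_nonneg (Real.exp_pos _).le, neg_mul]
    have hpos : 0 < c ^ 4 * (x : ℝ) ^ 2 := by positivity
    have h6 : Real.exp (-(c * Real.sqrt x)) ≤ 1 / (c ^ 4 * (x : ℝ) ^ 2) := by
      rw [le_div_iff₀ hpos]
      linarith [hx]
    calc Real.exp (-(c * Real.sqrt x)) ≤ 1 / (c ^ 4 * (x : ℝ) ^ 2) := h6
      _ = (c ^ 4)⁻¹ * (1 / (x : ℝ) ^ 2) := by
        field_simp
  have h7 : Summable fun x : ℕ => (c ^ 4)⁻¹ * (1 / (x : ℝ) ^ 2) :=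
    (Real.summable_one_div_nat_pow.2 (by norm_num)).mul_left _
  exact Summable.of_norm_bounded_eventually_nat h7 h3

end THDM

open THDM in
theorem specTHD (hEMP : TH.SpecEMP.{u}) (hPRM : SpecPRM) : SpecTHD.{u} := by
  intro Ω _ μ hμ K δ hδ hδ1 hK hI hp
  have hc : 0 < -Real.log (1 - δ) := by
    have := Real.log_neg (sub_pos.2 hδ1) (by linarith)
    linarith
  have hb : ∀ x : ℕ, μ.real {ω | ∀ p ∈ J x, ω ∉ K p} ≤ (1 - δ) ^ (J x).card := by
    intro x
    have h1 := hEMP Ω _ μ hμ (fun n => (K n)ᶜ) (fun n => (hK n).compl) (indep_compl hI) (J x)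
      (fun k => {k}) δ (fun k _ l _ hkl => by
        rw [Finset.disjoint_singleton]
        exact hkl) hδ.le (fun k hk => by
        rw [Finset.prod_singleton, probReal_compl_eq_one_sub (hK k),
          hp k (Finset.mem_filter.1 hk).2]
        linarith)
    have e : {ω | ∀ k ∈ J x, ∃ n ∈ ({k} : Finset ℕ), ω ∈ (K n)ᶜ} =
        {ω | ∀ p ∈ J x, ω ∉ K p} := by
      ext ω
      simp
    rwa [e] at h1
  have hs : Summable fun x : ℕ => μ.real {ω | ∀ p ∈ J x, ω ∉ K p} := by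
    apply Summable.of_norm_bounded_eventually_nat (exp_summable _ hc)
    filter_upwards [hPRM] with x hx
    rw [Real.norm_of_nonneg measureReal_nonneg]
    refine (hb x).trans ?_
    have h2 : (1 - δ) ^ (J x).card = Real.exp (((J x).card : ℝ) * Real.log (1 - δ)) := by
      rw [Real.exp_nat_mul, Real.exp_log (sub_pos.2 hδ1)]
    rw [h2, neg_neg, mul_comm (Real.log (1 - δ))]
    apply Real.exp_le_exp.2
    exact mul_le_mul_of_nonpos_right hx (by linarith)
  have hs2 : (∑' x : ℕ, μ {ω | ∀ p ∈ J x, ω ∉ K p}) ≠ ⊤ := by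
    have h3 := hs.tsum_ofReal_ne_top
    have e : (fun x : ℕ => μ {ω | ∀ p ∈ J x, ω ∉ K p}) =
        fun x : ℕ => ENNReal.ofReal (μ.real {ω | ∀ p ∈ J x, ω ∉ K p}) := by
      funext x
      rw [Measure.real, ENNReal.ofReal_toReal (measure_ne_top μ _)]
    rw [e]
    exact h3
  filter_upwards [ae_eventually_notMem hs2] with ω hω
  filter_upwards [hω] with x hx
  simp only [Set.mem_setOf_eq, not_forall, not_not, exists_prop] at hx
  obtain ⟨p, hpJ, hpK⟩ := hx
  obtain ⟨h4, h5⟩ := Finset.mem_filter.1 hpJ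
  rw [Finset.mem_Ioc] at h4
  refine ⟨p, ⟨h5, hpK⟩, h4.1.le, ?_⟩
  have := Nat.div_le_self x 2
  omega

end Pool.Agent.Lib.MP_926cc3_nt.PP
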