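import Pool.Agent.Lib.MP_926cc3_nt.PP.Spec

set_option autoImplicit false

open Filter Topology MeasureTheory ProbabilityTheory

namespace Pool.Agent.Lib.MP_926cc3_nt.PP

open Pool.Agent.Lib.MP_926cc3_nt.RS Pool.Agent.Lib.MP_926cc3_nt.TH

universe u

namespace THNM

/-- the two elementary inequalities on the length of the windows -/
theorem lengths (a A C : ℝ) (ha : a < 2) (hA : 2 < A) (hC : 0 < C) :
    ∀ᶠ x : ℕ in atTop, 0 < Real.log x ∧ Real.log x ^ a ≤ (⌊C * Real.log x ^ 2⌋₊ : ℝ) ∧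
      (⌊C * Real.log x ^ 2⌋₊ : ℝ) ≤ Real.log x ^ A := by
  have h1 : ∀ᶠ y : ℝ in atTop, 2 / C ≤ y ^ (2 - a) :=
    (tendsto_rpow_atTop (by linarith)).eventually_ge_atTop _
  have h2 : ∀ᶠ y : ℝ in atTop, C ≤ y ^ (A - 2) :=
    (tendsto_rpow_atTop (by linarith)).eventually_ge_atTop _
  have h3 : ∀ᶠ y : ℝ in atTop, 2 / C ≤ y ^ (2 : ℝ) :=
    (tendsto_rpow_atTop (by norm_num)).eventually_ge_atTop _
  have h4 : ∀ᶠ y : ℝ in atTop, 0 < y := eventually_gt_atTop 0
  have key : ∀ᶠ y : ℝ in atTop, 0 < y ∧ y ^ a ≤ (⌊C * y ^ 2⌋₊ : ℝ) ∧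
      (⌊C * y ^ 2⌋₊ : ℝ) ≤ y ^ A := by
    filter_upwards [h1, h2, h3, h4] with y h1 h2 h3 h4
    have e1 : y ^ a * y ^ (2 - a) = y ^ 2 := by
      rw [← Real.rpow_add h4, ← Real.rpow_two]; congr 1; ring
    have e2 : y ^ 2 * y ^ (A - 2) = y ^ A := by
      rw [← Real.rpow_two, ← Real.rpow_add h4]; congr 1; ring
    have h3' : 2 / C ≤ y ^ 2 := by rw [← Real.rpow_two]; exact h3
    have pa : 0 < y ^ a := Real.rpow_pos_of_pos h4 a
    have p2 : 0 < y ^ 2 := by positivity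
    refine ⟨h4, ?_, ?_⟩
    · have f1 : C * y ^ 2 < (⌊C * y ^ 2⌋₊ : ℝ) + 1 := Nat.lt_floor_add_one _
      have f2 : y ^ a * (2 / C) ≤ y ^ 2 := by
        rw [← e1]; exact mul_le_mul_of_nonneg_left h1 pa.le
      have f3 : 2 * y ^ a ≤ C * y ^ 2 := by
        have := mul_le_mul_of_nonneg_left f2 hC.le
        have e : C * (y ^ a * (2 / C)) = 2 * y ^ a := by field_simp
        linarith
      have f4 : 2 ≤ C * y ^ 2 := by
        have := mul_le_mul_of_nonneg_left h3' hC.le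
        have e : C * (2 / C) = 2 := by field_simp
        linarith
      nlinarith
    · have f1 : (⌊C * y ^ 2⌋₊ : ℝ) ≤ C * y ^ 2 := Nat.floor_le (by positivity)
      have f2 : y ^ 2 * C ≤ y ^ 2 * y ^ (A - 2) := mul_le_mul_of_nonneg_left h2 p2.le
      rw [e2] at f2
      linarith
  exact (Real.tendsto_log_atTop.comp tendsto_natCast_atTop_atTop).eventually key

/-- the product over a deficient window -/
theorem prod_bound (δ C kap : ℝ) (hδ0 : 0 < δ) (hδ1 : δ < 1) (hk : 0 < kap) (hC : 0 < C)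
    (x N : ℕ) (hx : 0 < Real.log x)
    (hN : (N : ℝ) ≤ kap * (⌊C * Real.log x ^ 2⌋₊ : ℝ) / Real.log x) :
    (x : ℝ) ^ (-(kap * C * (-Real.log (1 - δ)))) ≤ (1 - δ) ^ N := by
  have hx0 : (0 : ℝ) < x := by
    rcases Nat.eq_zero_or_pos x with h | h
    · rw [h] at hx; simp at hx
    · exact_mod_cast h
  have h1 : 0 < 1 - δ := by linarith
  have hl : Real.log (1 - δ) < 0 := Real.log_neg h1 (by linarith)
  have hfl : (⌊C * Real.log x ^ 2⌋₊ : ℝ) ≤ C * Real.log x ^ 2 := Nat.floor_le (by positivity)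
  have hN2 : (N : ℝ) ≤ kap * C * Real.log x := by
    refine hN.trans ?_
    rw [div_le_iff₀ hx]
    have := mul_le_mul_of_nonneg_left hfl hk.le
    nlinarith
  rw [← Real.exp_log (pow_pos h1 N), Real.log_pow, Real.rpow_def_of_pos hx0]
  apply Real.exp_le_exp.mpr
  have := mul_le_mul_of_nonneg_right hN2 (neg_nonneg.mpr hl.le)
  nlinarith

end THNM

theorem specTHN (hBC : SpecBC.{u}) (hDET : SpecDET) (hTHD : SpecTHD.{u}) : SpecTHN.{u} := by
  intro a A kap κ δ ha hA hkap hκ hkk hδ0 hδ1 hdef Ω _ μ _ K hK hind hδ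
  classical
  have h1 : 0 < 1 - δ := by linarith
  set l : ℝ := -Real.log (1 - δ) with hl
  have hlpos : 0 < l := by
    have := Real.log_neg h1 (by linarith)
    simp only [hl]; linarith
  -- the constant C
  obtain ⟨C, hC1, hC2⟩ : ∃ C : ℝ, 1 / (κ ^ 2 * l) < C ∧ C < 1 / (kap * l) := by
    apply exists_between
    apply one_div_lt_one_div_of_lt (by positivity)
    exact mul_lt_mul_of_pos_right hkk hlpos
  have hCpos : 0 < C := lt_trans (by positivity) hC1
  set β : ℝ := kap * C * l with hβ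
  have hβpos : 0 < β := by positivity
  have hβ1 : β < 1 := by
    have : C * (kap * l) < 1 := by
      rw [lt_div_iff₀ (by positivity)] at hC2; exact hC2
    rw [hβ]; linarith [mul_comm (kap * l) C, mul_assoc kap C l, mul_assoc kap l C, mul_comm C l]
  have hη : 0 < 1 - (1 + β) / 2 := by linarith
  -- the windows
  let L : ℕ → ℕ := fun x => ⌊C * Real.log x ^ 2⌋₊
  let P : ℕ → Finset ℕ → Prop := fun x J =>
    (x : ℝ) ^ (1 - (1 - (1 + β) / 2)) ≤ J.card ∧ (∀ s ∈ J, x ≤ s ∧ s + L x ≤ 2 * x) ∧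
    (∀ s ∈ J, ∀ s' ∈ J, s ≠ s' →
      Disjoint (Finset.Ioc s (s + L x)) (Finset.Ioc s' (s' + L x))) ∧
    ∀ s ∈ J, (((Finset.Ioc s (s + L x)).filter Nat.Prime).card : ℝ) ≤
      kap * (L x : ℝ) / Real.log x
  have hlen := THNM.lengths a A C ha hA hCpos
  have hex : ∀ᶠ x : ℕ in atTop, ∃ J, P x J := by
    filter_upwards [hdef _ hη, hlen] with x hx hl
    exact hx (L x) hl.2.1 hl.2.2
  let I : ℕ → Finset ℕ := fun x => if h : ∃ J, P x J then h.choose else ∅
  have hI : ∀ᶠ x : ℕ in atTop, P x (I x) := by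
    filter_upwards [hex] with x hx
    have : I x = hx.choose := dif_pos hx
    rw [this]
    exact hx.choose_spec
  let W : ℕ → ℕ → Finset ℕ := fun x s => (Finset.Ioc s (s + L x)).filter Nat.Prime
  have hbc := hBC Ω _ μ inferInstance (fun _ n => K n) (fun _ n => hK n) (fun _ => hind) I W β
    ((1 + β) / 2) hβpos.le (by linarith) (by
      filter_upwards [hI, hlen] with x hx hl
      obtain ⟨p1, p2, p3, p4⟩ := hx
      refine ⟨?_, ?_, ?_⟩
      · intro s hs s' hs' hss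
        exact Finset.disjoint_filter_filter (p3 s hs s' hs' hss)
      · have e : (1 - (1 - (1 + β) / 2)) = (1 + β) / 2 := by ring
        rw [e] at p1; exact p1
      · intro s hs
        have e : ∏ n ∈ W x s, (1 - μ.real (K n)) = (1 - δ) ^ (W x s).card := by
          rw [Finset.prod_congr rfl (g := fun _ => 1 - δ), Finset.prod_const]
          intro n hn
          rw [hδ n (Finset.mem_filter.mp hn).2]
        show (x : ℝ) ^ (-β) ≤ ∏ n ∈ W x s, (1 - μ.real (K n))
        rw [e]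
        exact THNM.prod_bound δ C kap hδ0 hδ1 hkap hCpos x _ hl.1 (p4 s hs))
  have hthd := hTHD Ω _ μ inferInstance K δ hδ0 hδ1 hK hind hδ
  filter_upwards [hbc, hthd] with ω h1 h2
  have hdet := hDET (kept K ω) C (κ * Real.sqrt l) hCpos (by
    rw [div_lt_iff₀ (Real.sqrt_pos.mpr hCpos), mul_assoc, ← Real.sqrt_mul hlpos.le]
    have : 1 < κ ^ 2 * (l * C) := by
      rw [div_lt_iff₀ (by positivity)] at hC1
      nlinarith
    have h3 : 1 < κ * Real.sqrt (l * C) := by
      have hs : Real.sqrt (l * C) ^ 2 = l * C := Real.sq_sqrt (by positivity)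
      have hp : 0 ≤ κ * Real.sqrt (l * C) := by positivity
      by_contra hcon
      push Not at hcon
      have : (κ * Real.sqrt (l * C)) ^ 2 ≤ 1 := by
        calc (κ * Real.sqrt (l * C)) ^ 2 ≤ 1 ^ 2 := pow_le_pow_left₀ hp hcon 2
          _ = 1 := one_pow 2
      rw [mul_pow, hs] at this
      linarith
    exact h3) h2 (by
      filter_upwards [h1, hI, hlen] with x hx hP hl
      obtain ⟨s, hs, hno⟩ := hx
      obtain ⟨p1, p2, p3, p4⟩ := hP
      have hLpos : 0 < L x := by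
        have : (0 : ℝ) < (L x : ℝ) := lt_of_lt_of_le (Real.rpow_pos_of_pos hl.1 a) hl.2.1
        exact_mod_cast this
      obtain ⟨q1, q2⟩ := p2 s hs
      refine ⟨s + 1, by omega, by omega, ?_⟩
      intro n hn1 hn2 hmem
      have hn2' : n < s + 1 + L x := hn2
      obtain ⟨hp, hKn⟩ := hmem
      exact hno n (Finset.mem_filter.mpr ⟨Finset.mem_Ioc.mpr ⟨by omega, by omega⟩, hp⟩) hKn)
  filter_upwards [hdet] with g hg
  refine ⟨hg.1, hg.2.trans (le_of_eq ?_)⟩
  rw [Real.sqrt_mul hlpos.le]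
  ring

end Pool.Agent.Lib.MP_926cc3_nt.PP
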