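import Pool.Agent.Lib.MP_926cc3_nt.PP.Spec

/-!
# MP_926cc3_nt (Shanks), project PP, module UNI: the uniform distribution
-/

set_option autoImplicit false

open Filter Topology MeasureTheory ProbabilityTheory

namespace Pool.Agent.Lib.MP_926cc3_nt.PP

universe u

/-- **UNI**. -/
theorem specUNI : SpecUNI.{u} := by
  intro Ω m0 μ hμ h ξ hU
  have hnull : ∀ n j : ℕ, h n ≤ j → μ {ω | ξ n ω = j} = 0 := by
    intro n j hj
    have h1 := (hU n).2 j
    rw [if_neg (by omega)] at h1
    exact (measureReal_eq_zero_iff (measure_ne_top μ _)).1 h1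
  have hpos : ∀ n, 1 ≤ h n := by
    intro n
    by_contra hcon
    have h0 : h n = 0 := by omega
    have h1 : μ (⋃ j : ℕ, {ω | ξ n ω = j}) = 0 := by
      rw [measure_iUnion_null_iff]
      intro j
      exact hnull n j (by omega)
    have h2 : (⋃ j : ℕ, {ω | ξ n ω = j}) = Set.univ := by
      ext ω
      simp
    rw [h2, measure_univ] at h1
    exact one_ne_zero h1
  refine ⟨?_, hpos, ?_⟩
  · rw [ae_all_iff]
    intro n
    rw [ae_iff]
    have h1 : μ (⋃ j : ℕ, ⋃ _ : h n ≤ j, {ω | ξ n ω = j}) = 0 := by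
      rw [measure_iUnion_null_iff]
      intro j
      rw [measure_iUnion_null_iff]
      intro hj
      exact hnull n j hj
    refine measure_mono_null ?_ h1
    intro ω hω
    simp only [Set.mem_setOf_eq, not_lt] at hω
    simp only [Set.mem_iUnion, Set.mem_setOf_eq]
    exact ⟨ξ n ω, hω, rfl⟩
  · intro n c g
    have hh : (0 : ℝ) < h n := by exact_mod_cast hpos n
    let J : Finset ℕ := (Finset.Ioc c (c + g)).image (fun m => m - n)
    have hJ : J.card ≤ g := by
      refine (Finset.card_image_le).trans ?_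
      rw [Nat.card_Ioc]
      omega
    have hsub : {ω | n + ξ n ω ∈ Finset.Ioc c (c + g)} ⊆ ⋃ j ∈ J, {ω | ξ n ω = j} := by
      intro ω hω
      simp only [Set.mem_setOf_eq] at hω
      simp only [Set.mem_iUnion, Set.mem_setOf_eq]
      refine ⟨ξ n ω, ?_, rfl⟩
      exact Finset.mem_image.2 ⟨n + ξ n ω, hω, by omega⟩
    calc μ.real {ω | n + ξ n ω ∈ Finset.Ioc c (c + g)}
        ≤ μ.real (⋃ j ∈ J, {ω | ξ n ω = j}) := measureReal_mono hsub (measure_ne_top μ _)
      _ ≤ ∑ j ∈ J, μ.real {ω | ξ n ω = j} := measureReal_biUnion_finset_le _ _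
      _ ≤ ∑ j ∈ J, 1 / (h n : ℝ) := by
          refine Finset.sum_le_sum fun j _ => ?_
          rw [(hU n).2 j]
          split_ifs
          · exact le_rfl
          · positivity
      _ = J.card / h n := by
          rw [Finset.sum_const, nsmul_eq_mul]
          ring
      _ ≤ (g : ℝ) / h n := by
          have : (J.card : ℝ) ≤ g := by exact_mod_cast hJ
          gcongr

end Pool.Agent.Lib.MP_926cc3_nt.PP
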