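import Pool.Agent.Lib.MP_926cc3_nt.TH.All
import Pool.Agent.Lib.LP.Main
import Pool.Agent.Lib.MP_926cc3_nt.PP.BC
import Pool.Agent.Lib.MP_926cc3_nt.PP.DET
import Pool.Agent.Lib.MP_926cc3_nt.PP.DRP
import Pool.Agent.Lib.MP_926cc3_nt.PP.DSN
import Pool.Agent.Lib.MP_926cc3_nt.PP.DSP
import Pool.Agent.Lib.MP_926cc3_nt.PP.DWW
import Pool.Agent.Lib.MP_926cc3_nt.PP.EXD
import Pool.Agent.Lib.MP_926cc3_nt.PP.EXI
import Pool.Agent.Lib.MP_926cc3_nt.PP.MAT
import Pool.Agent.Lib.MP_926cc3_nt.PP.MKV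
import Pool.Agent.Lib.MP_926cc3_nt.PP.NIF
import Pool.Agent.Lib.MP_926cc3_nt.PP.PRL
import Pool.Agent.Lib.MP_926cc3_nt.PP.PRM
import Pool.Agent.Lib.MP_926cc3_nt.PP.RGG
import Pool.Agent.Lib.MP_926cc3_nt.PP.RGH
import Pool.Agent.Lib.MP_926cc3_nt.PP.SIZ
import Pool.Agent.Lib.MP_926cc3_nt.PP.THD
import Pool.Agent.Lib.MP_926cc3_nt.PP.THN
import Pool.Agent.Lib.MP_926cc3_nt.PP.TOT
import Pool.Agent.Lib.MP_926cc3_nt.PP.UNI
import Pool.Agent.Lib.MP_926cc3_nt.PP.ZETA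

/-!
# MP_926cc3_nt, PP: assembly of the modules
-/

set_option autoImplicit false

open Filter Topology MeasureTheory ProbabilityTheory

namespace Pool.Agent.Lib.MP_926cc3_nt.PP

open Pool.Agent.Lib.MP_926cc3_nt.RS Pool.Agent.Lib.MP_926cc3_nt.TH

universe u

namespace All

theorem hRGH : SpecRGH := specRGH TH.All.hDEF specDRP specPRL specTOT

theorem hDWW : SpecDWW := specDWW specTOT specMAT specMKV specSIZ

theorem hDSP : SpecDSP.{u} := specDSP (specBC specEMP) specDET specPRM specUNI specEXD specDSN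

theorem hTHN : SpecTHN.{u} := specTHN (specBC specEMP) specDET (specTHD specEMP specPRM)

/-- Maier's theorem, lower half, at every scale: for every `A` there is `kap < 1` such that for all
large `x` and all `log x ≤ L ≤ (log x)^A` there are `x^(1-η)` disjoint windows of length `L` in
`[x, 2x]` with at most `kap L / log x` primes. -/
theorem defic (A : ℝ) : ∃ kap : ℝ, 0 < kap ∧ kap < 1 ∧ Defic 1 A kap := by
  obtain ⟨k0, h0, h1, hR⟩ := hRGH (1 / 51) A (by norm_num)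
  exact ⟨(k0 + 1) / 2, by linarith, by linarith, hDWW (1 / 51) 1 A k0 ((k0 + 1) / 2) (by norm_num)
    (by norm_num) h0 (by linarith) hR (specNN Pool.Agent.Lib.LP.lpz)⟩

/-- Granville's constant for the lengths `(log x)^(2 + o(1))` -/
theorem deficG (hGRV : Pool.Agent.Lib.LargeAP.SpecGRV) (hNN : ∀ θ : ℝ, 0 < θ → θ < 1 → NN θ)
    {kap : ℝ} (hk : Real.exp Real.eulerMascheroniConstant / 2 < kap) :
    ∃ a A : ℝ, a < 2 ∧ 2 < A ∧ Defic a A kap := by
  set k0 : ℝ := (Real.exp Real.eulerMascheroniConstant / 2 + kap) / 2 with hk0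
  have h1 : Real.exp Real.eulerMascheroniConstant / 2 < k0 := by rw [hk0]; linarith
  have h2 : k0 < kap := by rw [hk0]; linarith
  obtain ⟨θ, a, A, h3, h4, h5, h6, hR⟩ := specRGG hGRV specPRL k0 h1
  have h7 : 0 < k0 := lt_trans (by positivity) h1
  exact ⟨a, A, h5, h6, hDWW θ a A k0 kap h3 h4 h7 h2 hR (hNN θ h3 h4)⟩

end All

end Pool.Agent.Lib.MP_926cc3_nt.PP
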