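import Pool.Agent.Lib.MP_926cc3_nt.TH.Spec

/-!
# MP_926cc3_nt (Shanks), project PP: random displacement and random thinning of the true primes

Definitions and the interface of part N (uniform prime number theorem in progressions, one modulus).
Text: /team-store/NEXT_926cc3.md.
-/

set_option autoImplicit false

open Filter Topology MeasureTheory ProbabilityTheory

namespace Pool.Agent.Lib.MP_926cc3_nt.PP

open Pool.Agent.Lib.MP_926cc3_nt.RS Pool.Agent.Lib.MP_926cc3_nt.TH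

/-- The product of the primes `p < z` with `p ≠ p0`. -/
def Mz (z p0 : ℕ) : ℕ := ∏ p ∈ (Finset.range z).filter (fun p => p.Prime ∧ p ≠ p0), p

/-- PART N, the final statement (one-sided): upper bound for the primes in every reduced class modulo
the product of the primes `< z`, one of them (`p0 > B`) possibly dropped, for `z ≤ (log x)^θ`. -/
def SpecN : Prop := ∃ θ : ℝ, 0 < θ ∧ θ < 1 / 2 ∧ ∀ ε : ℝ, 0 < ε → ∀ B : ℕ, ∃ x0 : ℕ,
  ∀ x z : ℕ, x0 ≤ x → 2 ≤ z → (z : ℝ) ≤ Real.log x ^ θ → ∃ p0 : ℕ, p0.Prime ∧ B < p0 ∧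
    ∀ n : ℕ, n.Coprime (Mz z p0) →
      ∑ p ∈ (Finset.Ioc x (2 * x)).filter (fun p => p.Prime ∧ p ≡ n [MOD Mz z p0]), Real.log p ≤
        (1 + ε) * x / Nat.totient (Mz z p0)

/-- DRP: dropping one prime from the sieve costs `O(1/p0)`. -/
def SpecDRP : Prop := ∃ C : ℝ, 0 < C ∧ ∀ z p0 a L : ℕ, 2 ≤ z → p0.Prime → (z : ℝ) ^ 40 ≤ L →
  (((Finset.Ioc a (a + L)).filter (fun n => n.Coprime (Mz z p0))).card : ℝ) ≤
    ∑ n ∈ Finset.Ioc a (a + L), r z n + C * V z * L / p0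

/-- PRL: the modulus is larger than any power of `z`. -/
def SpecPRL : Prop := ∀ A : ℕ, ∃ z0 : ℕ, ∀ z p0 : ℕ, z0 ≤ z → z ^ A ≤ Mz z p0

/-- DW (Maier's theorem, lower half, with many windows, at every scale): deficient windows of
primes. -/
def SpecDW : Prop := ∀ A : ℝ, ∃ kap : ℝ, 0 < kap ∧ kap < 1 ∧ ∀ η : ℝ, 0 < η →
  ∀ᶠ x : ℕ in atTop, ∀ L : ℕ, Real.log x ≤ L → (L : ℝ) ≤ Real.log x ^ A → ∃ I : Finset ℕ,
    (x : ℝ) ^ (1 - η) ≤ I.card ∧ (∀ s ∈ I, x ≤ s ∧ s + L ≤ 2 * x) ∧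
    (∀ s ∈ I, ∀ s' ∈ I, s ≠ s' → Disjoint (Finset.Ioc s (s + L)) (Finset.Ioc s' (s' + L))) ∧
    ∀ s ∈ I, (((Finset.Ioc s (s + L)).filter Nat.Prime).card : ℝ) ≤ kap * L / Real.log x

/-- The primes, each moved by `ξ p`. -/
def moved {Ω : Type*} (ξ : ℕ → Ω → ℕ) (ω : Ω) : Set ℕ := {n | ∃ p : ℕ, p.Prime ∧ n = p + ξ p ω}

/-- `ξ n` is uniformly distributed on `{0, .., h n - 1}`, for all `n`. -/
def Uniform {Ω : Type*} {m0 : MeasurableSpace Ω} (μ : Measure Ω) (h : ℕ → ℕ) (ξ : ℕ → Ω → ℕ) :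
    Prop :=
  ∀ n : ℕ, Measurable (ξ n) ∧ ∀ j : ℕ, μ.real {ω | ξ n ω = j} = if j < h n then 1 / (h n : ℝ) else 0

end Pool.Agent.Lib.MP_926cc3_nt.PP
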