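import Pool.Agent.Lib.MP_926cc3_nt.PP.Spec

set_option autoImplicit false

namespace Pool.Agent.Lib.MP_926cc3_nt.PP

theorem specMKV : SpecMKV := by
  intro S f t2 t3 hf ht3 hsum
  classical
  have h1 : (S.filter (fun k => f k ≤ t3)).card + (S.filter (fun k => ¬ f k ≤ t3)).card = S.card :=
    Finset.card_filter_add_card_filter_not (fun k => f k ≤ t3)
  have h2 : t3 * ((S.filter (fun k => ¬ f k ≤ t3)).card : ℝ) ≤ ∑ k ∈ S, f k := by
    calc t3 * ((S.filter (fun k => ¬ f k ≤ t3)).card : ℝ)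
        = ∑ k ∈ S.filter (fun k => ¬ f k ≤ t3), t3 := by
          rw [Finset.sum_const, nsmul_eq_mul, mul_comm]
      _ ≤ ∑ k ∈ S.filter (fun k => ¬ f k ≤ t3), f k := by
          refine Finset.sum_le_sum (fun k hk => ?_)
          have := (Finset.mem_filter.1 hk).2
          exact (not_le.1 this).le
      _ ≤ ∑ k ∈ S, f k :=
          Finset.sum_le_sum_of_subset_of_nonneg (Finset.filter_subset _ _) (fun k _ _ => hf k)
  have h3 : t3 * ((S.filter (fun k => ¬ f k ≤ t3)).card : ℝ) ≤ t2 * S.card := h2.trans hsum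
  have h4 : ((S.filter (fun k => ¬ f k ≤ t3)).card : ℝ) ≤ t2 / t3 * S.card := by
    rw [div_mul_eq_mul_div, le_div_iff₀ ht3]
    linarith
  have h5 : ((S.filter (fun k => f k ≤ t3)).card : ℝ) + ((S.filter (fun k => ¬ f k ≤ t3)).card : ℝ) =
      S.card := by exact_mod_cast h1
  linarith

end Pool.Agent.Lib.MP_926cc3_nt.PP
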