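import Pool.Agent.Lib.MP_926cc3_nt.PP.ZETA

/-!
# MP_926cc3_nt, PP, module SUB (helper53): shifts bounded by a power of `log n` are `SubPower`
-/

set_option autoImplicit false

namespace Pool.Agent.Lib.MP926cc3.PP

open Filter Topology Asymptotics

theorem subPower' {h : ℕ → ℕ} {A : ℝ} (hA : ∀ᶠ n : ℕ in atTop, (h n : ℝ) ≤ Real.log n ^ A)
    {ξ : ℕ → ℕ} (hx : ∀ p : ℕ, p.Prime → ξ p ≤ h p) : SubPower ξ := by
  intro ε hε
  have h1 : ∀ᶠ x : ℝ in atTop, Real.log x ^ A ≤ x ^ ε := by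
    have h2 := (isLittleO_log_rpow_rpow_atTop A hε).bound one_pos
    filter_upwards [h2, eventually_ge_atTop (1 : ℝ)] with x hx hx1
    have h4 : ‖x ^ ε‖ = x ^ ε := Real.norm_of_nonneg (Real.rpow_nonneg (by linarith) _)
    rw [one_mul, h4] at hx
    exact (Real.le_norm_self _).trans hx
  have h3 := tendsto_natCast_atTop_atTop (R := ℝ) |>.eventually h1
  obtain ⟨N, hN⟩ := eventually_atTop.1 (hA.and h3)
  refine ⟨1 + ∑ p ∈ Finset.range N, (ξ p : ℝ), fun p hp => ?_⟩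
  have hp1 : (1 : ℝ) ≤ (p : ℝ) := by exact_mod_cast hp.one_lt.le
  have hpe : (1 : ℝ) ≤ (p : ℝ) ^ ε := Real.one_le_rpow hp1 hε.le
  have hS : (0 : ℝ) ≤ ∑ p ∈ Finset.range N, (ξ p : ℝ) :=
    Finset.sum_nonneg fun _ _ => Nat.cast_nonneg _
  by_cases hpN : N ≤ p
  · obtain ⟨h4, h5⟩ := hN p hpN
    have h6 : (ξ p : ℝ) ≤ (h p : ℝ) := by exact_mod_cast hx p hp
    have h7 : (ξ p : ℝ) ≤ 1 * (p : ℝ) ^ ε := by rw [one_mul]; exact h6.trans (h4.trans h5)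
    refine h7.trans (mul_le_mul_of_nonneg_right (by linarith) (by linarith))
  · have h4 : (ξ p : ℝ) ≤ ∑ p ∈ Finset.range N, (ξ p : ℝ) :=
      Finset.single_le_sum (f := fun p => (ξ p : ℝ)) (fun _ _ => Nat.cast_nonneg _)
        (Finset.mem_range.2 (by omega))
    have h5 : (1 + ∑ p ∈ Finset.range N, (ξ p : ℝ)) * 1 ≤
        (1 + ∑ p ∈ Finset.range N, (ξ p : ℝ)) * (p : ℝ) ^ ε :=
      mul_le_mul_of_nonneg_left hpe (by linarith)
    linarith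

/-- `ξ n < h n ≤ (log n)^A` (eventually) gives `SubPower ξ`. -/
theorem subPower {h : ℕ → ℕ} {A : ℝ} (hA : ∀ᶠ n : ℕ in atTop, (h n : ℝ) ≤ Real.log n ^ A)
    {ξ : ℕ → ℕ} (hx : ∀ n, ξ n < h n) : SubPower ξ :=
  subPower' hA fun p _ => (hx p).le

end Pool.Agent.Lib.MP926cc3.PP
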