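import Pool.Agent.Lib.MP_926cc3_nt.PP.DSN
import Pool.Agent.Lib.MP_926cc3_nt.PP.DSP
import Pool.Agent.Lib.MP_926cc3_nt.TH.UPH

/-!
# MP_926cc3_nt, project PP: random displacement without slow variation of `h`

Versions of the modules DSN, DET, DSP (by helper90, helper77 and helper74) for all nondecreasing `h`
between `B log²` and a power of the logarithm.
-/

set_option autoImplicit false

open Filter Topology MeasureTheory ProbabilityTheory

namespace Pool.Agent.Lib.MP_926cc3_nt.PP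

open Pool.Agent.Lib.MP_926cc3_nt.RS Pool.Agent.Lib.MP_926cc3_nt.TH

universe u

open DSNM in
/-- the numerical lemma, without regularity of `h` -/
theorem dsn2 : ∀ (a A A' kap C : ℝ), a < 2 → A < A' → 2 < A' → 0 < kap → 0 < C → kap * C < 1 →
  ∃ B β τ : ℝ, 0 < B ∧ 0 < β ∧ β < 1 ∧ 0 < τ ∧ ∀ h : ℕ → ℕ, (∀ n, 1 ≤ h n) → Monotone h →
  (∀ᶠ n : ℕ in atTop, B * Real.log n ^ 2 ≤ h n) → (∀ᶠ n : ℕ in atTop, (h n : ℝ) ≤ Real.log n ^ A) →
  ∀ᶠ x : ℕ in atTop, Real.log x ^ a ≤ ((h (2 * x) + ⌊C * Real.log x ^ 2⌋₊ : ℕ) : ℝ) ∧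
    ((h (2 * x) + ⌊C * Real.log x ^ 2⌋₊ : ℕ) : ℝ) ≤ Real.log x ^ A' ∧
    (⌊C * Real.log x ^ 2⌋₊ : ℝ) / h x < 1 ∧
    ((h (2 * x) : ℝ) ≤ (1 + τ) * h x →
    ∀ N : ℕ, (N : ℝ) ≤ kap * ((h (2 * x) + ⌊C * Real.log x ^ 2⌋₊ : ℕ) : ℝ) / Real.log x →
      (x : ℝ) ^ (-β) ≤ (1 - (⌊C * Real.log x ^ 2⌋₊ : ℝ) / h x) ^ N) := by
  intro a A A' kap C ha hAA hA' hk hC hkC
  set β : ℝ := (1 + kap * C) / 2 with hβ
  have h0 : 0 < kap * C := mul_pos hk hC
  obtain ⟨δ, hδ0, hδ1, hδ⟩ := exd hk hC (β := β) (by rw [hβ]; linarith)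
  set B : ℝ := max 1 (C / δ) with hB
  have hB1 : 1 ≤ B := le_max_left _ _
  have hB2 : C ≤ B * δ := by
    have := le_max_right 1 (C / δ)
    rwa [div_le_iff₀ hδ0] at this
  refine ⟨B, β, δ, by linarith, by rw [hβ]; linarith, by rw [hβ]; linarith, hδ0, ?_⟩
  intro h h1 hmono hlow hup
  set A1 : ℝ := max A 0 with hA1
  have hA1' : A1 < A' := max_lt hAA (by linarith)
  have hA10 : 0 ≤ A1 := le_max_right _ _
  have e1 : ∀ᶠ y : ℝ in atTop, 2 * 2 ^ A1 ≤ y ^ (A' - A1) :=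
    (tendsto_rpow_atTop (by linarith)).eventually_ge_atTop _
  have e2 : ∀ᶠ y : ℝ in atTop, 2 * C ≤ y ^ (A' - 2) :=
    (tendsto_rpow_atTop (by linarith)).eventually_ge_atTop _
  have e3 : ∀ᶠ y : ℝ in atTop, (1 : ℝ) ≤ y := eventually_ge_atTop _
  have t2 : Tendsto (fun n : ℕ => 2 * n) atTop atTop :=
    tendsto_id.const_mul_atTop' (by norm_num)
  filter_upwards [hlow, t2.eventually hup, tlog.eventually e1, tlog.eventually e2,
    tlog.eventually e3, eventually_ge_atTop 2] with x x1 x2 x4 x5 x6 x7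
  set l : ℝ := Real.log x with hl
  have hl0 : 0 < l := by linarith
  have hx0 : (0 : ℝ) < x := by
    have : (2 : ℝ) ≤ x := by exact_mod_cast x7
    linarith
  have hhx : (1 : ℝ) ≤ h x := by exact_mod_cast h1 x
  have hh2 : (h x : ℝ) ≤ h (2 * x) := by exact_mod_cast hmono (by omega)
  set g : ℕ := ⌊C * l ^ 2⌋₊ with hg
  have hgle : (g : ℝ) ≤ C * l ^ 2 := Nat.floor_le (by positivity)
  have hg0 : (0 : ℝ) ≤ g := Nat.cast_nonneg _
  have hu : (g : ℝ) / h x ≤ δ := by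
    rw [div_le_iff₀ (by linarith)]
    calc (g : ℝ) ≤ C * l ^ 2 := hgle
      _ ≤ B * δ * l ^ 2 := mul_le_mul_of_nonneg_right hB2 (by positivity)
      _ = δ * (B * l ^ 2) := by ring
      _ ≤ δ * h x := mul_le_mul_of_nonneg_left x1 hδ0.le
  refine ⟨?_, ?_, by linarith, ?_⟩
  · push_cast
    calc l ^ a ≤ l ^ (2 : ℝ) := Real.rpow_le_rpow_of_exponent_le x6 ha.le
      _ = l ^ 2 := Real.rpow_two l
      _ ≤ B * l ^ 2 := by nlinarith [sq_nonneg l]
      _ ≤ h x := x1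
      _ ≤ (h (2 * x) : ℝ) + g := by linarith
  · push_cast
    have k1 : Real.log ((2 * x : ℕ) : ℝ) ≤ 2 * l := by
      rw [Nat.cast_mul, Real.log_mul (by norm_num) hx0.ne', Nat.cast_ofNat]
      have := Real.log_le_log (by norm_num) (show (2 : ℝ) ≤ x by exact_mod_cast x7)
      linarith
    have k2 : 1 ≤ Real.log ((2 * x : ℕ) : ℝ) := by
      refine x6.trans (Real.log_le_log hx0 ?_)
      push_cast
      linarith
    have k3 : (h (2 * x) : ℝ) ≤ 2 ^ A1 * l ^ A1 := by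
      calc (h (2 * x) : ℝ) ≤ Real.log ((2 * x : ℕ) : ℝ) ^ A := x2
        _ ≤ Real.log ((2 * x : ℕ) : ℝ) ^ A1 :=
          Real.rpow_le_rpow_of_exponent_le k2 (le_max_left _ _)
        _ ≤ (2 * l) ^ A1 := Real.rpow_le_rpow (by linarith) k1 hA10
        _ = 2 ^ A1 * l ^ A1 := Real.mul_rpow (by norm_num) hl0.le
    have k4 : 2 * 2 ^ A1 * l ^ A1 ≤ l ^ A' := by
      calc 2 * 2 ^ A1 * l ^ A1 ≤ l ^ (A' - A1) * l ^ A1 :=
            mul_le_mul_of_nonneg_right x4 (by positivity)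
        _ = l ^ A' := by rw [← Real.rpow_add hl0, sub_add_cancel]
    have k5 : 2 * C * l ^ 2 ≤ l ^ A' := by
      calc 2 * C * l ^ 2 ≤ l ^ (A' - 2) * l ^ 2 :=
            mul_le_mul_of_nonneg_right x5 (by positivity)
        _ = l ^ A' := by
            rw [← Real.rpow_two, ← Real.rpow_add hl0, sub_add_cancel]
    nlinarith
  · intro x3' N hN
    have x3 : (h (2 * x) : ℝ) / h x ≤ 1 + δ := by
      rw [div_le_iff₀ (by linarith)]
      exact x3'
    refine power (C := C) hl0 hx0 hl (by positivity) hu hδ1 hk ?_ hδ hN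
    push_cast
    have k1 : ((h (2 * x) : ℝ) + g) / h x ≤ 1 + 2 * δ := by
      rw [add_div]
      linarith
    calc ((h (2 * x) : ℝ) + g) * (g / h x) = ((h (2 * x) : ℝ) + g) / h x * g := by ring
      _ ≤ (1 + 2 * δ) * g := mul_le_mul_of_nonneg_right k1 hg0
      _ ≤ (1 + 2 * δ) * (C * l ^ 2) := mul_le_mul_of_nonneg_left hgle (by linarith)


namespace GDM

lemma two_pow_le (J : ℕ) {u : ℝ} (hu : (J : ℝ) ≤ u) : (2 : ℝ) ^ J ≤ Real.exp u := by
  calc (2 : ℝ) ^ J ≤ Real.exp 1 ^ J := by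
        apply pow_le_pow_left₀ (by norm_num)
        have := Real.add_one_le_exp (1 : ℝ)
        linarith
    _ = Real.exp J := by rw [← Real.exp_nat_mul, mul_one]
    _ ≤ Real.exp u := Real.exp_le_exp.2 hu

end GDM

open GDM in
/-- a nondecreasing function bounded by a power of the logarithm is nearly constant on a dyadic
interval near every large point -/
theorem good {h : ℕ → ℕ} {A τ η : ℝ} (h1 : ∀ n, 1 ≤ h n)
    (hup : ∀ᶠ n : ℕ in atTop, (h n : ℝ) ≤ Real.log n ^ A) (hτ : 0 < τ) (hη : 0 < η) :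
    ∀ᶠ y : ℕ in atTop, ∃ x : ℕ, y ≤ x ∧ (x : ℝ) ≤ (y : ℝ) ^ (1 + η) ∧
      (h (2 * x) : ℝ) ≤ (1 + τ) * h x := by
  set c : ℝ := Real.log (1 + τ) with hc
  have hc0 : 0 < c := Real.log_pos (by linarith)
  have hcη : 0 < c * η := mul_pos hc0 hη
  set A1 : ℝ := max A 0 with hA1
  have hA10 : 0 ≤ A1 := le_max_right _ _
  -- growth
  have hgr : ∀ᶠ l : ℝ in atTop, ((1 + η) * l) ^ A1 < Real.exp (c * (η * l - 1)) := by
    have h2 := (isLittleO_rpow_exp_pos_mul_atTop A1 hcη).bound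
      (show (0 : ℝ) < 1 / (2 * ((1 + η) ^ A1 * Real.exp c)) by positivity)
    filter_upwards [h2, eventually_gt_atTop (0 : ℝ)] with l hl hl0
    rw [Real.norm_of_nonneg (Real.rpow_nonneg hl0.le _), Real.norm_of_nonneg (Real.exp_pos _).le,
      div_mul_eq_mul_div, one_mul, le_div_iff₀ (by positivity)] at hl
    rw [Real.mul_rpow (by linarith) hl0.le]
    have h3 : c * (η * l - 1) = c * η * l - c := by ring
    rw [h3, Real.exp_sub, lt_div_iff₀ (Real.exp_pos _)]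
    have h4 : 0 < Real.exp (c * η * l) := Real.exp_pos _
    nlinarith
  have tlog : Tendsto (fun x : ℕ => Real.log (x : ℝ)) atTop atTop :=
    Real.tendsto_log_atTop.comp tendsto_natCast_atTop_atTop
  obtain ⟨n0, hn0⟩ := eventually_atTop.1 hup
  filter_upwards [tlog.eventually hgr, eventually_ge_atTop n0, eventually_ge_atTop 3] with y hy hyn hy3
  by_contra hcon
  push Not at hcon
  have hy0 : (0 : ℝ) < y := by
    have : 0 < y := by omega
    exact_mod_cast this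
  set l : ℝ := Real.log (y : ℝ) with hl
  have hl1 : 1 ≤ l := by
    rw [hl, Real.le_log_iff_exp_le hy0]
    have h3 : (3 : ℝ) ≤ y := by exact_mod_cast hy3
    have := Real.exp_one_lt_d9
    linarith
  set J : ℕ := ⌊η * l⌋₊ with hJ
  have hJle : (J : ℝ) ≤ η * l := Nat.floor_le (by positivity)
  have hJlt : η * l < (J : ℝ) + 1 := Nat.lt_floor_add_one _
  have hy1 : (y : ℝ) ^ (1 + η) = y * Real.exp (η * l) := by
    rw [Real.rpow_add hy0, Real.rpow_one, Real.rpow_def_of_pos hy0]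
    congr 2
    ring
  have hsize : ∀ j ≤ J, (((2 ^ j * y : ℕ)) : ℝ) ≤ (y : ℝ) ^ (1 + η) := by
    intro j hj
    rw [hy1]
    push_cast
    rw [mul_comm]
    apply mul_le_mul_of_nonneg_left _ hy0.le
    apply two_pow_le
    have : (j : ℝ) ≤ J := by exact_mod_cast hj
    linarith
  have hind : ∀ j ≤ J, (1 + τ) ^ j ≤ (h (2 ^ j * y) : ℝ) := by
    intro j
    induction j with
    | zero =>
      intro _
      rw [pow_zero, pow_zero, one_mul]
      exact_mod_cast h1 y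
    | succ j ih =>
      intro hj
      have h2 := hcon (2 ^ j * y) (Nat.le_mul_of_pos_left _ (by positivity)) (hsize j (by omega))
      have h3 := ih (by omega)
      have h4 : 2 * (2 ^ j * y) = 2 ^ (j + 1) * y := by ring
      rw [h4] at h2
      calc (1 + τ) ^ (j + 1) = (1 + τ) * (1 + τ) ^ j := by ring
        _ ≤ (1 + τ) * (h (2 ^ j * y) : ℝ) := mul_le_mul_of_nonneg_left h3 (by linarith)
        _ ≤ _ := h2.le
  have h5 := hind J le_rfl
  have hyJ : y ≤ 2 ^ J * y := Nat.le_mul_of_pos_left _ (by positivity)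
  have h6 := hn0 (2 ^ J * y) (hyn.trans hyJ)
  have h7 : l ≤ Real.log ((2 ^ J * y : ℕ) : ℝ) := by
    apply Real.log_le_log hy0
    exact_mod_cast hyJ
  have h8 : Real.log ((2 ^ J * y : ℕ) : ℝ) ≤ (1 + η) * l := by
    have h9 : Real.log ((2 ^ J * y : ℕ) : ℝ) ≤ Real.log ((y : ℝ) ^ (1 + η)) := by
      apply Real.log_le_log _ (hsize J le_rfl)
      have : 0 < 2 ^ J * y := by positivity
      exact_mod_cast this
    rwa [Real.log_rpow hy0] at h9
  have h9 : Real.log ((2 ^ J * y : ℕ) : ℝ) ^ A ≤ ((1 + η) * l) ^ A1 := by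
    calc Real.log ((2 ^ J * y : ℕ) : ℝ) ^ A ≤ Real.log ((2 ^ J * y : ℕ) : ℝ) ^ A1 :=
          Real.rpow_le_rpow_of_exponent_le (hl1.trans h7) (le_max_left _ _)
      _ ≤ _ := Real.rpow_le_rpow (by linarith) h8 hA10
  have h10 : Real.exp (c * (η * l - 1)) ≤ (1 + τ) ^ J := by
    have e1 : (1 + τ) ^ J = Real.exp (c * J) := by
      rw [hc, mul_comm, Real.exp_nat_mul, Real.exp_log (by linarith)]
    rw [e1]
    apply Real.exp_le_exp.2
    apply mul_le_mul_of_nonneg_left _ hc0.le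
    linarith
  linarith

/-- the deterministic step, with runs at a scale between `y` and `y^(1+η)` -/
theorem det2 (S : Set ℕ) (C κ : ℝ) (hC : 0 < C) (hκ : 1 / Real.sqrt C < κ)
    (hU : ∀ᶠ x : ℕ in atTop, ∃ n ∈ S, 2 * x ≤ n ∧ n ≤ 3 * x)
    (hL : ∀ η : ℝ, 0 < η → ∀ᶠ y : ℕ in atTop, ∃ x : ℕ, y ≤ x ∧ (x : ℝ) ≤ (y : ℝ) ^ (1 + η) ∧
      ∃ a : ℕ, x ≤ a ∧ a ≤ 2 * x ∧ ∀ n, a ≤ n → n < a + ⌊C * Real.log x ^ 2⌋₊ → n ∉ S) :
    ∀ᶠ g : ℕ in atTop,
      {p : ℕ | p ∈ S ∧ ∀ i : ℕ, 1 ≤ i → i ≤ g → (1 < p - i ∧ p - i ∉ S)}.Nonempty ∧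
      Real.log (firstElt S g) ≤ κ * Real.sqrt g := by
  set c1 : ℝ := 1 / Real.sqrt C with hc1
  have hc10 : 0 < c1 := by
    rw [hc1]
    have : 0 < Real.sqrt C := Real.sqrt_pos.2 hC
    positivity
  -- the number `η`
  set η : ℝ := (κ / c1 - 1) / 2 with hη
  have hκc : 1 < κ / c1 := by rw [lt_div_iff₀ hc10]; linarith
  have hη0 : 0 < η := by rw [hη]; linarith
  have hηκ : (1 + η) * c1 < κ := by
    have h1 : 1 + η < κ / c1 := by rw [hη]; linarith
    rwa [lt_div_iff₀ hc10] at h1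
  obtain ⟨x1, hx1⟩ := eventually_atTop.1 hU
  obtain ⟨x0, hx0⟩ := eventually_atTop.1 ((hL η hη0).and (eventually_ge_atTop (max x1 2)))
  -- choice of y
  have hroot : Tendsto (fun g : ℕ => Real.sqrt (((g : ℝ) + 2) / C)) atTop atTop := by
    apply Real.tendsto_sqrt_atTop.comp
    apply Tendsto.atTop_div_const hC
    exact tendsto_atTop_add_const_right _ _ tendsto_natCast_atTop_atTop
  have hexp : Tendsto (fun g : ℕ => Real.exp (Real.sqrt (((g : ℝ) + 2) / C))) atTop atTop :=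
    Real.tendsto_exp_atTop.comp hroot
  have hroot2 : Tendsto (fun x : ℕ => Real.sqrt (x : ℝ)) atTop atTop :=
    Real.tendsto_sqrt_atTop.comp tendsto_natCast_atTop_atTop
  filter_upwards [hexp.eventually_ge_atTop (x0 : ℝ), hroot2.eventually_ge_atTop
    (((1 + η) * c1 * Real.sqrt 2 + ((1 + η) * Real.log 2 + Real.log 3)) / (κ - (1 + η) * c1))]
    with g hg hg2
  set T := Real.sqrt (((g : ℝ) + 2) / C) with hT
  have hT0 : 0 ≤ T := Real.sqrt_nonneg _
  set y := ⌈Real.exp T⌉₊ with hy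
  have hyy0 : x0 ≤ y := by
    have : (x0 : ℝ) ≤ y := hg.trans (Nat.le_ceil _)
    exact_mod_cast this
  obtain ⟨⟨x, hyx, hxy, a, h1, h2, h3⟩, hym⟩ := hx0 y hyy0
  have hx2 : 2 ≤ x := ((le_max_right _ _).trans hym).trans hyx
  have hy2 : 2 ≤ y := (le_max_right _ _).trans hym
  obtain ⟨n, hnS, hn1, hn2⟩ := hx1 x (((le_max_left _ _).trans hym).trans hyx)
  have hyp : (0 : ℝ) < y := by
    have : 0 < y := by omega
    exact_mod_cast this
  have hyx' : (y : ℝ) ≤ x := by exact_mod_cast hyx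
  have hTx : T ≤ Real.log x := by
    rw [Real.le_log_iff_exp_le (by linarith)]
    exact (Nat.le_ceil _).trans hyx'
  have hg1 : g ≤ ⌊C * Real.log x ^ 2⌋₊ := by
    apply Nat.le_floor
    have h5 : T ^ 2 = ((g : ℝ) + 2) / C := by
      rw [hT, Real.sq_sqrt]
      apply div_nonneg (by positivity) hC.le
    have h6 : T ^ 2 ≤ Real.log x ^ 2 := by gcongr
    have h7 : C * T ^ 2 = g + 2 := by
      rw [h5]; field_simp
    nlinarith
  obtain ⟨p, hp, hp3⟩ := Det.nonempty_le (g := g) hx2 h1 ⟨n, hnS, by omega, hn2⟩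
    (fun n hn1 hn2 => h3 n hn1 (by omega))
  refine ⟨⟨p, hp⟩, ?_⟩
  have hfp : firstElt S g ≤ p := Nat.sInf_le hp
  have hylog : Real.log y ≤ T + Real.log 2 := by
    have h9 : (y : ℝ) ≤ Real.exp T + 1 := (Nat.ceil_lt_add_one (Real.exp_pos T).le).le
    have h10 : (1 : ℝ) ≤ Real.exp T := Real.one_le_exp hT0
    calc Real.log y ≤ Real.log (2 * Real.exp T) := Real.log_le_log hyp (by linarith)
      _ = T + Real.log 2 := by
        rw [Real.log_mul (by norm_num) (Real.exp_pos T).ne', Real.log_exp]; ring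
  have hylog0 : 0 ≤ Real.log y := Real.log_nonneg (by
    have : (2 : ℝ) ≤ y := by exact_mod_cast hy2
    linarith)
  have h12 : Real.log (firstElt S g) ≤ (1 + η) * (T + Real.log 2) + Real.log 3 := by
    have hlog2 : 0 ≤ Real.log 2 := Real.log_nonneg (by norm_num)
    have hlog3 : 0 ≤ Real.log 3 := Real.log_nonneg (by norm_num)
    rcases Nat.eq_zero_or_pos (firstElt S g) with h0 | h0
    · rw [h0]
      simp only [Nat.cast_zero, Real.log_zero]
      positivity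
    · have h8 : (firstElt S g : ℝ) ≤ 3 * (y : ℝ) ^ (1 + η) := by
        have h11 : (firstElt S g : ℝ) ≤ 3 * x := by exact_mod_cast hfp.trans hp3
        linarith
      have hrp : 0 < (y : ℝ) ^ (1 + η) := Real.rpow_pos_of_pos hyp _
      calc Real.log (firstElt S g) ≤ Real.log (3 * (y : ℝ) ^ (1 + η)) :=
            Real.log_le_log (by exact_mod_cast h0) h8
        _ = (1 + η) * Real.log y + Real.log 3 := by
            rw [Real.log_mul (by norm_num) hrp.ne', Real.log_rpow hyp]; ring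
        _ ≤ _ := by
            have := mul_le_mul_of_nonneg_left hylog (show 0 ≤ 1 + η by linarith)
            linarith
  refine h12.trans ?_
  have e : T = c1 * Real.sqrt (g + 2) := by
    rw [hT, hc1, Real.sqrt_div (by positivity)]
    ring
  have h13 : Real.sqrt ((g : ℝ) + 2) ≤ Real.sqrt g + Real.sqrt 2 := by
    have h5 : (0 : ℝ) ≤ g := Nat.cast_nonneg g
    have h6 := Real.mul_self_sqrt h5
    have h7 := Real.mul_self_sqrt (show (0 : ℝ) ≤ 2 by norm_num)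
    have h8 := Real.sqrt_nonneg (g : ℝ)
    have h9 := Real.sqrt_nonneg (2 : ℝ)
    rw [Real.sqrt_le_left (by positivity)]
    nlinarith [mul_nonneg h8 h9]
  rw [div_le_iff₀ (by linarith)] at hg2
  have h14 : (1 + η) * (c1 * Real.sqrt ((g : ℝ) + 2)) ≤
      (1 + η) * (c1 * (Real.sqrt g + Real.sqrt 2)) :=
    mul_le_mul_of_nonneg_left (mul_le_mul_of_nonneg_left h13 hc10.le) (by linarith)
  rw [e]
  nlinarith

open DSPM in
/-- random displacement, for all nondecreasing `h` between `B log²` and `log^A` -/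
theorem dsp2 (hBC : SpecBC.{u}) (hPRM : SpecPRM) (hUNI : SpecUNI.{u})
    (hEXD : SpecEXD.{u}) : ∀ (a A A' kap κ : ℝ), a < 2 → A < A' → 2 < A' → 0 < kap → 0 < κ →
  kap < κ ^ 2 → Defic a A' kap → ∃ B : ℝ, 0 < B ∧ ∀ h : ℕ → ℕ, Monotone h →
  (∀ᶠ n : ℕ in atTop, B * Real.log n ^ 2 ≤ h n) → (∀ᶠ n : ℕ in atTop, (h n : ℝ) ≤ Real.log n ^ A) →
  ∀ (Ω : Type u) (_ : MeasurableSpace Ω) (μ : Measure Ω), IsProbabilityMeasure μ →
  ∀ ξ : ℕ → Ω → ℕ, iIndepFun ξ μ → Uniform μ h ξ → ∀ᵐ ω ∂μ, ∀ᶠ g : ℕ in atTop,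
    {p : ℕ | p ∈ moved ξ ω ∧ ∀ i : ℕ, 1 ≤ i → i ≤ g → (1 < p - i ∧ p - i ∉ moved ξ ω)}.Nonempty ∧
    Real.log (firstElt (moved ξ ω) g) ≤ κ * Real.sqrt g := by
  intro a A A' kap κ ha hAA hA' hkap hκ hkκ hDef
  set C : ℝ := (1 / κ ^ 2 + 1 / kap) / 2 with hC
  have hk2 : 0 < κ ^ 2 := by positivity
  have hinv : 1 / κ ^ 2 < 1 / kap := one_div_lt_one_div_of_lt hkap hkκ
  have hC1 : 1 / κ ^ 2 < C := by rw [hC]; linarith
  have hC2 : C < 1 / kap := by rw [hC]; linarith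
  have hC0 : 0 < C := lt_trans (by positivity) hC1
  have hkC : kap * C < 1 := by
    rw [lt_div_iff₀ hkap] at hC2
    linarith
  have hCκ : 1 / Real.sqrt C < κ := by
    have h1 : 1 / κ < Real.sqrt C := by
      refine Real.lt_sqrt_of_sq_lt ?_
      rwa [one_div, inv_pow, ← one_div]
    have h2 : 0 < Real.sqrt C := Real.sqrt_pos.2 hC0
    rw [div_lt_iff₀ h2]
    rw [div_lt_iff₀ hκ] at h1
    linarith
  obtain ⟨B, β, τ, hB, hβ0, hβ1, hτ, hnum⟩ := dsn2 a A A' kap C ha hAA hA' hkap hC0 hkC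
  refine ⟨B, hB, ?_⟩
  intro h hmono hlow hup Ω mΩ μ hμ ξ hind hunif
  classical
  obtain ⟨hU1, hU2, hU3⟩ := hUNI Ω mΩ μ hμ h ξ hunif
  have hnum' := hnum h hU2 hmono hlow hup
  set β' : ℝ := (1 + β) / 2 with hβ'
  have hD := hDef (1 - β') (by rw [hβ']; linarith)
  have hββ : 1 - (1 - β') = β' := by ring
  rw [hββ] at hD
  let L : ℕ → ℕ := fun x => h (2 * x) + ⌊C * Real.log x ^ 2⌋₊
  obtain ⟨I, hI⟩ := exI kap β' L
  have hE := fun x => hEXD Ω mΩ μ hμ ξ (fun n => (hunif n).1) hind (I x) (h (2 * x)) (L x)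
    (hI x).1
  choose E hEm hEi hEW using hE
  -- the windows of a large `x`
  have hQ : ∀ᶠ x : ℕ in atTop, Q kap β' (L x) x (I x) := by
    filter_upwards [hD, hnum'] with x hx1 hx2
    exact (hI x).2 (hx1 (L x) hx2.1 hx2.2.1)
  have hβ'0 : 0 < β' := by rw [hβ']; linarith
  have hβ'1 : β' < 1 := by rw [hβ']; linarith
  have hbc := hBC Ω mΩ μ hμ E hEm hEi
    (fun x => if (h (2 * x) : ℝ) ≤ (1 + τ) * h x then I x else Finset.range (x + 1))
    (fun x s => if (h (2 * x) : ℝ) ≤ (1 + τ) * h x then Finset.Ioc s (s + L x) else ∅) β β' hβ0.le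
    (by rw [hβ']; linarith) (by
      filter_upwards [hQ, hnum', eventually_ge_atTop 1] with x hQx hnx hx1
      by_cases hgood : (h (2 * x) : ℝ) ≤ (1 + τ) * h x
      swap
      · simp only [if_neg hgood]
        have hx1' : (1 : ℝ) ≤ x := by exact_mod_cast hx1
        refine ⟨fun _ _ _ _ _ => disjoint_bot_left, ?_, fun s _ => ?_⟩
        · rw [Finset.card_range]
          push_cast
          calc (x : ℝ) ^ β' ≤ (x : ℝ) ^ (1 : ℝ) :=
                Real.rpow_le_rpow_of_exponent_le hx1' hβ'1.le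
            _ = x := Real.rpow_one _
            _ ≤ x + 1 := by linarith
        · rw [Finset.prod_empty]
          exact Real.rpow_le_one_of_one_le_of_nonpos hx1' (by linarith)
      simp only [if_pos hgood]
      obtain ⟨q1, q2, q3, q4⟩ := hQx
      refine ⟨q3, q1, fun s hs => ?_⟩
      obtain ⟨-, -, n3, n4⟩ := hnx
      refine (n4 hgood _ (q4 s hs)).trans ?_
      refine prod_ge n3.le (fun n hn => ?_)
      rw [hEW x s hs n hn]
      split_ifs with hpr
      · have h1 := hU3 n (s + h (2 * x)) ⌊C * Real.log x ^ 2⌋₊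
        have h2 : s + h (2 * x) + ⌊C * Real.log x ^ 2⌋₊ = s + L x := by
          simp only [L]
          ring
        rw [h2] at h1
        refine h1.trans ?_
        have h3 : (h x : ℝ) ≤ h n := by
          refine Nat.cast_le.2 (hmono ?_)
          have := (q2 s hs).1
          have := (Finset.mem_Ioc.1 hn).1
          omega
        have h4 : (1 : ℝ) ≤ h x := by exact_mod_cast hU2 x
        exact div_le_div_of_nonneg_left (Nat.cast_nonneg _) (by linarith) h3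
      · rw [measureReal_empty])
  -- the elements of the set in `[2 x, 3 x]`
  have hsmall : ∀ᶠ x : ℕ in atTop, (h (3 * x) : ℝ) ≤ x / 2 := by
    have t3 : Tendsto (fun n : ℕ => 3 * n) atTop atTop :=
      tendsto_id.const_mul_atTop' (by norm_num)
    have h1 := (isLittleO_log_rpow_rpow_atTop A (show (0 : ℝ) < 1 by norm_num)).bound
      (show (0 : ℝ) < 1 / 6 by norm_num)
    have h2 := (tendsto_natCast_atTop_atTop (R := ℝ)).eventually h1
    filter_upwards [t3.eventually hup, t3.eventually h2] with x hx1 hx2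
    have h3 : ‖Real.log ((3 * x : ℕ) : ℝ) ^ A‖ ≤ 1 / 6 * ‖((3 * x : ℕ) : ℝ) ^ (1 : ℝ)‖ := hx2
    rw [Real.rpow_one, Real.norm_of_nonneg (Nat.cast_nonneg _)] at h3
    calc (h (3 * x) : ℝ) ≤ Real.log ((3 * x : ℕ) : ℝ) ^ A := hx1
      _ ≤ ‖Real.log ((3 * x : ℕ) : ℝ) ^ A‖ := Real.le_norm_self _
      _ ≤ 1 / 6 * ((3 * x : ℕ) : ℝ) := h3
      _ = x / 2 := by
        push_cast
        ring
  have hg1 : ∀ᶠ x : ℕ in atTop, 1 ≤ ⌊C * Real.log x ^ 2⌋₊ := by
    have t1 : Tendsto (fun x : ℕ => C * Real.log x ^ 2) atTop atTop :=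
      Tendsto.const_mul_atTop hC0 ((tendsto_pow_atTop (by norm_num)).comp tlog)
    filter_upwards [t1.eventually_ge_atTop 1] with x hx
    exact (Nat.le_floor_iff (by linarith)).2 (by exact_mod_cast hx)
  filter_upwards [hbc, hU1] with ω hω hξ
  refine det2 (moved ξ ω) C κ hC0 hCκ ?_ ?_
  · filter_upwards [hPRM, hsmall, eventually_ge_atTop 1] with x hx1 hx2 hx3
    have hx4 : (1 : ℝ) ≤ x := by exact_mod_cast hx3
    have hpos : 0 < ((Finset.Ioc (2 * x) (2 * x + x / 2)).filter Nat.Prime).card := by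
      have : (0 : ℝ) < ((Finset.Ioc (2 * x) (2 * x + x / 2)).filter Nat.Prime).card :=
        lt_of_lt_of_le (Real.sqrt_pos.2 (by linarith)) hx1
      exact_mod_cast this
    obtain ⟨p, hp⟩ := Finset.card_pos.1 hpos
    rw [Finset.mem_filter, Finset.mem_Ioc] at hp
    obtain ⟨⟨hp1, hp2⟩, hp3⟩ := hp
    refine ⟨p + ξ p ω, ⟨p, hp3, rfl⟩, by omega, ?_⟩
    have h1 : h p ≤ h (3 * x) := hmono (by omega)
    have h2 := hξ p
    have h3 : ((x / 2 : ℕ) : ℝ) + h (3 * x) ≤ x := by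
      have := Nat.cast_div_le (α := ℝ) (m := x) (n := 2)
      push_cast at this
      linarith
    have h4 : x / 2 + h (3 * x) ≤ x := by exact_mod_cast h3
    omega
  · intro η hη
    obtain ⟨x0, hx0⟩ := eventually_atTop.1 (hω.and (hQ.and hg1))
    filter_upwards [good hU2 hup hτ hη, eventually_ge_atTop x0] with y hy hyx0
    obtain ⟨x, hyx, hxy, hgood⟩ := hy
    obtain ⟨hx1, hx2, hx3⟩ := hx0 x (hyx0.trans hyx)
    simp only [if_pos hgood] at hx1
    refine ⟨x, hyx, hxy, ?_⟩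
    obtain ⟨s, hs, hsn⟩ := hx1
    obtain ⟨q1, q2, q3, q4⟩ := hx2
    obtain ⟨r1, r2⟩ := q2 s hs
    have hL : L x = h (2 * x) + ⌊C * Real.log x ^ 2⌋₊ := rfl
    refine ⟨s + h (2 * x) + 1, by omega, by omega, fun n hn1 hn2 hn => ?_⟩
    obtain ⟨p, hp, rfl⟩ := hn
    have h1 : h p ≤ h (2 * x) := hmono (by omega)
    have h2 := hξ p
    have hpW : p ∈ Finset.Ioc s (s + L x) := by
      rw [Finset.mem_Ioc]
      omega
    have h3 := hsn p hpW
    rw [hEW x s hs p hpW, if_pos hp] at h3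
    refine h3 ?_
    rw [Set.mem_ofPred_eq, Finset.mem_Ioc]
    omega


end Pool.Agent.Lib.MP_926cc3_nt.PP
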