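import Pool.Agent.Lib.MP_926cc3_nt.PP.All
import Pool.Agent.Lib.MP_926cc3_nt.PP.Slow
import Pool.Agent.Lib.MP_926cc3_nt.PP.SUB
import Pool.Agent.Lib.LargeAP.Maier

/-!
# MP_926cc3_nt, PP: the theorems, with the constants of Maier and Granville
-/

set_option autoImplicit false

open Filter Topology MeasureTheory ProbabilityTheory

namespace Pool.Agent.Lib.MP_926cc3_nt.PP

open Pool.Agent.Lib.MP_926cc3_nt.RS Pool.Agent.Lib.MP_926cc3_nt.TH

universe u

/-- Buchstab's function: `u ω(u) = 1` for `1 ≤ u ≤ 2` and `u ω(u) = 1 + ∫_1^(u-1) ω` for `u ≥ 2`. -/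
def IsBuchstab (W : ℝ → ℝ) : Prop :=
  (∀ u : ℝ, 1 ≤ u → u ≤ 2 → u * W u = 1) ∧
    ∀ u : ℝ, 2 ≤ u → u * W u = 1 + ∫ v in (1 : ℝ)..(u - 1), W v

namespace MainM

theorem buchstab {g : ℝ → ℝ} (hg : IsG g) : IsBuchstab (fun u => g (u - 1) / u) := by
  obtain ⟨hc, hm, h1, hd⟩ := hg
  constructor
  · intro u hu1 hu2
    show u * (g (u - 1) / u) = 1
    rw [h1 (u - 1) (by linarith)]
    field_simp
  · intro u hu
    show u * (g (u - 1) / u) = _
    have hu0 : u ≠ 0 := by linarith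
    have e1 : u * (g (u - 1) / u) = g (u - 1) := by field_simp
    rw [e1]
    have hcont : ContinuousOn (fun v : ℝ => g (v - 1) / v) (Set.uIcc 1 (u - 1)) := by
      apply ContinuousOn.div
      · exact (hc.comp (continuous_id.sub continuous_const)).continuousOn
      · exact continuousOn_id
      · intro v hv
        rw [Set.uIcc_of_le (by linarith)] at hv
        have := hv.1
        linarith
    have e2 : ∫ v in (1 : ℝ)..(u - 1), g (v - 1) / v = g (u - 1) - g 1 := by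
      apply intervalIntegral.integral_eq_sub_of_hasDerivAt_of_le (by linarith) hc.continuousOn
      · intro v hv
        exact hd v hv.1
      · exact hcont.intervalIntegrable
    rw [e2, h1 1 le_rfl]
    ring

theorem not_shanks {S : Set ℕ} {κ : ℝ} (hκ : κ < 1)
    (h : ∀ᶠ g : ℕ in atTop, Real.log (firstElt S g) ≤ κ * Real.sqrt g) : ¬ ShanksLaw S := by
  intro hS
  unfold ShanksLaw at hS
  have h0 : ∀ᶠ g : ℕ in atTop, Real.sqrt (g : ℝ) ≠ 0 := by
    filter_upwards [eventually_ge_atTop 1] with g hg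
    have : (0 : ℝ) < g := by exact_mod_cast hg
    exact (Real.sqrt_pos.2 this).ne'
  rw [Asymptotics.isEquivalent_iff_tendsto_one h0] at hS
  have h1 := hS.eventually (lt_mem_nhds hκ)
  obtain ⟨g, hg1, hg2, hg3⟩ := (h1.and (h.and (eventually_ge_atTop 1))).exists
  have hs : 0 < Real.sqrt (g : ℝ) := Real.sqrt_pos.2 (by exact_mod_cast hg3)
  rw [Pi.div_apply, lt_div_iff₀ hs] at hg1
  linarith

end MainM

open MainM

/-- Maier's matrix with the constants `e^γ ω(t)` -/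
theorem deficM {g : ℝ → ℝ} (hg : IsG g) {t A kap : ℝ} (hA : 1 < A) (hAt : A < t)
    (hk : Real.exp Real.eulerMascheroniConstant * (g (t - 1) / t) < kap) :
    ∃ a : ℝ, a < 2 ∧ Defic a A kap := by
  set k0 : ℝ := (Real.exp Real.eulerMascheroniConstant * (g (t - 1) / t) + kap) / 2 with hk0
  have h1 : Real.exp Real.eulerMascheroniConstant * (g (t - 1) / t) < k0 := by rw [hk0]; linarith
  have h2 : k0 < kap := by rw [hk0]; linarith
  obtain ⟨θ, a, h3, h4, h5, hR⟩ := Pool.Agent.Lib.LargeAP.thRGG g t A k0 hg hA hAt h1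
  have hgpos : 0 < g (t - 1) := by
    have h6 : g 0 ≤ g (t - 1) := hg.2.1 (by linarith)
    rw [hg.2.2.1 0 (by norm_num)] at h6
    linarith
  have h7 : 0 < k0 := by
    have h8 : 0 < Real.exp Real.eulerMascheroniConstant * (g (t - 1) / t) :=
      mul_pos (Real.exp_pos _) (div_pos hgpos (by linarith))
    linarith
  exact ⟨a, h5, All.hDWW θ a A k0 kap h3 h4 h7 h2 hR (Pool.Agent.Lib.LargeAP.thNNT θ h3 h4)⟩

/-- the displaced primes -/
theorem displaced {g : ℝ → ℝ} (hg : IsG g) {t A κ : ℝ} (hA : 2 ≤ A) (hAt : A < t) (hκ : 0 < κ)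
    (hk : Real.exp Real.eulerMascheroniConstant * (g (t - 1) / t) < κ ^ 2) :
    ∃ B : ℝ, 0 < B ∧ ∀ h : ℕ → ℕ, Monotone h →
    (∀ᶠ n : ℕ in atTop, B * Real.log n ^ 2 ≤ h n) → (∀ᶠ n : ℕ in atTop, (h n : ℝ) ≤ Real.log n ^ A) →
    ∀ (Ω : Type u) (_ : MeasurableSpace Ω) (μ : Measure Ω), IsProbabilityMeasure μ →
    ∀ ξ : ℕ → Ω → ℕ, iIndepFun ξ μ → Uniform μ h ξ → ∀ᵐ ω ∂μ, ∀ᶠ g : ℕ in atTop,
      {p : ℕ | p ∈ moved ξ ω ∧ ∀ i : ℕ, 1 ≤ i → i ≤ g → (1 < p - i ∧ p - i ∉ moved ξ ω)}.Nonempty ∧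
      Real.log (firstElt (moved ξ ω) g) ≤ κ * Real.sqrt g := by
  set kap : ℝ := (Real.exp Real.eulerMascheroniConstant * (g (t - 1) / t) + κ ^ 2) / 2 with hkap
  have h1 : Real.exp Real.eulerMascheroniConstant * (g (t - 1) / t) < kap := by
    rw [hkap]; linarith
  have h2 : kap < κ ^ 2 := by rw [hkap]; linarith
  set A' : ℝ := (A + t) / 2 with hA'
  have hgpos : 0 < g (t - 1) := by
    have h6 : g 0 ≤ g (t - 1) := hg.2.1 (by linarith)
    rw [hg.2.2.1 0 (by norm_num)] at h6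
    linarith
  have h7 : 0 < kap := by
    have h8 : 0 < Real.exp Real.eulerMascheroniConstant * (g (t - 1) / t) :=
      mul_pos (Real.exp_pos _) (div_pos hgpos (by linarith))
    linarith
  obtain ⟨a, ha, hD⟩ := deficM hg (A := A') (by rw [hA']; linarith) (by rw [hA']; linarith) h1
  exact dsp2 (specBC specEMP) specPRM specUNI specEXD a A A' kap κ ha (by rw [hA']; linarith)
    (by rw [hA']; linarith) h7 hκ h2 hD

/-- the thinned primes -/
theorem thinned {κ δ : ℝ} (hκ : 0 < κ) (hk : Real.exp Real.eulerMascheroniConstant / 2 < κ ^ 2)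
    (hδ0 : 0 < δ) (hδ1 : δ < 1) :
    ∀ (Ω : Type u) (_ : MeasurableSpace Ω) (μ : Measure Ω), IsProbabilityMeasure μ →
    ∀ K : ℕ → Set Ω, (∀ n, MeasurableSet (K n)) → iIndepSet K μ →
    (∀ p : ℕ, p.Prime → μ.real (K p) = δ) → ∀ᵐ ω ∂μ, ∀ᶠ g : ℕ in atTop,
      {p : ℕ | p ∈ kept K ω ∧ ∀ i : ℕ, 1 ≤ i → i ≤ g → (1 < p - i ∧ p - i ∉ kept K ω)}.Nonempty ∧
      Real.log (firstElt (kept K ω) g) ≤ κ * Real.sqrt (-Real.log (1 - δ) * g) := by
  set kap : ℝ := (Real.exp Real.eulerMascheroniConstant / 2 + κ ^ 2) / 2 with hkap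
  have h1 : Real.exp Real.eulerMascheroniConstant / 2 < kap := by rw [hkap]; linarith
  have h2 : kap < κ ^ 2 := by rw [hkap]; linarith
  have h7 : 0 < kap := lt_trans (by positivity) h1
  obtain ⟨a, A, ha, hA, hD⟩ := All.deficG Pool.Agent.Lib.LargeAP.thGRV
    Pool.Agent.Lib.LargeAP.thNNT h1
  exact All.hTHN a A kap κ δ ha hA h7 hκ h2 hδ0 hδ1 hD

end Pool.Agent.Lib.MP_926cc3_nt.PP
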