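import Pool.Agent.Lib.LargeAP.GLE
import Pool.Agent.Lib.LargeAP.EUL
import Pool.Agent.Lib.LargeAP.MEA
import Pool.Agent.Lib.LargeAP.MEB
import Pool.Agent.Lib.LargeAP.MER

/-!
# MP_926cc3_nt, PP: values of Buchstab's function `ω(t) = g (t - 1) / t`

`ω(t) = 1/t` for `1 < t ≤ 2`, `ω > 0`, and `e^γ ω(t) < 1` for arbitrarily large `t`.
-/

set_option autoImplicit false

open Filter Topology

namespace Pool.Agent.Lib.MP_926cc3_nt.PP

open Pool.Agent.Lib.MP_926cc3_nt.TH (IsG)
open Pool.Agent.Lib.MP_926cc3_nt.RS (V)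

/-- Mertens' third theorem. -/
theorem ome_mer : Tendsto (fun z : ℕ => V z * Real.log z) atTop
    (𝓝 (Real.exp (-Real.eulerMascheroniConstant))) :=
  LargeAP.specMER LargeAP.specGLE LargeAP.specEUL LargeAP.specMEA LargeAP.specMEB

theorem ome_one_le {g : ℝ → ℝ} (hg : IsG g) (t : ℝ) : 1 ≤ g t := by
  obtain ⟨-, hmono, hone, -⟩ := hg
  rcases le_total t 1 with h | h
  · rw [hone t h]
  · rw [← hone 1 le_rfl]
    exact hmono h

theorem ome_pos {g : ℝ → ℝ} (hg : IsG g) {t : ℝ} (ht : 0 < t) : 0 < g (t - 1) / t :=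
  div_pos (lt_of_lt_of_le one_pos (ome_one_le hg _)) ht

theorem ome_eq {g : ℝ → ℝ} (hg : IsG g) {t : ℝ} (ht : t ≤ 2) : g (t - 1) / t = 1 / t := by
  rw [hg.2.2.1 (t - 1) (by linarith)]

/-- `g' (t) = g (t - 1) / t` is below its limit `e^(-γ)` for arbitrarily large `t`. -/
theorem ome {g : ℝ → ℝ} (hg : IsG g) (A : ℝ) : ∃ t : ℝ, A < t ∧ 1 < t ∧
    Real.exp Real.eulerMascheroniConstant * (g (t - 1) / t) < 1 := by
  obtain ⟨c, hc, hlim, C, hC, hest⟩ := TH.All.hLIM g hg
  have hce : c = Real.exp (-Real.eulerMascheroniConstant) := tendsto_nhds_unique hlim ome_mer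
  obtain ⟨t1, t2, h1, h2, h3⟩ := TH.specOSC g c C hg hc hC hest (max A 1)
  have hA : A ≤ t1 := le_trans (le_max_left _ _) h1
  have h11 : 1 ≤ t1 := le_trans (le_max_right _ _) h1
  obtain ⟨hcont, -, -, hder⟩ := hg
  obtain ⟨t, ht, h4⟩ := exists_hasDerivAt_eq_slope g (fun t => g (t - 1) / t) h2
    hcont.continuousOn (fun t ht => hder t (lt_of_le_of_lt h11 ht.1))
  refine ⟨t, lt_of_le_of_lt hA ht.1, lt_of_le_of_lt h11 ht.1, ?_⟩
  have h5 : g (t - 1) / t < c := by
    rw [h4, div_lt_iff₀ (by linarith)]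
    exact h3
  have h6 : Real.exp Real.eulerMascheroniConstant * (g (t - 1) / t) <
      Real.exp Real.eulerMascheroniConstant * c :=
    mul_lt_mul_of_pos_left h5 (Real.exp_pos _)
  rwa [hce, ← Real.exp_add, add_neg_cancel, Real.exp_zero] at h6

/-- `e^γ ω(t)` tends to `1`. -/
theorem ome_tendsto {g : ℝ → ℝ} (hg : IsG g) :
    Tendsto (fun t : ℝ => Real.exp Real.eulerMascheroniConstant * (g (t - 1) / t)) atTop (𝓝 1) := by
  obtain ⟨c, hc, hlim, C, hC, hest⟩ := TH.All.hLIM g hg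
  have hce : c = Real.exp (-Real.eulerMascheroniConstant) := tendsto_nhds_unique hlim ome_mer
  obtain ⟨-, -, -, hder⟩ := hg
  have h0 : Tendsto (fun t : ℝ => g (t - 1) / t) atTop (𝓝 c) := by
    rw [Metric.tendsto_atTop]
    intro ε hε
    have h1 : Tendsto (fun b : ℕ => C * Real.exp (-(b : ℝ))) atTop (𝓝 (C * 0)) :=
      ((Real.tendsto_exp_neg_atTop_nhds_zero).comp
        (tendsto_natCast_atTop_atTop (R := ℝ))).const_mul C
    rw [mul_zero] at h1
    obtain ⟨b, hb⟩ := (h1.eventually (gt_mem_nhds hε)).exists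
    refine ⟨8 * (b : ℝ) + 21, fun t ht => ?_⟩
    have ht1 : 1 < t := by
      have : (0 : ℝ) ≤ b := Nat.cast_nonneg b
      linarith
    have hd := hder t ht1
    have h2 : Tendsto (slope g t) (𝓝[>] t) (𝓝 (g (t - 1) / t)) :=
      (hasDerivAt_iff_tendsto_slope.1 hd).mono_left
        (nhdsWithin_mono t (fun y (hy : t < y) => (ne_of_gt hy : y ≠ t)))
    have h3 : Tendsto (fun y => |slope g t y - c|) (𝓝[>] t) (𝓝 |g (t - 1) / t - c|) :=
      (h2.sub_const c).abs
    have h4 : |g (t - 1) / t - c| ≤ C * Real.exp (-(b : ℝ)) := by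
      refine le_of_tendsto h3 ?_
      filter_upwards [self_mem_nhdsWithin] with y hy
      have hy' : t < y := hy
      have h5 := hest b t y ht hy'
      have h6 : slope g t y - c = (g y - g t - c * (y - t)) / (y - t) := by
        have h8 : y - t ≠ 0 := ne_of_gt (sub_pos.2 hy')
        rw [slope_def_field, sub_div (g y - g t), mul_div_assoc, div_self h8, mul_one]
      rw [h6, abs_div, abs_of_pos (by linarith : 0 < y - t), div_le_iff₀ (by linarith)]
      exact h5
    rw [Real.dist_eq]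
    exact lt_of_le_of_lt h4 hb
  have h7 := h0.const_mul (Real.exp Real.eulerMascheroniConstant)
  rwa [hce, ← Real.exp_add, add_neg_cancel, Real.exp_zero] at h7

end Pool.Agent.Lib.MP_926cc3_nt.PP
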