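import Pool.Agent.Lib.MP_926cc3_nt.PP.Defs

/-!
# MP_926cc3_nt, PP: the sizes `h` of the displacements
-/

set_option autoImplicit false

open Filter Topology

namespace Pool.Agent.Lib.MP_926cc3_nt.PP

/-- `h` is nondecreasing, positive, and `B (log n)² ≤ h n ≤ (log n)^A` for all large `n`. -/
structure Size (B A : ℝ) (h : ℕ → ℕ) : Prop where
  mono : Monotone h
  pos : ∀ n, 1 ≤ h n
  low : ∀ᶠ n : ℕ in atTop, B * Real.log n ^ 2 ≤ h n
  up : ∀ᶠ n : ℕ in atTop, (h n : ℝ) ≤ Real.log n ^ A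

/-- the powers of the logarithm are sizes -/
theorem size_pow {B a A : ℝ} (h2 : 2 < a) (haA : a < A) :
    Size B A (fun n : ℕ => ⌊Real.log n ^ a⌋₊ + 1) := by
  have tlog : Tendsto (fun x : ℕ => Real.log (x : ℝ)) atTop atTop :=
    Real.tendsto_log_atTop.comp tendsto_natCast_atTop_atTop
  constructor
  · intro m n hmn
    have h1 : Real.log (m : ℝ) ≤ Real.log (n : ℝ) := by
      rcases Nat.eq_zero_or_pos m with h0 | h0
      · rw [h0]
        simp only [Nat.cast_zero, Real.log_zero]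
        exact Real.log_natCast_nonneg n
      · exact Real.log_le_log (by exact_mod_cast h0) (by exact_mod_cast hmn)
    have h3 : Real.log (m : ℝ) ^ a ≤ Real.log (n : ℝ) ^ a :=
      Real.rpow_le_rpow (Real.log_natCast_nonneg m) h1 (by linarith)
    show ⌊Real.log (m : ℝ) ^ a⌋₊ + 1 ≤ ⌊Real.log (n : ℝ) ^ a⌋₊ + 1
    exact Nat.add_le_add_right (Nat.floor_le_floor h3) 1
  · intro n
    exact Nat.le_add_left 1 _
  · have e1 : ∀ᶠ y : ℝ in atTop, B ≤ y ^ (a - 2) :=
      (tendsto_rpow_atTop (by linarith)).eventually_ge_atTop _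
    filter_upwards [tlog.eventually e1, tlog.eventually_ge_atTop 1] with n hn hn1
    have hl0 : 0 < Real.log (n : ℝ) := by linarith
    have h3 : Real.log (n : ℝ) ^ a < (⌊Real.log (n : ℝ) ^ a⌋₊ : ℝ) + 1 := Nat.lt_floor_add_one _
    push_cast
    calc B * Real.log (n : ℝ) ^ 2 ≤ Real.log (n : ℝ) ^ (a - 2) * Real.log (n : ℝ) ^ 2 :=
          mul_le_mul_of_nonneg_right hn (by positivity)
      _ = Real.log (n : ℝ) ^ a := by
          rw [← Real.rpow_two, ← Real.rpow_add hl0]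
          congr 1
          ring
      _ ≤ _ := h3.le
  · have e1 : ∀ᶠ y : ℝ in atTop, 2 ≤ y ^ (A - a) :=
      (tendsto_rpow_atTop (by linarith)).eventually_ge_atTop _
    filter_upwards [tlog.eventually e1, tlog.eventually_ge_atTop 1] with n hn hn1
    have hl0 : 0 < Real.log (n : ℝ) := by linarith
    have h3 : (⌊Real.log (n : ℝ) ^ a⌋₊ : ℝ) ≤ Real.log (n : ℝ) ^ a :=
      Nat.floor_le (Real.rpow_nonneg hl0.le _)
    have h4 : 1 ≤ Real.log (n : ℝ) ^ a := Real.one_le_rpow hn1 (by linarith)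
    push_cast
    calc (⌊Real.log (n : ℝ) ^ a⌋₊ : ℝ) + 1 ≤ 2 * Real.log (n : ℝ) ^ a := by linarith
      _ ≤ Real.log (n : ℝ) ^ (A - a) * Real.log (n : ℝ) ^ a :=
          mul_le_mul_of_nonneg_right hn (by positivity)
      _ = Real.log (n : ℝ) ^ A := by
          rw [← Real.rpow_add hl0]
          congr 1
          ring

end Pool.Agent.Lib.MP_926cc3_nt.PP
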