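import Pool.Agent.Lib.MP_926cc3_nt.PP.Spec
import Pool.Agent.Lib.LargeAP.Spec
import Pool.Agent.Lib.LargeAP.SpecG

/-!
# MP_926cc3_nt (Shanks), project PP: Granville's constant

With the library LargeAP (all exponents `θ < 1`, and the constant `e^γ/2`) the constant of PP for the lengths
`(log x)^(2+o(1))` is Granville's.
-/

set_option autoImplicit false

open Filter Topology MeasureTheory ProbabilityTheory

namespace Pool.Agent.Lib.MP_926cc3_nt.PP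

open Pool.Agent.Lib.MP_926cc3_nt.RS Pool.Agent.Lib.MP_926cc3_nt.TH

/-- **RGG** (100 lines). USES `LargeAP.SpecGRV`, SpecPRL. PROOF. `ε = kap - e^γ/2`, GRV gives `δ` (may be assumed `≤ 1`: a smaller
`δ` is weaker), `P`, `z₀`. `θ < 1` with `θ (2 + δ) > 2`, for instance `θ = (2 + δ/2)/(2 + δ)`, so `θ (2+δ) = 2 + δ/2`, `a = 2 θ < 2`,
`A = 2 + δ/4`. For large `x`: `z = ⌊(log x)^θ⌋`, `z ≥ (log x)^θ/2`, `z^2 ≤ (log x)^(2θ) = (log x)^a ≤ L`,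
`L ≤ (log x)^A ≤ ((log x)^θ/2)^(2+δ) ≤ z^(2+δ)` (`(log x)^(δ/4) ≥ 2^(2+δ)`), `L ≤ z^3 ≤ Mz z p0` (PRL). `c = 0`,
`T = 0`; `Ioc 0 L = Icc 1 L`. -/
def SpecRGG : Prop := ∀ kap : ℝ, Real.exp Real.eulerMascheroniConstant / 2 < kap →
  ∃ θ a A : ℝ, 0 < θ ∧ θ < 1 ∧ a < 2 ∧ 2 < A ∧ Rough θ a A kap

end Pool.Agent.Lib.MP_926cc3_nt.PP
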