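import Mathlib

/-!
# MP_926cc3_nt, PP, module ZETA: moving the primes does not move the zeros of zeta

Let `r_p = p + ξ_p`, `p` prime, where `ξ_p ≥ 0` is `≤ C_ε p^ε` for every `ε > 0` (for instance
`ξ_p ≤ (log p)^A`). Then `G(s) = ∏_p (1 - p^{-s}) / (1 - r_p^{-s})` is analytic and has no zeros for
`Re s > 0`, and the Beurling zeta function `∏_p (1 - r_p^{-s})^{-1}` of the `r_p` is `ζ(s) G(s)` for
`Re s > 1`: it continues to `Re s > 0`, `s ≠ 1`, with exactly the zeros of `ζ`. (Cf. Grosswald,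
Schnitzer 1978.) Proof: `|p^{-s} - r_p^{-s}| ≤ |s| ξ_p p^{- Re s - 1}`.
-/

set_option autoImplicit false

namespace Pool.Agent.Lib.MP926cc3.PP

open Filter Topology Complex

/-- `ξ p ≤ C p^ε` for all primes `p`, for every `ε > 0` -/
def SubPower (ξ : ℕ → ℕ) : Prop :=
  ∀ ε : ℝ, 0 < ε → ∃ C : ℝ, ∀ p : ℕ, p.Prime → (ξ p : ℝ) ≤ C * (p : ℝ) ^ ε

/-- the factor `(1 - p^{-s}) / (1 - (p + ξ_p)^{-s})` -/
noncomputable def zfac (ξ : ℕ → ℕ) (p : Nat.Primes) (s : ℂ) : ℂ :=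
  (1 - ((p : ℕ) : ℂ) ^ (-s)) / (1 - (((p : ℕ) + ξ p : ℕ) : ℂ) ^ (-s))

/-- the product `G` -/
noncomputable def zquot (ξ : ℕ → ℕ) (s : ℂ) : ℂ := ∏' p : Nat.Primes, zfac ξ p s

/-- ZETA: `G` is analytic without zeros in `Re s > 0` and the zeta function of the `p + ξ_p` is `ζ G`. -/
def SpecZETA : Prop := ∀ ξ : ℕ → ℕ, SubPower ξ →
  AnalyticOnNhd ℂ (zquot ξ) {s | 0 < s.re} ∧ (∀ s : ℂ, 0 < s.re → zquot ξ s ≠ 0) ∧
  ∀ s : ℂ, 1 < s.re → HasProd (fun p : Nat.Primes => (1 - (((p : ℕ) + ξ p : ℕ) : ℂ) ^ (-s))⁻¹)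
    (riemannZeta s * zquot ξ s)

namespace ZETAM

theorem norm_pow {n : ℕ} (hn : 2 ≤ n) (s : ℂ) : ‖(n : ℂ) ^ (-s)‖ = (n : ℝ) ^ (-s.re) := by
  have h : ((n : ℝ) : ℂ) = (n : ℂ) := by push_cast; rfl
  rw [← h, Complex.norm_cpow_eq_rpow_re_of_pos (by positivity), Complex.neg_re]

theorem pow_le {n : ℕ} (hn : 2 ≤ n) {s : ℂ} {δ : ℝ} (hδ : 0 < δ) (hs : δ ≤ s.re) :
    ‖(n : ℂ) ^ (-s)‖ ≤ (2 : ℝ) ^ (-δ) := by
  rw [norm_pow hn]
  have h1 : (n : ℝ) ^ (-s.re) ≤ (n : ℝ) ^ (-δ) := by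
    refine Real.rpow_le_rpow_of_exponent_le ?_ (by linarith)
    exact_mod_cast (by omega : 1 ≤ n)
  refine h1.trans ?_
  refine Real.rpow_le_rpow_of_nonpos (by norm_num) (by exact_mod_cast hn) (by linarith)

theorem two_lt {δ : ℝ} (hδ : 0 < δ) : (2 : ℝ) ^ (-δ) < 1 :=
  Real.rpow_lt_one_of_one_lt_of_neg (by norm_num) (by linarith)

theorem denom {n : ℕ} (hn : 2 ≤ n) {s : ℂ} {δ : ℝ} (hδ : 0 < δ) (hs : δ ≤ s.re) :
    1 - (2 : ℝ) ^ (-δ) ≤ ‖1 - (n : ℂ) ^ (-s)‖ := by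
  have h1 := norm_sub_norm_le (1 : ℂ) ((n : ℂ) ^ (-s))
  rw [norm_one] at h1
  have h2 := pow_le hn hδ hs
  linarith

theorem ne_zero {n : ℕ} (hn : 2 ≤ n) {s : ℂ} (hs : 0 < s.re) : 1 - (n : ℂ) ^ (-s) ≠ 0 := by
  have h1 := denom hn hs le_rfl
  have h2 := two_lt hs
  intro h
  rw [h, norm_zero] at h1
  linarith

/-- the mean value inequality -/
theorem diff_le {n m : ℕ} (hn : 2 ≤ n) (hnm : n ≤ m) {s : ℂ} (hs : 0 < s.re) :
    ‖(m : ℂ) ^ (-s) - (n : ℂ) ^ (-s)‖ ≤ ‖s‖ * (n : ℝ) ^ (-s.re - 1) * ((m : ℝ) - n) := by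
  have hn0 : (0 : ℝ) < n := by exact_mod_cast (by omega : 0 < n)
  have hder : ∀ t ∈ Set.Icc (n : ℝ) m, HasDerivWithinAt (fun t : ℝ => ((t : ℝ) : ℂ) ^ (-s))
      (-s * (t : ℂ) ^ (-s - 1)) (Set.Icc (n : ℝ) m) t := by
    intro t ht
    have ht0 : 0 < t := hn0.trans_le ht.1
    have h1 : HasDerivAt (fun z : ℂ => z ^ (-s)) (-s * (t : ℂ) ^ (-s - 1) * 1) (t : ℂ) :=
      (hasDerivAt_id (t : ℂ)).cpow_const (Complex.ofReal_mem_slitPlane.2 ht0)
    rw [mul_one] at h1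
    exact h1.comp_ofReal.hasDerivWithinAt
  have hb : ∀ t ∈ Set.Icc (n : ℝ) m, ‖-s * (t : ℂ) ^ (-s - 1)‖ ≤ ‖s‖ * (n : ℝ) ^ (-s.re - 1) := by
    intro t ht
    have ht0 : 0 < t := hn0.trans_le ht.1
    rw [norm_mul, norm_neg, Complex.norm_cpow_eq_rpow_re_of_pos ht0]
    refine mul_le_mul_of_nonneg_left ?_ (norm_nonneg _)
    have h2 : (-s - 1 : ℂ).re = -s.re - 1 := by simp
    rw [h2]
    exact Real.rpow_le_rpow_of_nonpos hn0 ht.1 (by linarith)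
  have h := Convex.norm_image_sub_le_of_norm_hasDerivWithin_le hder hb (convex_Icc _ _)
    (Set.left_mem_Icc.2 (by exact_mod_cast hnm)) (Set.right_mem_Icc.2 (by exact_mod_cast hnm))
  have h3 : ‖(m : ℝ) - n‖ = (m : ℝ) - n := by
    rw [Real.norm_eq_abs, abs_of_nonneg]
    have : (n : ℝ) ≤ m := by exact_mod_cast hnm
    linarith
  rw [h3] at h
  simpa using h

theorem zfac_sub_one (ξ : ℕ → ℕ) (p : Nat.Primes) {s : ℂ} (hs : 0 < s.re) :
    zfac ξ p s - 1 = ((((p : ℕ) + ξ p : ℕ) : ℂ) ^ (-s) - ((p : ℕ) : ℂ) ^ (-s)) /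
      (1 - (((p : ℕ) + ξ p : ℕ) : ℂ) ^ (-s)) := by
  have h := ne_zero (n := (p : ℕ) + ξ p) (by have := p.2.two_le; omega) hs
  unfold zfac
  field_simp
  ring

theorem zfac_ne_zero (ξ : ℕ → ℕ) (p : Nat.Primes) {s : ℂ} (hs : 0 < s.re) : zfac ξ p s ≠ 0 :=
  div_ne_zero (ne_zero p.2.two_le hs) (ne_zero (by have := p.2.two_le; omega) hs)

theorem differentiableAt_zfac (ξ : ℕ → ℕ) (p : Nat.Primes) {s : ℂ} (hs : 0 < s.re) :
    DifferentiableAt ℂ (zfac ξ p) s := by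
  have h1 : ∀ n : ℕ, 2 ≤ n → DifferentiableAt ℂ (fun s : ℂ => 1 - (n : ℂ) ^ (-s)) s := by
    intro n hn
    have hn0 : (n : ℂ) ≠ 0 := by exact_mod_cast (by omega : n ≠ 0)
    exact (differentiableAt_const _).sub (differentiableAt_id.neg.const_cpow (Or.inl hn0))
  exact (h1 p p.2.two_le).div (h1 _ (by have := p.2.two_le; omega))
    (ne_zero (by have := p.2.two_le; omega) hs)

/-- the domains -/
def dom (δ M : ℝ) : Set ℂ := {s | δ < s.re ∧ ‖s‖ < M}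

theorem isOpen_dom (δ M : ℝ) : IsOpen (dom δ M) :=
  (isOpen_lt continuous_const Complex.continuous_re).inter (isOpen_lt continuous_norm continuous_const)

theorem bound (ξ : ℕ → ℕ) (hξ : SubPower ξ) (δ M : ℝ) (hδ : 0 < δ) (hM : 0 < M) :
    ∃ u : Nat.Primes → ℝ, Summable u ∧ ∀ p, ∀ s ∈ dom δ M, ‖zfac ξ p s - 1‖ ≤ u p := by
  obtain ⟨C, hC⟩ := hξ (δ / 2) (by linarith)
  refine ⟨fun p => (M * C / (1 - (2 : ℝ) ^ (-δ))) * ((p : ℕ) : ℝ) ^ (-1 - δ / 2), ?_, ?_⟩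
  · exact (Nat.Primes.summable_rpow.2 (by linarith)).mul_left _
  · rintro p s ⟨hs1, hs2⟩
    have hs0 : 0 < s.re := hδ.trans hs1
    have hp2 : 2 ≤ (p : ℕ) := p.2.two_le
    have hp0 : (0 : ℝ) < (p : ℕ) := by exact_mod_cast (by omega : 0 < (p : ℕ))
    have hp1 : (1 : ℝ) ≤ (p : ℕ) := by exact_mod_cast (by omega : 1 ≤ (p : ℕ))
    have h2 := two_lt hδ
    have hd := denom (n := (p : ℕ) + ξ p) (by omega) hδ hs1.le
    have hdiff := diff_le (n := (p : ℕ)) (m := (p : ℕ) + ξ p) hp2 (by omega) hs0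
    have hxi : ((((p : ℕ) + ξ p : ℕ) : ℝ) - ((p : ℕ) : ℝ)) = (ξ p : ℝ) := by push_cast; ring
    rw [hxi] at hdiff
    rw [zfac_sub_one ξ p hs0, norm_div]
    have hpos : 0 < 1 - (2 : ℝ) ^ (-δ) := by linarith
    have hnum : ‖((((p : ℕ) + ξ p : ℕ) : ℂ) ^ (-s) - ((p : ℕ) : ℂ) ^ (-s))‖ ≤
        M * C * ((p : ℕ) : ℝ) ^ (-1 - δ / 2) := by
      refine hdiff.trans ?_
      have e1 : ((p : ℕ) : ℝ) ^ (-s.re - 1) ≤ ((p : ℕ) : ℝ) ^ (-δ - 1) :=
        Real.rpow_le_rpow_of_exponent_le hp1 (by linarith)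
      have e2 : ((p : ℕ) : ℝ) ^ (-δ - 1) * ((p : ℕ) : ℝ) ^ (δ / 2) =
          ((p : ℕ) : ℝ) ^ (-1 - δ / 2) := by
        rw [← Real.rpow_add hp0]
        congr 1
        ring
      have e3 := hC p p.2
      have e4 : (0 : ℝ) ≤ ξ p := Nat.cast_nonneg _
      have e5 : (0 : ℝ) ≤ ((p : ℕ) : ℝ) ^ (-δ - 1) := by positivity
      calc ‖s‖ * ((p : ℕ) : ℝ) ^ (-s.re - 1) * (ξ p : ℝ)
          ≤ M * ((p : ℕ) : ℝ) ^ (-δ - 1) * (ξ p : ℝ) := by
            refine mul_le_mul_of_nonneg_right ?_ e4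
            exact mul_le_mul hs2.le e1 (by positivity) hM.le
        _ ≤ M * ((p : ℕ) : ℝ) ^ (-δ - 1) * (C * ((p : ℕ) : ℝ) ^ (δ / 2)) :=
            mul_le_mul_of_nonneg_left e3 (by positivity)
        _ = M * C * (((p : ℕ) : ℝ) ^ (-δ - 1) * ((p : ℕ) : ℝ) ^ (δ / 2)) := by ring
        _ = M * C * ((p : ℕ) : ℝ) ^ (-1 - δ / 2) := by rw [e2]
    have hnn : 0 ≤ M * C * ((p : ℕ) : ℝ) ^ (-1 - δ / 2) := (norm_nonneg _).trans hnum
    calc ‖((((p : ℕ) + ξ p : ℕ) : ℂ) ^ (-s) - ((p : ℕ) : ℂ) ^ (-s))‖ /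
          ‖1 - (((p : ℕ) + ξ p : ℕ) : ℂ) ^ (-s)‖
        ≤ (M * C * ((p : ℕ) : ℝ) ^ (-1 - δ / 2)) / (1 - (2 : ℝ) ^ (-δ)) :=
          div_le_div₀ hnn hnum hpos hd
      _ = (M * C / (1 - (2 : ℝ) ^ (-δ))) * ((p : ℕ) : ℝ) ^ (-1 - δ / 2) := by ring

theorem differentiableOn_dom (ξ : ℕ → ℕ) (hξ : SubPower ξ) (δ M : ℝ) (hδ : 0 < δ) (hM : 0 < M) :
    DifferentiableOn ℂ (zquot ξ) (dom δ M) := by
  obtain ⟨u, hu1, hu2⟩ := bound ξ hξ δ M hδ hM
  have h := Summable.hasProdLocallyUniformlyOn_one_add (f := fun p s => zfac ξ p s - 1)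
    (isOpen_dom δ M) hu1
    (Eventually.of_forall hu2) (fun p s hs =>
      ((differentiableAt_zfac ξ p (hδ.trans hs.1)).sub_const 1).continuousAt.continuousWithinAt)
  have h2 : TendstoLocallyUniformlyOn
      (fun (t : Finset Nat.Primes) (s : ℂ) => ∏ p ∈ t, (1 + (zfac ξ p s - 1)))
      (fun s => ∏' p : Nat.Primes, (1 + (zfac ξ p s - 1))) atTop (dom δ M) := h
  have h3 := h2.differentiableOn (Eventually.of_forall fun t => ?_) (isOpen_dom δ M)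
  · refine h3.congr fun s _ => ?_
    unfold zquot
    exact tprod_congr fun p => by ring
  · refine DifferentiableOn.fun_finset_prod fun p _ s hs => ?_
    have := (differentiableAt_zfac ξ p (hδ.trans hs.1)).sub_const 1
    exact (this.const_add 1).differentiableWithinAt

theorem summable_norm (ξ : ℕ → ℕ) (hξ : SubPower ξ) {s : ℂ} (hs : 0 < s.re) :
    Summable fun p : Nat.Primes => ‖zfac ξ p s - 1‖ := by
  obtain ⟨u, hu1, hu2⟩ := bound ξ hξ (s.re / 2) (‖s‖ + 1) (by linarith) (by positivity)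
  refine Summable.of_nonneg_of_le (fun p => norm_nonneg _) (fun p => hu2 p s ⟨?_, ?_⟩) hu1
  · linarith
  · linarith

end ZETAM

open ZETAM in
theorem specZETA : SpecZETA := by
  intro ξ hξ
  have hopen : IsOpen {s : ℂ | 0 < s.re} := isOpen_lt continuous_const Complex.continuous_re
  refine ⟨?_, ?_, ?_⟩
  · refine DifferentiableOn.analyticOnNhd (fun s hs => ?_) hopen
    have h1 := differentiableOn_dom ξ hξ (s.re / 2) (‖s‖ + 1) (half_pos hs) (by positivity)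
    have h2 : s ∈ dom (s.re / 2) (‖s‖ + 1) := ⟨half_lt_self hs, by linarith⟩
    exact ((h1 s h2).differentiableAt ((isOpen_dom _ _).mem_nhds h2)).differentiableWithinAt
  · intro s hs
    have h1 := tprod_one_add_ne_zero_of_summable (f := fun p : Nat.Primes => zfac ξ p s - 1)
      (fun p => by
        have := zfac_ne_zero ξ p hs
        simpa using this) (summable_norm ξ hξ hs)
    have h2 : zquot ξ s = ∏' p : Nat.Primes, (1 + (zfac ξ p s - 1)) := by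
      unfold zquot
      exact tprod_congr fun p => by ring
    rw [h2]
    exact h1
  · intro s hs
    have hs0 : 0 < s.re := by linarith
    have h1 : Multipliable fun p : Nat.Primes => (1 + (zfac ξ p s - 1)) :=
      multipliable_one_add_of_summable (summable_norm ξ hξ hs0)
    have h2 : HasProd (fun p : Nat.Primes => zfac ξ p s) (zquot ξ s) := by
      have h3 : (fun p : Nat.Primes => (1 + (zfac ξ p s - 1))) = fun p => zfac ξ p s := by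
        funext p
        ring
      rw [h3] at h1
      exact h1.hasProd
    have h4 := (riemannZeta_eulerProduct_hasProd hs).mul h2
    have h5 : (fun p : Nat.Primes => (1 - ((p : ℕ) : ℂ) ^ (-s))⁻¹ * zfac ξ p s) =
        fun p : Nat.Primes => (1 - (((p : ℕ) + ξ p : ℕ) : ℂ) ^ (-s))⁻¹ := by
      funext p
      have h6 := ne_zero p.2.two_le hs0
      unfold zfac
      rw [div_eq_mul_inv, ← mul_assoc, inv_mul_cancel₀ h6, one_mul]
    rwa [h5] at h4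

end Pool.Agent.Lib.MP926cc3.PP
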